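import Pool.Agent.H93.MR.Mn
import Pool.Agent.H15.DP.CaseA

/-!
# The derivative, orders at most two: series

`u = x exp (-it)`, `F'(1/u) = 1 - β u^2 - EE u`, `- Lam k (-z)` has the coefficients
`al k n >= 0`, `(1 - z)^(k-1)` has the coefficients `sg k n`, `0 <= sg k n <= 1`.
-/

open Complex Set Filter Topology MeasureTheory
open scoped ComplexConjugate Real

namespace Pool.Agent.H93.MR

open Pool.Agent.H15.Sig Pool.Agent.H15.DP

/-- coefficients of `(1 - z)^(k-1)` -/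
noncomputable def sg (k : ℝ) (n : ℕ) : ℝ := (-1) ^ n * sc k n

/-- coefficients of `- Lam k (-z)` -/
noncomputable def al (k : ℝ) (n : ℕ) : ℝ := -((-1) ^ n * lc k n)

theorem sg_zero (k : ℝ) : sg k 0 = 1 := by simp [sg, sc_zero]

theorem sg_succ (k : ℝ) (n : ℕ) : ((n : ℝ) + 1) * sg k (n + 1) = (n + 1 - k) * sg k n := by
  unfold sg
  have h := sc_succ k n
  rw [pow_succ]
  calc ((n : ℝ) + 1) * ((-1) ^ n * -1 * sc k (n + 1)) =
        -((-1) ^ n) * (((n : ℝ) + 1) * sc k (n + 1)) := by ring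
    _ = _ := by rw [h]; ring

theorem sg_nonneg {k : ℝ} (h1 : k ≤ 1) (n : ℕ) : 0 ≤ sg k n := by
  induction n with
  | zero => rw [sg_zero]; norm_num
  | succ n ih =>
    have h := sg_succ k n
    have hn : (0 : ℝ) ≤ (n : ℝ) := Nat.cast_nonneg n
    have h2 : 0 ≤ ((n : ℝ) + 1) * sg k (n + 1) := by
      rw [h]
      exact mul_nonneg (by linarith) ih
    exact nonneg_of_mul_nonneg_right h2 (by linarith)

theorem sg_le {k : ℝ} (h0 : 0 ≤ k) (h1 : k ≤ 1) (n : ℕ) : sg k n ≤ 1 := by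
  have h := abs_sc_le h0 h1 n
  have h2 : sg k n ≤ |sg k n| := le_abs_self _
  have h3 : |sg k n| = |sc k n| := by
    unfold sg
    rw [abs_mul, abs_pow, abs_neg, abs_one, one_pow, one_mul]
  linarith

theorem al_zero (k : ℝ) : al k 0 = 0 := by simp [al, lc_zero]

theorem al_succ (k : ℝ) (n : ℕ) : al k (n + 1) = sg k n / (n + 1) := by
  unfold al sg
  rw [lc_succ, pow_succ]
  ring

theorem al_one (k : ℝ) : al k 1 = 1 := by
  rw [al_succ k 0, sg_zero]; norm_num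

theorem al_nonneg {k : ℝ} (h1 : k ≤ 1) (n : ℕ) : 0 ≤ al k n := by
  cases n with
  | zero => rw [al_zero]
  | succ n =>
    rw [al_succ]
    exact div_nonneg (sg_nonneg h1 n) (by positivity)

theorem al_le {k : ℝ} (h0 : 0 ≤ k) (h1 : k ≤ 1) (n : ℕ) : al k (n + 1) ≤ 1 / ((n : ℝ) + 1) := by
  rw [al_succ]
  exact div_le_div_of_nonneg_right (sg_le h0 h1 n) (by positivity)

theorem hasSum_sg (k : ℝ) {z : ℂ} (hz : ‖z‖ < 1) :
    HasSum (fun n : ℕ => ((sg k n : ℝ) : ℂ) * z ^ n) ((1 + -z) ^ ((k - 1 : ℝ) : ℂ)) := by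
  have h := hasSum_cpow (k - 1) (z := -z) (by rwa [norm_neg])
  refine h.congr_fun ?_ |> fun h => h
  intro n
  unfold sg sc
  rw [neg_pow z n]
  push_cast
  ring

theorem hasSum_al {k : ℝ} (h0 : 0 < k) {z : ℂ} (hz : ‖z‖ < 1) :
    HasSum (fun n : ℕ => ((al k n : ℝ) : ℂ) * z ^ n) (-Lam k (-z)) := by
  have h := (hasSum_Lam h0 (z := -z) (by rwa [norm_neg])).neg
  refine h.congr_fun ?_ |> fun h => h
  intro n
  unfold al
  rw [neg_pow z n]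
  push_cast
  ring

variable {F : ℂ → ℂ} {b : ℕ → ℂ} {β : ℝ}

/-- the leading part of a function with `c 1 = 1` -/
theorem int_ev {c : ℕ → ℝ} {G : ℂ → ℂ}
    (hG : ∀ z : ℂ, ‖z‖ < 1 → HasSum (fun n : ℕ => ((c n : ℝ) : ℂ) * z ^ n) (G z)) (hc : c 1 = 1)
    (h0 : 0 ≤ β) (h1 : β ≤ 1) {x : ℝ} (hx0 : 0 ≤ x) (hx : x < 1) :
    ∫ t in (-π)..π, ‖G (β * (x * ec t) ^ 2)‖ ^ 2 ≤
      (∫ t in (-π)..π, ‖G ((x * ec t) ^ 2)‖ ^ 2) - 2 * π * (1 - β ^ 2) * x ^ 4 := by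
  have hpi := Real.pi_pos
  have e1 := (rep_evS hG h0 h1).parseval_self hx0 hx
  have e2 := (rep_evS hG (zero_le_one (α := ℝ)) le_rfl).parseval_self hx0 hx
  have e3 := e2.sub e1
  have e4 := le_hasSum e3 2 (fun j _ => by
    rw [sub_nonneg]
    refine mul_le_mul_of_nonneg_right ?_ (by positivity)
    refine mul_le_mul_of_nonneg_left ?_ (by positivity)
    refine pow_le_pow_left₀ (norm_nonneg _) ?_ 2
    by_cases hj : Even j
    · obtain ⟨m, rfl⟩ := hj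
      rw [← two_mul, coeff_evS_even, coeff_evS_even, norm_real, norm_real, Real.norm_eq_abs,
        Real.norm_eq_abs, abs_mul, abs_mul]
      refine mul_le_mul_of_nonneg_left ?_ (abs_nonneg _)
      rw [one_pow, abs_one, abs_of_nonneg (by positivity)]
      exact pow_le_one₀ h0 h1
    · rw [coeff_evS_odd _ _ hj, coeff_evS_odd _ _ hj])
  have e5 : PowerSeries.coeff 2 (evS c β) = (β : ℂ) := by
    have := coeff_evS_even c β 1
    rw [hc, one_mul, pow_one] at this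
    exact this
  have e6 : PowerSeries.coeff 2 (evS c 1) = ((1 : ℝ) : ℂ) := by
    have := coeff_evS_even c 1 1
    rw [hc, one_mul, pow_one] at this
    exact this
  rw [e5, e6, norm_real, norm_real, Real.norm_eq_abs, Real.norm_eq_abs, sq_abs, sq_abs] at e4
  norm_num at e4
  linarith

theorem rep_PD {k : ℝ} (hk : 0 < k) (h0 : 0 ≤ β) (h1 : β ≤ 1) :
    Rep (evS (al k) β) (fun u => -Lam k (-(β * u ^ 2))) :=
  rep_evS (G := fun z => -Lam k (-z)) (fun _ hz => hasSum_al hk hz) h0 h1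

theorem rep_WD (k : ℝ) (h0 : 0 ≤ β) (h1 : β ≤ 1) :
    Rep (evS (sg k) β) (fun u => (1 + -(β * u ^ 2)) ^ ((k - 1 : ℝ) : ℂ)) :=
  rep_evS (G := fun z => (1 + -z) ^ ((k - 1 : ℝ) : ℂ)) (fun _ hz => hasSum_sg k hz) h0 h1

/-- the leading part -/
theorem int_PD {k : ℝ} (hk : 0 < k) (h0 : 0 ≤ β) (h1 : β ≤ 1) {x : ℝ} (hx0 : 0 ≤ x) (hx : x < 1) :
    ∫ t in (-π)..π, ‖Lam k (-(β * (x * ec t) ^ 2))‖ ^ 2 ≤
      (∫ t in (-π)..π, ‖Lam k (-((x * ec t) ^ 2))‖ ^ 2) - 2 * π * (1 - β ^ 2) * x ^ 4 := by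
  have h := int_ev (G := fun z => -Lam k (-z)) (fun _ hz => hasSum_al hk hz) (al_one k) h0 h1
    hx0 hx
  simp only [norm_neg] at h
  exact h

/-- pointwise bound for the remainder -/
theorem EE_le' (h : Nrm F b β) {u : ℂ} (hu : ‖u‖ ≤ 1 / 2) :
    ‖EE b β u‖ ^ 2 ≤ 28 / 9 * (1 - β ^ 2) * ‖u‖ ^ 6 := by
  have hn := norm_nonneg u
  have hu2 : ‖u‖ ^ 2 ≤ 1 / 4 := by nlinarith
  have h1 := h.EE_le hn (by linarith : ‖u‖ ^ 2 < 1) rfl
  have h2 : (2 - ‖u‖ ^ 2) / (1 - ‖u‖ ^ 2) ^ 2 ≤ 28 / 9 := by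
    have h3 : 0 < (1 - ‖u‖ ^ 2) ^ 2 := by
      have : 0 < 1 - ‖u‖ ^ 2 := by linarith
      positivity
    rw [div_le_iff₀ h3]
    nlinarith [mul_nonneg (by linarith : 0 ≤ 1 - 4 * ‖u‖ ^ 2)
      (by linarith : 0 ≤ 10 - 7 * ‖u‖ ^ 2)]
  have h4 : (‖u‖ ^ 2) ^ 3 * ((2 - ‖u‖ ^ 2) / (1 - ‖u‖ ^ 2) ^ 2) ≤ (‖u‖ ^ 2) ^ 3 * (28 / 9) :=
    mul_le_mul_of_nonneg_left h2 (by positivity)
  have h5 := mul_le_mul_of_nonneg_left h4 h.del_nonneg
  refine h1.trans (h5.trans (le_of_eq ?_))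
  ring

theorem EE_half (h : Nrm F b β) {u : ℂ} (hu : ‖u‖ ≤ 1 / 2) :
    ‖EE b β u‖ ^ 2 ≤ 7 / 144 * (1 - β ^ 2) := by
  have h1 := EE_le' h hu
  have h2 : ‖u‖ ^ 6 ≤ (1 / 2) ^ 6 := pow_le_pow_left₀ (norm_nonneg _) hu 6
  have h3 : 28 / 9 * (1 - β ^ 2) * ‖u‖ ^ 6 ≤ 28 / 9 * (1 - β ^ 2) * (1 / 2) ^ 6 :=
    mul_le_mul_of_nonneg_left h2 (mul_nonneg (by norm_num) h.del_nonneg)
  linarith

/-- `|β u^2| + |EE| <= 1/3` -/
theorem sum_third (h : Nrm F b β) {u : ℂ} (hu : ‖u‖ ≤ 1 / 2) :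
    β / 4 + ‖EE b β u‖ ≤ 1 / 3 := by
  have h1 := EE_half h hu
  have hβ := h.beta_le
  have h2 : ‖EE b β u‖ ^ 2 ≤ (1 / 3 - β / 4) ^ 2 := by nlinarith [sq_nonneg (3 - 4 * β)]
  have h3 := abs_le_of_sq_le_sq h2 (by linarith)
  rw [abs_of_nonneg (norm_nonneg _)] at h3
  linarith

end Pool.Agent.H93.MR
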