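import Pool.Agent.H93.MR.Dl

/-!
# The derivative, orders at most two: the quadratic part

`int_We`: the mean square of `(1 - β u^2)^(k-1) EE` is at most `(32/13) x^6 (1 - β^2)`.
PROOF. Cauchy's inequality for every coefficient, odd and even coefficients separately.
-/

open Complex Set Filter Topology MeasureTheory
open scoped ComplexConjugate Real

namespace Pool.Agent.H93.MR

open Pool.Agent.H15.Sig Pool.Agent.H15.DP

variable {F : ℂ → ℂ} {b : ℕ → ℂ} {β : ℝ}

/-- the sum over `j <= n`, `j = n` mod 2 -/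
noncomputable def Pa (v : ℕ → ℝ) (n : ℕ) : ℝ :=
  ∑ p ∈ Finset.HasAntidiagonal.antidiagonal n, if Even p.1 then v p.2 else 0

theorem Pa_succ (v : ℕ → ℝ) (n : ℕ) : Pa v (n + 2) = Pa v n + v (n + 2) := by
  unfold Pa
  rw [Finset.Nat.sum_antidiagonal_succ, Finset.Nat.sum_antidiagonal_succ]
  have h1 : (if Even (0, n + 1 + 1).1 then v (0, n + 1 + 1).2 else 0) = v (n + 2) := by
    simp
  have h2 : (if Even ((0, n + 1).1 + 1, (0, n + 1).2).1 then v ((0, n + 1).1 + 1, (0, n + 1).2).2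
      else 0) = 0 := by
    simp
  have h3 : ∀ p : ℕ × ℕ, (if Even ((p.1 + 1, p.2).1 + 1, (p.1 + 1, p.2).2).1 then
      v ((p.1 + 1, p.2).1 + 1, (p.1 + 1, p.2).2).2 else 0) = if Even p.1 then v p.2 else 0 := by
    intro p
    have : Even (p.1 + 1 + 1) ↔ Even p.1 := by
      rw [Nat.even_iff, Nat.even_iff]; omega
    simp only [this]
  rw [h1, h2]
  simp only [h3]
  ring

/-- the weights -/
noncomputable def wt (j : ℕ) : ℝ := if 3 ≤ j then (j : ℝ) - 1 else 0

theorem wt_nn (j : ℕ) : 0 ≤ wt j := by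
  unfold wt
  split_ifs with h
  · have : (3 : ℝ) ≤ j := by exact_mod_cast h
    linarith
  · exact le_rfl

noncomputable def tt (b : ℕ → ℂ) (j : ℕ) : ℝ := wt j * ‖b (j - 1)‖ ^ 2

theorem Pa_wt_odd (m : ℕ) : Pa wt (2 * m + 3) = ((m : ℝ) + 1) * (m + 2) := by
  induction m with
  | zero =>
    unfold Pa
    rw [Finset.Nat.sum_antidiagonal_eq_sum_range_succ_mk]
    simp only [Finset.sum_range_succ, Finset.sum_range_zero, wt]
    norm_num [Nat.even_iff]
  | succ m ih =>
    rw [show 2 * (m + 1) + 3 = 2 * m + 3 + 2 by ring, Pa_succ, ih]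
    unfold wt
    rw [if_pos (by omega)]
    push_cast
    ring

theorem Pa_wt_even (m : ℕ) : Pa wt (2 * m + 4) = ((m : ℝ) + 1) * (m + 3) := by
  induction m with
  | zero =>
    unfold Pa
    rw [Finset.Nat.sum_antidiagonal_eq_sum_range_succ_mk]
    simp only [Finset.sum_range_succ, Finset.sum_range_zero, wt]
    norm_num [Nat.even_iff]
  | succ m ih =>
    rw [show 2 * (m + 1) + 4 = 2 * m + 4 + 2 by ring, Pa_succ, ih]
    unfold wt
    rw [if_pos (by omega)]
    push_cast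
    ring

theorem Pa_nn {v : ℕ → ℝ} (hv : ∀ j, 0 ≤ v j) (n : ℕ) : 0 ≤ Pa v n := by
  unfold Pa
  refine Finset.sum_nonneg fun p _ => ?_
  split_ifs
  · exact hv _
  · exact le_rfl

theorem tt_nn (j : ℕ) : 0 ≤ tt b j := mul_nonneg (wt_nn j) (sq_nonneg _)

theorem Pa_tt (m : ℕ) : Pa (tt b) (2 * m + 3) + Pa (tt b) (2 * m + 4) =
    ∑ k ∈ Finset.range (2 * m + 2), ((k : ℝ) + 2) * ‖b (k + 2)‖ ^ 2 := by
  induction m with
  | zero =>
    unfold Pa
    rw [Finset.Nat.sum_antidiagonal_eq_sum_range_succ_mk,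
      Finset.Nat.sum_antidiagonal_eq_sum_range_succ_mk]
    simp only [Finset.sum_range_succ, Finset.sum_range_zero, wt, tt]
    norm_num [Nat.even_iff]
  | succ m ih =>
    rw [show 2 * (m + 1) + 3 = 2 * m + 3 + 2 by ring, show 2 * (m + 1) + 4 = 2 * m + 4 + 2 by ring,
      Pa_succ _ (2 * m + 3), Pa_succ _ (2 * m + 4),
      show 2 * (m + 1) + 2 = 2 * m + 2 + 1 + 1 by ring, Finset.sum_range_succ,
      Finset.sum_range_succ, ← ih]
    have e1 : tt b (2 * m + 3 + 2) = (2 * (m : ℝ) + 4) * ‖b (2 * m + 2 + 2)‖ ^ 2 := by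
      unfold tt wt
      rw [if_pos (by omega), show 2 * m + 3 + 2 - 1 = 2 * m + 2 + 2 by omega]
      push_cast
      ring
    have e2 : tt b (2 * m + 4 + 2) = (2 * (m : ℝ) + 5) * ‖b (2 * m + 2 + 1 + 2)‖ ^ 2 := by
      unfold tt wt
      rw [if_pos (by omega), show 2 * m + 4 + 2 - 1 = 2 * m + 2 + 1 + 2 by omega]
      push_cast
      ring
    rw [e1, e2]
    push_cast
    ring

/-- Cauchy's inequality for one coefficient -/
theorem coef_sq_le (h : Nrm F b β) {k : ℝ} (hk : 0 ≤ k) (hk1 : k ≤ 1) (n : ℕ) :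
    ‖PowerSeries.coeff n (evS (sg k) β * eD b)‖ ^ 2 ≤ Pa wt n * Pa (tt b) n := by
  have hβ := h.beta_le
  have h0 := h.nn
  have h1 : ‖PowerSeries.coeff n (evS (sg k) β * eD b)‖ ≤
      ∑ p ∈ Finset.HasAntidiagonal.antidiagonal n,
        if Even p.1 then ‖PowerSeries.coeff p.2 (eD b)‖ else 0 := by
    rw [PowerSeries.coeff_mul]
    refine (norm_sum_le _ _).trans (Finset.sum_le_sum fun p _ => ?_)
    rw [norm_mul]
    by_cases he : Even p.1
    · rw [if_pos he]
      obtain ⟨i, hi⟩ := he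
      rw [hi, ← two_mul, coeff_evS_even, norm_real, Real.norm_eq_abs,
        abs_of_nonneg (mul_nonneg (sg_nonneg hk1 i) (by positivity))]
      have h2 : sg k i * β ^ i ≤ 1 := by
        calc sg k i * β ^ i ≤ 1 * 1 :=
              mul_le_mul (sg_le hk hk1 i) (pow_le_one₀ h0 hβ) (by positivity) (by norm_num)
          _ = 1 := one_mul 1
      calc sg k i * β ^ i * ‖PowerSeries.coeff p.2 (eD b)‖ ≤
          1 * ‖PowerSeries.coeff p.2 (eD b)‖ := mul_le_mul_of_nonneg_right h2 (norm_nonneg _)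
        _ = _ := one_mul _
    · rw [if_neg he, coeff_evS_odd _ _ he, norm_zero, zero_mul]
  have h2 := pow_le_pow_left₀ (norm_nonneg _) h1 2
  refine h2.trans ?_
  unfold Pa
  refine Finset.sum_sq_le_sum_mul_sum_of_sq_eq_mul _ (fun p _ => ?_) (fun p _ => ?_)
    (fun p _ => ?_)
  · split_ifs
    · exact wt_nn _
    · exact le_rfl
  · split_ifs
    · exact tt_nn _
    · exact le_rfl
  · by_cases he : Even p.1
    · rw [if_pos he, if_pos he, if_pos he]
      by_cases hj : 3 ≤ p.2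
      · obtain ⟨i, hi⟩ : ∃ i, p.2 = i + 3 := ⟨p.2 - 3, by omega⟩
        rw [hi, eD_big]
        unfold tt wt
        rw [if_pos (by omega), norm_mul, Complex.norm_natCast, show i + 3 - 1 = i + 2 by omega]
        push_cast
        ring
      · rw [eD_small (by omega)]
        unfold tt wt
        rw [if_neg hj]
        simp
    · rw [if_neg he, if_neg he, if_neg he]
      simp

theorem poly_le_pow (m : ℕ) : ((m : ℝ) + 1) * (m + 2) ≤ 2 * 3 ^ m := by
  induction m with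
  | zero => norm_num
  | succ m ih =>
    rw [pow_succ (3 : ℝ)]
    push_cast
    have : (0 : ℝ) ≤ m := by positivity
    nlinarith

/-- the quadratic part -/
theorem int_We (h : Nrm F b β) {k : ℝ} (hk : 0 ≤ k) (hk1 : k ≤ 1) {x : ℝ} (hx0 : 0 ≤ x)
    (hx : x ≤ 1 / 2) :
    ∫ t in (-π)..π, ‖(1 + -(β * (x * ec t) ^ 2)) ^ ((k - 1 : ℝ) : ℂ) * EE b β (x * ec t)‖ ^ 2 ≤
      2 * π * (32 / 13 * x ^ 6 * (1 - β ^ 2)) := by
  have hpi := Real.pi_pos
  have hβ := h.beta_le
  have h0 := h.nn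
  have hx1 : x < 1 := by linarith
  have hrW := (rep_WD k h0 hβ).mul (show Rep (eD b) (EE b β) from h.rep_EE)
  have h1 := hrW.parseval_self hx0 hx1
  set I := ∫ t in (-π)..π,
    ‖(1 + -(β * (x * ec t) ^ 2)) ^ ((k - 1 : ℝ) : ℂ) * EE b β (x * ec t)‖ ^ 2 with hI
  set f : ℕ → ℝ := fun j => 2 * π *
    ‖PowerSeries.coeff j (evS (sg k) β * eD b)‖ ^ 2 * x ^ (2 * j) with hf
  have h1' : HasSum f I := h1
  have hf0 : ∀ j : ℕ, j < 3 → f j = 0 := by
    intro j hj
    have : PowerSeries.coeff j (evS (sg k) β * eD b) = 0 := by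
      rw [PowerSeries.coeff_mul]
      refine Finset.sum_eq_zero fun p hp => ?_
      rw [Finset.HasAntidiagonal.mem_antidiagonal] at hp
      rw [eD_small (by omega), mul_zero]
    simp only [hf, this]
    simp
  have h2 := (hasSum_nat_add_iff' 3).2 h1'
  rw [Finset.sum_range_succ, Finset.sum_range_succ, Finset.sum_range_succ, Finset.sum_range_zero,
    hf0 0 (by norm_num), hf0 1 (by norm_num), hf0 2 (by norm_num)] at h2
  simp only [add_zero, sub_zero] at h2
  -- pairs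
  have he : Summable fun m : ℕ => f (2 * m + 3) :=
    h2.summable.comp_injective (i := fun m : ℕ => 2 * m) (fun a b hab => by simpa using hab)
  have ho : Summable fun m : ℕ => f (2 * m + 1 + 3) :=
    h2.summable.comp_injective (i := fun m : ℕ => 2 * m + 1) (fun a b hab => by simpa using hab)
  have hs := HasSum.even_add_odd (f := fun j => f (j + 3)) he.hasSum ho.hasSum
  have hE := h2.unique hs
  have hpair := he.hasSum.add ho.hasSum
  rw [← hE] at hpair
  have hg : HasSum (fun m : ℕ => 4 * π * x ^ 6 * (1 - β ^ 2) * (3 / 16 : ℝ) ^ m)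
      (4 * π * x ^ 6 * (1 - β ^ 2) * (1 - 3 / 16)⁻¹) :=
    (hasSum_geometric_of_lt_one (by norm_num) (by norm_num)).mul_left _
  have h3 := hasSum_le (fun m => by
    simp only [hf]
    have c1 := coef_sq_le h hk hk1 (2 * m + 3)
    have c2 := coef_sq_le h hk hk1 (2 * m + 4)
    rw [Pa_wt_odd] at c1
    rw [Pa_wt_even] at c2
    have t1 : 0 ≤ Pa (tt b) (2 * m + 3) := Pa_nn tt_nn _
    have t2 : 0 ≤ Pa (tt b) (2 * m + 4) := Pa_nn tt_nn _
    have t3 := Pa_tt (b := b) m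
    have t4 := h.area2 (2 * m + 2)
    set A := ((m : ℝ) + 1) * (m + 2) with hA
    have hA0 : 0 ≤ A := by positivity
    have hA1 : A ≤ 2 * 3 ^ m := poly_le_pow m
    have i6 : x ^ (2 * (2 * m + 3)) = x ^ 6 * (x ^ 4) ^ m := by
      rw [← pow_mul, ← pow_add]; congr 1; ring
    have i7 : x ^ (2 * (2 * m + 1 + 3)) = x ^ 2 * (x ^ 6 * (x ^ 4) ^ m) := by
      rw [← pow_mul, ← pow_add, ← pow_add]; congr 1; ring
    have i8 : x ^ 4 ≤ 1 / 16 := by
      calc x ^ 4 ≤ (1 / 2) ^ 4 := pow_le_pow_left₀ hx0 hx 4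
        _ = 1 / 16 := by norm_num
    have i9 : (x ^ 4) ^ m ≤ (1 / 16 : ℝ) ^ m := pow_le_pow_left₀ (by positivity) i8 m
    have i10 : x ^ 2 ≤ 1 / 4 := by nlinarith
    set X := x ^ 6 * (x ^ 4) ^ m with hX
    have hX0 : 0 ≤ X := by positivity
    have hX1 : X ≤ x ^ 6 * (1 / 16 : ℝ) ^ m := mul_le_mul_of_nonneg_left i9 (by positivity)
    have c3 : ‖PowerSeries.coeff (2 * m + 1 + 3) (evS (sg k) β * eD b)‖ ^ 2 ≤
        4 * A * Pa (tt b) (2 * m + 4) := by
      rw [show 2 * m + 1 + 3 = 2 * m + 4 by ring]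
      refine c2.trans (mul_le_mul_of_nonneg_right ?_ t2)
      rw [hA]
      have : (0 : ℝ) ≤ m := by positivity
      nlinarith
    rw [i6, i7]
    have d1 : 2 * π * ‖PowerSeries.coeff (2 * m + 3) (evS (sg k) β * eD b)‖ ^ 2 * X ≤
        2 * π * (A * Pa (tt b) (2 * m + 3)) * X :=
      mul_le_mul_of_nonneg_right (mul_le_mul_of_nonneg_left c1 (by positivity)) hX0
    have d2 : 2 * π * ‖PowerSeries.coeff (2 * m + 1 + 3) (evS (sg k) β * eD b)‖ ^ 2 *
        (x ^ 2 * X) ≤ 2 * π * (4 * A * Pa (tt b) (2 * m + 4)) * (1 / 4 * X) :=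
      mul_le_mul (mul_le_mul_of_nonneg_left c3 (by positivity))
        (mul_le_mul_of_nonneg_right i10 hX0) (by positivity) (by positivity)
    have d3 : 2 * π * A * (Pa (tt b) (2 * m + 3) + Pa (tt b) (2 * m + 4)) * X ≤
        2 * π * (2 * 3 ^ m) * (1 - β ^ 2) * (x ^ 6 * (1 / 16 : ℝ) ^ m) := by
      rw [t3]
      have e0 : 0 ≤ ∑ k ∈ Finset.range (2 * m + 2), ((k : ℝ) + 2) * ‖b (k + 2)‖ ^ 2 :=
        Finset.sum_nonneg fun k _ => by positivity
      refine mul_le_mul (mul_le_mul (mul_le_mul_of_nonneg_left hA1 (by positivity)) t4 e0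
        (by positivity)) hX1 hX0 ?_
      exact mul_nonneg (by positivity) h.del_nonneg
    calc _ ≤ 2 * π * (A * Pa (tt b) (2 * m + 3)) * X +
          2 * π * (4 * A * Pa (tt b) (2 * m + 4)) * (1 / 4 * X) := add_le_add d1 d2
      _ = 2 * π * A * (Pa (tt b) (2 * m + 3) + Pa (tt b) (2 * m + 4)) * X := by ring
      _ ≤ _ := d3
      _ = 4 * π * x ^ 6 * (1 - β ^ 2) * (3 ^ m * (1 / 16 : ℝ) ^ m) := by ring
      _ = 4 * π * x ^ 6 * (1 - β ^ 2) * (3 / 16 : ℝ) ^ m := by
          rw [← mul_pow]; norm_num) hpair hg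
  refine h3.trans (le_of_eq ?_)
  norm_num
  ring

end Pool.Agent.H93.MR
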