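import Pool.Agent.H93.MR.Rb
import Pool.Agent.H46.RD.Cb

/-!
# The upper bound for `Re b_5`

`Re b_5 <= (25/4) (1 - Re b_1)`: as in `Rb`, with `- sin 5 t <= (5/4) sin t`.
-/

open Complex MeasureTheory Set Filter Topology
open scoped ComplexConjugate Real

namespace Pool.Agent.H93.MR

open Pool.Agent.H36.SZ Pool.Agent.H15.Sig

theorem sin_five (x : ℝ) :
    Real.sin (5 * x) = Real.sin x * (16 * Real.cos x ^ 4 - 12 * Real.cos x ^ 2 + 1) := by
  have e : 5 * x = 2 * x + 3 * x := by ring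
  rw [e, Real.sin_add, Real.sin_two_mul, Real.cos_three_mul, Real.cos_two_mul, Real.sin_three_mul]
  have h := Real.sin_sq_add_cos_sq x
  have h2 : Real.sin x ^ 2 = 1 - Real.cos x ^ 2 := by linarith
  have h3 : Real.sin x ^ 3 = Real.sin x * (1 - Real.cos x ^ 2) := by rw [← h2]; ring
  rw [h3]
  ring

theorem neg_sin_five {x : ℝ} (h : 0 ≤ Real.sin x) :
    -(5 / 4 * Real.sin x) ≤ Real.sin (5 * x) := by
  rw [sin_five]
  have i1 := mul_nonneg h (sq_nonneg (4 * Real.cos x ^ 2 - 3 / 2))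
  nlinarith

theorem Sg_re5 {F : ℂ → ℂ} {b : ℕ → ℂ} {q : ℝ} (h : Sg F b q) :
    (b 5).re ≤ 25 / 4 * (1 - (b 1).re) := by
  have hpi := Real.pi_pos
  have h1 := h.hb_sin (m := 1) le_rfl
  have h2 := h.hb_sin (m := 5) (by omega)
  have hc := h.hb_cont
  rw [if_neg (by omega), zero_sub] at h2
  rw [if_pos rfl] at h1
  have h3 : ∫ β in (0 : ℝ)..π, -(5 / 4) * (hb b β * Real.sin ((1 : ℕ) * β)) ≤
      ∫ β in (0 : ℝ)..π, hb b β * Real.sin ((5 : ℕ) * β) := by
    refine intervalIntegral.integral_mono_on hpi.le ?_ ?_ ?_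
    · exact (continuous_const.mul (hc.mul (by fun_prop))).intervalIntegrable _ _
    · exact (hc.mul (by fun_prop)).intervalIntegrable _ _
    · intro β hβ
      have h4 := h.hb_nonneg hβ.1 hβ.2
      have h6 : 0 ≤ Real.sin β := Real.sin_nonneg_of_nonneg_of_le_pi hβ.1 hβ.2
      have h5 := neg_sin_five h6
      rw [Nat.cast_one, one_mul]
      have h7 := mul_le_mul_of_nonneg_left h5 h4
      push_cast
      linarith
  rw [intervalIntegral.integral_const_mul, h1, h2] at h3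
  push_cast at h3
  have h7 : π / 2 * ((b 5).re / 5) ≤ π / 2 * (5 / 4 * (1 - (b 1).re)) := by
    linarith
  have h8 := le_of_mul_le_mul_left h7 (by positivity)
  linarith

theorem re5 {F : ℂ → ℂ} {b : ℕ → ℂ} (h : IsSig F b) :
    (b 5).re ≤ 25 / 4 * (1 - (b 1).re) := by
  have hev : ∀ᶠ p : ℝ in 𝓝[>] 1, (b 5 * ((p : ℂ)⁻¹) ^ (5 + 1)).re ≤
      25 / 4 * (1 - (b 1 * ((p : ℂ)⁻¹) ^ (1 + 1)).re) := by
    filter_upwards [self_mem_nhdsWithin] with p hp
    exact Sg_re5 (dil h hp)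
  have hc : ∀ k : ℕ, Tendsto (fun p : ℝ => (b k * ((p : ℂ)⁻¹) ^ (k + 1)).re) (𝓝[>] 1)
      (𝓝 (b k).re) := by
    intro k
    have h1 : ContinuousAt (fun p : ℝ => (b k * ((p : ℂ)⁻¹) ^ (k + 1)).re) 1 := by
      have h2 : ContinuousAt (fun p : ℝ => ((p : ℂ)⁻¹)) 1 :=
        (Complex.continuous_ofReal.continuousAt).inv₀ (by simp)
      exact Complex.continuous_re.continuousAt.comp (continuousAt_const.mul (h2.pow (k + 1)))
    have h3 := h1.tendsto
    simp only [ofReal_one, inv_one, one_pow, mul_one] at h3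
    exact h3.mono_left nhdsWithin_le_nhds
  have h2 : Tendsto (fun p : ℝ => 25 / 4 * (1 - (b 1 * ((p : ℂ)⁻¹) ^ (1 + 1)).re)) (𝓝[>] 1)
      (𝓝 (25 / 4 * (1 - (b 1).re))) := (tendsto_const_nhds.sub (hc 1)).const_mul _
  exact le_of_tendsto_of_tendsto (hc 5) h2 hev

end Pool.Agent.H93.MR
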