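import Pool.Agent.H93.MR.Dc
import Pool.Agent.H93.MR.Rc

/-!
# The derivative, orders at most two: the linear part
-/

open Complex Set Filter Topology MeasureTheory
open scoped ComplexConjugate Real

namespace Pool.Agent.H93.MR

open Pool.Agent.H15.Sig Pool.Agent.H15.DP

variable {F : ℂ → ℂ} {b : ℕ → ℂ} {β : ℝ}

/-- the power series of the remainder -/
noncomputable def eD (b : ℕ → ℂ) : PowerSeries ℂ := PowerSeries.mk (e3 b)

theorem eD_small {j : ℕ} (hj : j ≤ 2) : PowerSeries.coeff j (eD b) = 0 := by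
  unfold eD
  rw [PowerSeries.coeff_mk]
  interval_cases j <;> simp [e3]

theorem eD_big (j : ℕ) :
    PowerSeries.coeff (j + 3) (eD b) = ((j + 2 : ℕ) : ℂ) * b (j + 2) := by
  unfold eD
  rw [PowerSeries.coeff_mk]
  simp [e3]

theorem eD_re (h : Nrm F b β) {j : ℕ} (hj : 3 ≤ j) :
    |(PowerSeries.coeff j (eD b)).re| ≤ ((j : ℝ) - 1) ^ 3 * (1 - β) := by
  obtain ⟨i, rfl⟩ : ∃ i, j = i + 3 := ⟨j - 3, by omega⟩
  rw [eD_big]
  have h1 := re_le h.sig (n := i + 2) (by omega)
  rw [h.b1, ofReal_re] at h1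
  have e : (((i + 2 : ℕ) : ℂ) * b (i + 2)).re = ((i : ℝ) + 2) * (b (i + 2)).re := by
    have : (((i + 2 : ℕ) : ℂ)) = (((i : ℝ) + 2 : ℝ) : ℂ) := by push_cast; ring
    rw [this, re_ofReal_mul]
  rw [e, abs_mul, abs_of_nonneg (by positivity : (0:ℝ) ≤ (i : ℝ) + 2)]
  push_cast at h1 ⊢
  have h2 := mul_le_mul_of_nonneg_left h1 (by positivity : (0:ℝ) ≤ (i : ℝ) + 2)
  calc ((i : ℝ) + 2) * |(b (i + 2)).re| ≤ ((i : ℝ) + 2) * (((i : ℝ) + 2) ^ 2 * (1 - β)) := h2
    _ = _ := by ring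

private noncomputable def fc (j : ℕ) : ℝ := if Even j ∧ 4 ≤ j then ((j : ℝ) - 1) ^ 3 else 0

private theorem fc_nn (j : ℕ) : 0 ≤ fc j := by
  unfold fc
  split_ifs with hj
  · have : (4 : ℝ) ≤ j := by exact_mod_cast hj.2
    have : (0 : ℝ) ≤ (j : ℝ) - 1 := by linarith
    positivity
  · exact le_rfl

private noncomputable def cu (m : ℕ) : ℝ := ((m : ℝ) + 2) ^ 2 * (2 * ((m : ℝ) + 2) ^ 2 - 1) - 1

private theorem sum_fc (m : ℕ) : ∑ j ∈ Finset.range (2 * m + 5), fc j = cu m := by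
  induction m with
  | zero =>
    simp only [Finset.sum_range_succ, Finset.sum_range_zero, fc, cu]
    norm_num [Nat.even_iff]
  | succ m ih =>
    rw [show 2 * (m + 1) + 5 = 2 * m + 5 + 1 + 1 by ring, Finset.sum_range_succ,
      Finset.sum_range_succ, ih]
    have h1 : fc (2 * m + 5) = 0 := by
      unfold fc
      rw [if_neg]
      rintro ⟨h, _⟩
      rw [Nat.even_iff] at h
      omega
    have h2 : fc (2 * m + 5 + 1) = (2 * (m : ℝ) + 5) ^ 3 := by
      unfold fc
      rw [if_pos ⟨by rw [Nat.even_iff]; omega, by omega⟩]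
      push_cast
      ring
    rw [h1, h2]
    unfold cu
    push_cast
    ring

private theorem cu_le (m : ℕ) : cu (m + 2) ≤ 495 * (5 / 2) ^ m := by
  induction m with
  | zero => unfold cu; norm_num
  | succ m ih =>
    have hm : (0 : ℝ) ≤ m := by positivity
    have h1 : cu (m + 1 + 2) ≤ 5 / 2 * cu (m + 2) := by
      unfold cu
      push_cast
      have h2 : 0 ≤ 3 * (m : ℝ) ^ 4 := by positivity
      have h3 : 0 ≤ 40 * (m : ℝ) ^ 3 := by positivity
      have h4 : 0 ≤ (m : ℝ) ^ 2 := by positivity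
      nlinarith
    rw [pow_succ (5 / 2 : ℝ)]
    linarith

/-- the coefficients of `(1 - β u^2)^(k-1) EE` -/
theorem coefD_le (h : Nrm F b β) {k : ℝ} (hk : 0 ≤ k) (hk1 : k ≤ 1) (m : ℕ) :
    |(PowerSeries.coeff (2 * m + 4) (evS (sg k) β * eD b)).re| ≤ (1 - β) * cu m := by
  have hβ := h.beta_le
  have h0 := h.nn
  rw [PowerSeries.coeff_mul, re_sum]
  have h1 : ∀ p ∈ Finset.HasAntidiagonal.antidiagonal (2 * m + 4),
      |(PowerSeries.coeff p.1 (evS (sg k) β) * PowerSeries.coeff p.2 (eD b)).re| ≤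
        (1 - β) * fc p.2 := by
    intro p hp
    rw [Finset.HasAntidiagonal.mem_antidiagonal] at hp
    by_cases he : Even p.1
    · obtain ⟨i, hi⟩ := he
      rw [hi, ← two_mul, coeff_evS_even, re_ofReal_mul, abs_mul]
      have h2 : |sg k i * β ^ i| ≤ 1 := by
        rw [abs_of_nonneg (mul_nonneg (sg_nonneg hk1 i) (by positivity))]
        calc sg k i * β ^ i ≤ 1 * 1 :=
              mul_le_mul (sg_le hk hk1 i) (pow_le_one₀ h0 hβ) (by positivity) (by norm_num)
          _ = 1 := one_mul 1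
      by_cases hj : p.2 ≤ 2
      · rw [eD_small hj, zero_re, abs_zero, mul_zero]
        exact mul_nonneg (by linarith) (fc_nn _)
      · have h5 := eD_re h (j := p.2) (by omega)
        have h6 : fc p.2 = ((p.2 : ℝ) - 1) ^ 3 := by
          unfold fc
          rw [if_pos ⟨by rw [Nat.even_iff]; omega, by omega⟩]
        rw [h6]
        calc |sg k i * β ^ i| * |(PowerSeries.coeff p.2 (eD b)).re| ≤
            1 * (((p.2 : ℝ) - 1) ^ 3 * (1 - β)) := mul_le_mul h2 h5 (abs_nonneg _) (by norm_num)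
          _ = _ := by ring
    · rw [coeff_evS_odd _ _ he, zero_mul, zero_re, abs_zero]
      exact mul_nonneg (by linarith) (fc_nn _)
  refine (Finset.abs_sum_le_sum_abs _ _).trans ((Finset.sum_le_sum h1).trans ?_)
  rw [← Finset.mul_sum]
  have h2 : ∑ p ∈ Finset.HasAntidiagonal.antidiagonal (2 * m + 4), fc p.2 =
      ∑ j ∈ Finset.range (2 * m + 5), fc j := by
    rw [← Finset.Nat.sum_antidiagonal_swap]
    simp only [Prod.snd_swap]
    rw [Finset.Nat.sum_antidiagonal_eq_sum_range_succ_mk]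
  rw [h2, sum_fc]

theorem coefD4 (h : Nrm F b β) (k : ℝ) :
    (PowerSeries.coeff 4 (evS (sg k) β * eD b)).re ≤ 3 / 2 * (1 - β ^ 2) := by
  have e : PowerSeries.coeff 4 (evS (sg k) β * eD b) = 3 * b 3 := by
    rw [PowerSeries.coeff_mul, Finset.Nat.sum_antidiagonal_eq_sum_range_succ_mk]
    simp only [Finset.sum_range_succ, Finset.sum_range_zero]
    simp [evS, eD, e3, sg_zero, Nat.even_iff]
  rw [e]
  have h1 := Pool.Agent.H46.RD.IsSig.re_b3 h.sig h.b1
  have e2 : (3 * b 3).re = 3 * (b 3).re := by simp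
  rw [e2]
  linarith

theorem coefD6 (h : Nrm F b β) {k : ℝ} (hk : 0 ≤ k) (hk1 : k ≤ 1) :
    (PowerSeries.coeff 6 (evS (sg k) β * eD b)).re ≤
      125 / 4 * (1 - β) + 3 / 2 * (1 - β ^ 2) := by
  have hβ := h.beta_le
  have h0 := h.nn
  have e : PowerSeries.coeff 6 (evS (sg k) β * eD b) =
      5 * b 5 + ((sg k 1 * β : ℝ) : ℂ) * (3 * b 3) := by
    rw [PowerSeries.coeff_mul, Finset.Nat.sum_antidiagonal_eq_sum_range_succ_mk]
    simp only [Finset.sum_range_succ, Finset.sum_range_zero]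
    simp [evS, eD, e3, sg_zero, Nat.even_iff]
  rw [e, add_re, re_ofReal_mul]
  have h1 := Pool.Agent.H46.RD.IsSig.re_b3 h.sig h.b1
  have h2 := re5 h.sig
  rw [h.b1, ofReal_re] at h2
  have e2 : (3 * b 3).re = 3 * (b 3).re := by simp
  have e3 : (5 * b 5).re = 5 * (b 5).re := by simp
  rw [e2, e3]
  have h3 : 0 ≤ sg k 1 * β := mul_nonneg (sg_nonneg hk1 1) h0
  have h4 : sg k 1 * β ≤ 1 := by
    calc sg k 1 * β ≤ 1 * 1 := mul_le_mul (sg_le hk hk1 1) hβ h0 (by norm_num)
      _ = 1 := one_mul 1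
  have h5 : sg k 1 * β * (3 * (b 3).re) ≤ sg k 1 * β * (3 / 2 * (1 - β ^ 2)) :=
    mul_le_mul_of_nonneg_left (by linarith) h3
  have h6 : sg k 1 * β * (3 / 2 * (1 - β ^ 2)) ≤ 1 * (3 / 2 * (1 - β ^ 2)) :=
    mul_le_mul_of_nonneg_right h4 (mul_nonneg (by norm_num) h.del_nonneg)
  linarith

/-- the linear part -/
theorem linD_le (h : Nrm F b β) {k : ℝ} (hk : 0 < k) (hk1 : k ≤ 1) {x : ℝ} (hx0 : 0 ≤ x)
    (hx : x ≤ 1 / 2) :
    (∫ t in (-π)..π, conj (-Lam k (-(β * (x * ec t) ^ 2))) *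
      ((1 + -(β * (x * ec t) ^ 2)) ^ ((k - 1 : ℝ) : ℂ) * EE b β (x * ec t))).re ≤
      2 * π * (1 / 2 * β ^ 2 * x ^ 8 * (3 / 2 * (1 - β ^ 2)) +
        1 / 3 * β ^ 3 * x ^ 12 * (125 / 4 * (1 - β) + 3 / 2 * (1 - β ^ 2)) +
        440 / 3 * β ^ 4 * x ^ 16 * (1 - β)) := by
  have hpi := Real.pi_pos
  have hβ := h.beta_le
  have h0 := h.nn
  have hx1 : x < 1 := by linarith
  have hrW := (rep_WD k h0 hβ).mul (show Rep (eD b) (EE b β) from h.rep_EE)
  have h1 := hasSum_re ((rep_PD hk h0 hβ).parseval hrW hx0 hx1)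
  have hinj : Function.Injective fun m : ℕ => 2 * m + 4 := fun a b hab => by
    simpa using hab
  rw [← hinj.hasSum_iff] at h1
  · set f : ℕ → ℝ := fun m => 2 * π * (al k (m + 2) * β ^ (m + 2)) * x ^ (4 * (m + 2)) *
      (PowerSeries.coeff (2 * m + 4) (evS (sg k) β * eD b)).re with hf
    have h2 : HasSum f (∫ t in (-π)..π, conj (-Lam k (-(β * (x * ec t) ^ 2))) *
      ((1 + -(β * (x * ec t) ^ 2)) ^ ((k - 1 : ℝ) : ℂ) * EE b β (x * ec t))).re := by
      refine h1.congr_fun ?_ |> fun h => h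
      intro m
      simp only [Function.comp, hf]
      have e0 : PowerSeries.coeff (2 * m + 4) (evS (al k) β) =
          ((al k (m + 2) * β ^ (m + 2) : ℝ) : ℂ) := by
        rw [show 2 * m + 4 = 2 * (m + 2) by ring, coeff_evS_even]
      rw [e0, conj_ofReal]
      have e2 : ((2 * π : ℂ) * ((((al k (m + 2) * β ^ (m + 2) : ℝ)) : ℂ) *
          PowerSeries.coeff (2 * m + 4) (evS (sg k) β * eD b)) * x ^ (2 * (2 * m + 4))) =
          ((2 * π * (al k (m + 2) * β ^ (m + 2)) * x ^ (4 * (m + 2)) : ℝ) : ℂ) *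
            PowerSeries.coeff (2 * m + 4) (evS (sg k) β * eD b) := by
        rw [show 2 * (2 * m + 4) = 4 * (m + 2) by ring]
        push_cast
        ring
      rw [e2, re_ofReal_mul]
    have h3 := (hasSum_nat_add_iff' 2).2 h2
    have hg : HasSum (fun m : ℕ => 2 * π * (495 / 4) * β ^ 4 * x ^ 16 * (1 - β) *
        (5 / 32 : ℝ) ^ m) (2 * π * (495 / 4) * β ^ 4 * x ^ 16 * (1 - β) * (1 - 5 / 32)⁻¹) :=
      (hasSum_geometric_of_lt_one (by norm_num) (by norm_num)).mul_left _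
    have h4 := hasSum_le (fun m => by
      simp only [hf]
      have i1 := coefD_le h hk.le hk1 (m + 2)
      have i2 := cu_le m
      have i3 : al k (m + 2 + 2) ≤ 1 / 4 := by
        have j1 := al_le hk.le hk1 (m + 3)
        rw [show m + 3 + 1 = m + 2 + 2 by ring] at j1
        refine j1.trans ?_
        push_cast
        rw [div_le_div_iff₀ (by positivity) (by norm_num)]
        have : (0 : ℝ) ≤ m := by positivity
        linarith
      have i4 : 0 ≤ al k (m + 2 + 2) := al_nonneg hk1 _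
      have i5 : β ^ (m + 2 + 2) ≤ β ^ 4 := pow_le_pow_of_le_one h0 hβ (by omega)
      have i6 : x ^ (4 * (m + 2 + 2)) = x ^ 16 * (x ^ 4) ^ m := by
        rw [← pow_mul, ← pow_add]; congr 1; ring
      have i7 : x ^ 4 ≤ 1 / 16 := by
        calc x ^ 4 ≤ (1 / 2) ^ 4 := pow_le_pow_left₀ hx0 hx 4
          _ = 1 / 16 := by norm_num
      have i8 : (x ^ 4) ^ m ≤ (1 / 16 : ℝ) ^ m := pow_le_pow_left₀ (by positivity) i7 m
      have i9 : (PowerSeries.coeff (2 * (m + 2) + 4) (evS (sg k) β * eD b)).re ≤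
          (1 - β) * (495 * (5 / 2) ^ m) :=
        (le_abs_self _).trans (i1.trans (mul_le_mul_of_nonneg_left i2 (by linarith)))
      have j0 : 0 ≤ 2 * π * (al k (m + 2 + 2) * β ^ (m + 2 + 2)) * x ^ (4 * (m + 2 + 2)) := by
        positivity
      have j1 : 2 * π * (al k (m + 2 + 2) * β ^ (m + 2 + 2)) * x ^ (4 * (m + 2 + 2)) ≤
          2 * π * (1 / 4 * β ^ 4) * (x ^ 16 * (1 / 16 : ℝ) ^ m) := by
        rw [i6]
        refine mul_le_mul (mul_le_mul_of_nonneg_left
          (mul_le_mul i3 i5 (by positivity) (by norm_num)) (by positivity))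
          (mul_le_mul_of_nonneg_left i8 (by positivity)) (by positivity) (by positivity)
      calc _ ≤ 2 * π * (al k (m + 2 + 2) * β ^ (m + 2 + 2)) * x ^ (4 * (m + 2 + 2)) *
            ((1 - β) * (495 * (5 / 2) ^ m)) := mul_le_mul_of_nonneg_left i9 j0
        _ ≤ 2 * π * (1 / 4 * β ^ 4) * (x ^ 16 * (1 / 16 : ℝ) ^ m) *
            ((1 - β) * (495 * (5 / 2) ^ m)) :=
              mul_le_mul_of_nonneg_right j1 (mul_nonneg (by linarith) (by positivity))
        _ = 2 * π * (495 / 4) * β ^ 4 * x ^ 16 * (1 - β) * ((1 / 16 : ℝ) ^ m * (5 / 2) ^ m) := by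
            ring
        _ = 2 * π * (495 / 4) * β ^ 4 * x ^ 16 * (1 - β) * (5 / 32 : ℝ) ^ m := by
            rw [← mul_pow]; norm_num) h3 hg
    rw [Finset.sum_range_succ, Finset.sum_range_succ, Finset.sum_range_zero, zero_add] at h4
    have k0 : f 0 ≤ 2 * π * (1 / 2 * β ^ 2 * x ^ 8 * (3 / 2 * (1 - β ^ 2))) := by
      simp only [hf]
      have i1 := coefD4 h k
      have i2 : al k (0 + 2) ≤ 1 / 2 := by
        have j1 := al_le hk.le hk1 1
        norm_num at j1
        exact j1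
      have i3 : 0 ≤ al k (0 + 2) := al_nonneg hk1 _
      have i4 : 0 ≤ 3 / 2 * (1 - β ^ 2) := mul_nonneg (by norm_num) h.del_nonneg
      have i5 : 2 * π * (al k (0 + 2) * β ^ (0 + 2)) * x ^ (4 * (0 + 2)) ≤
          2 * π * (1 / 2 * β ^ 2) * x ^ 8 := by
        refine mul_le_mul_of_nonneg_right (mul_le_mul_of_nonneg_left ?_ (by positivity))
          (by positivity)
        exact mul_le_mul_of_nonneg_right i2 (by positivity)
      calc _ ≤ 2 * π * (al k (0 + 2) * β ^ (0 + 2)) * x ^ (4 * (0 + 2)) *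
            (3 / 2 * (1 - β ^ 2)) := mul_le_mul_of_nonneg_left i1 (by positivity)
        _ ≤ 2 * π * (1 / 2 * β ^ 2) * x ^ 8 * (3 / 2 * (1 - β ^ 2)) :=
            mul_le_mul_of_nonneg_right i5 i4
        _ = _ := by ring
    have k1 : f 1 ≤ 2 * π * (1 / 3 * β ^ 3 * x ^ 12 *
        (125 / 4 * (1 - β) + 3 / 2 * (1 - β ^ 2))) := by
      simp only [hf]
      have i1 := coefD6 h hk.le hk1
      have i2 : al k (1 + 2) ≤ 1 / 3 := by
        have j1 := al_le hk.le hk1 2
        norm_num at j1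
        exact j1
      have i3 : 0 ≤ al k (1 + 2) := al_nonneg hk1 _
      have i4 : 0 ≤ 125 / 4 * (1 - β) + 3 / 2 * (1 - β ^ 2) := by
        have := h.del_nonneg
        linarith
      have i5 : 2 * π * (al k (1 + 2) * β ^ (1 + 2)) * x ^ (4 * (1 + 2)) ≤
          2 * π * (1 / 3 * β ^ 3) * x ^ 12 := by
        refine mul_le_mul_of_nonneg_right (mul_le_mul_of_nonneg_left ?_ (by positivity))
          (by positivity)
        exact mul_le_mul_of_nonneg_right i2 (by positivity)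
      calc _ ≤ 2 * π * (al k (1 + 2) * β ^ (1 + 2)) * x ^ (4 * (1 + 2)) *
            (125 / 4 * (1 - β) + 3 / 2 * (1 - β ^ 2)) := mul_le_mul_of_nonneg_left i1 (by positivity)
        _ ≤ 2 * π * (1 / 3 * β ^ 3) * x ^ 12 * (125 / 4 * (1 - β) + 3 / 2 * (1 - β ^ 2)) :=
            mul_le_mul_of_nonneg_right i5 i4
        _ = _ := by ring
    have k2 : 2 * π * (495 / 4) * β ^ 4 * x ^ 16 * (1 - β) * (1 - 5 / 32)⁻¹ =
        2 * π * (440 / 3 * β ^ 4 * x ^ 16 * (1 - β)) := by
      norm_num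
      ring
    rw [k2] at h4
    linarith
  · intro j hj
    have hz : conj (PowerSeries.coeff j (evS (al k) β)) *
        PowerSeries.coeff j (evS (sg k) β * eD b) = 0 := by
      by_cases he : Even j
      · obtain ⟨m, rfl⟩ := he
        have hm : m < 2 := by
          by_contra hm
          exact hj ⟨m - 2, by simp only; omega⟩
        interval_cases m
        · have : PowerSeries.coeff (0 + 0) (evS (al k) β) = 0 := by
            have := coeff_evS_even (al k) β 0
            simpa [al_zero] using this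
          rw [this, map_zero, zero_mul]
        · have : PowerSeries.coeff (1 + 1) (evS (sg k) β * eD b) = 0 := by
            rw [PowerSeries.coeff_mul]
            refine Finset.sum_eq_zero fun p hp => ?_
            rw [Finset.HasAntidiagonal.mem_antidiagonal] at hp
            rw [eD_small (by omega), mul_zero]
          rw [this, mul_zero]
      · rw [coeff_evS_odd _ _ he, map_zero, zero_mul]
    rw [hz, mul_zero, zero_mul]
    simp

end Pool.Agent.H93.MR
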