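import Pool.Agent.H93.MR.Dv
import Pool.Agent.H15.DP.Of

/-!
# The derivative, orders at most two, radii at least two

`int_D`: for `0 < k <= 1`, `0 < x <= 1/2`, the integral of `|F'(1/u)|^(2k)` over `|u| = x` is at most
that of `|1 - u^2|^(2k)` minus `(1/50) k^2 π (1 - β^2) x^4`.
-/

open Complex Set Filter Topology MeasureTheory
open scoped ComplexConjugate Real

namespace Pool.Agent.H93.MR

open Pool.Agent.H15.Sig Pool.Agent.H15.DP

variable {F : ℂ → ℂ} {b : ℕ → ℂ} {β : ℝ}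

/-- the arithmetic of the last step -/
theorem arith_D {β x : ℝ} (h0 : 0 ≤ β) (h1 : β ≤ 1) (hx0 : 0 ≤ x) (hx : x ≤ 1 / 2) :
    2 * (1 / 2 * β ^ 2 * x ^ 8 * (3 / 2 * (1 - β ^ 2)) +
        1 / 3 * β ^ 3 * x ^ 12 * (125 / 4 * (1 - β) + 3 / 2 * (1 - β ^ 2)) +
        440 / 3 * β ^ 4 * x ^ 16 * (1 - β)) + 32 / 13 * x ^ 6 * (1 - β ^ 2) +
      (β ^ 2 / 8 + (5 / 12 + 63 / 1024) * (1 - β ^ 2) + 21 / 80) *
        (2 * (x ^ 2) ^ 3 * (1 - β ^ 2)) ≤ 99 / 100 * (1 - β ^ 2) * x ^ 4 := by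
  have ha : 0 ≤ 1 - β := by linarith
  set M := 1 - β ^ 2 with hM
  have hM0 : 0 ≤ M := by rw [hM]; nlinarith
  set q := x ^ 4 with hq
  have hq0 : 0 ≤ q := by positivity
  have hx2 : x ^ 2 ≤ 1 / 4 := by nlinarith
  have hx20 : 0 ≤ x ^ 2 := by positivity
  have hq1 : q ≤ 1 / 16 := by
    have : q = x ^ 2 * x ^ 2 := by rw [hq]; ring
    rw [this]
    nlinarith
  have e8 : x ^ 8 = q * q := by rw [hq]; ring
  have e12 : x ^ 12 = q * (q * q) := by rw [hq]; ring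
  have e16 : x ^ 16 = q * (q * (q * q)) := by rw [hq]; ring
  have e6 : x ^ 6 = x ^ 2 * q := by rw [hq]; ring
  have e6' : (x ^ 2) ^ 3 = x ^ 2 * q := by rw [hq]; ring
  rw [e8, e12, e16, e6, e6']
  have hqq : q * q ≤ 1 / 256 := by nlinarith
  have hqqq : q * (q * q) ≤ 1 / 4096 := by
    have : 0 ≤ q * q := by positivity
    nlinarith
  have hb2 : 0 ≤ β ^ 2 := by positivity
  -- `β (1 - β) <= M / 2`
  have hb : β * (1 - β) ≤ M / 2 := by rw [hM]; nlinarith [sq_nonneg (1 - β)]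
  have hb3 : β ^ 3 * (1 - β) ≤ β ^ 2 * (M / 2) := by
    calc β ^ 3 * (1 - β) = β ^ 2 * (β * (1 - β)) := by ring
      _ ≤ _ := mul_le_mul_of_nonneg_left hb hb2
  have hb30 : 0 ≤ β ^ 3 * (1 - β) := by positivity
  have hb4 : β ^ 4 * (1 - β) ≤ β ^ 2 * (M / 2) := by
    have : β ^ 4 * (1 - β) = β * (β ^ 3 * (1 - β)) := by ring
    rw [this]
    nlinarith
  have hb3M : β ^ 3 * M ≤ β ^ 2 * M := by
    have : 0 ≤ β ^ 2 * M := by positivity
    have e : β ^ 3 * M = β * (β ^ 2 * M) := by ring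
    rw [e]
    nlinarith
  have hbM0 : 0 ≤ β ^ 3 * M := by positivity
  have p1 : 1 / 2 * β ^ 2 * (q * q) * (3 / 2 * M) ≤ 3 / 64 * (β ^ 2 * M * q) := by
    have i1 : 0 ≤ β ^ 2 * M * q := by positivity
    have i2 := mul_le_mul_of_nonneg_left hq1 i1
    calc _ = 3 / 4 * (β ^ 2 * M * q * q) := by ring
      _ ≤ 3 / 4 * (β ^ 2 * M * q * (1 / 16)) := by linarith
      _ = _ := by ring
  have p2 : 1 / 3 * β ^ 3 * (q * (q * q)) * (125 / 4 * (1 - β) + 3 / 2 * M) ≤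
      137 / 6144 * (β ^ 2 * M * q) := by
    have i0 : 0 ≤ 125 / 4 * (β ^ 3 * (1 - β)) + 3 / 2 * (β ^ 3 * M) := by positivity
    have i1 : 125 / 4 * (β ^ 3 * (1 - β)) + 3 / 2 * (β ^ 3 * M) ≤ 137 / 8 * (β ^ 2 * M) := by
      linarith
    have i2 : (125 / 4 * (β ^ 3 * (1 - β)) + 3 / 2 * (β ^ 3 * M)) * (q * q) ≤
        137 / 8 * (β ^ 2 * M) * (1 / 256) :=
      mul_le_mul i1 hqq (by positivity) (by positivity)
    have i3 := mul_le_mul_of_nonneg_right i2 hq0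
    calc _ = 1 / 3 * ((125 / 4 * (β ^ 3 * (1 - β)) + 3 / 2 * (β ^ 3 * M)) * (q * q) * q) := by ring
      _ ≤ 1 / 3 * (137 / 8 * (β ^ 2 * M) * (1 / 256) * q) := by linarith
      _ = _ := by ring
  have p3 : 440 / 3 * β ^ 4 * (q * (q * (q * q))) * (1 - β) ≤
      55 / 3072 * (β ^ 2 * M * q) := by
    have i2 : β ^ 4 * (1 - β) * (q * (q * q)) ≤ β ^ 2 * (M / 2) * (1 / 4096) :=
      mul_le_mul hb4 hqqq (by positivity) (by positivity)
    have i3 := mul_le_mul_of_nonneg_right i2 hq0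
    calc _ = 440 / 3 * (β ^ 4 * (1 - β) * (q * (q * q)) * q) := by ring
      _ ≤ 440 / 3 * (β ^ 2 * (M / 2) * (1 / 4096) * q) := by linarith
      _ = _ := by ring
  have p4 : 32 / 13 * (x ^ 2 * q) * M ≤ 8 / 13 * (M * q) := by
    have i1 : 0 ≤ M * q := by positivity
    have i2 := mul_le_mul_of_nonneg_left hx2 i1
    calc _ = 32 / 13 * (M * q * x ^ 2) := by ring
      _ ≤ 32 / 13 * (M * q * (1 / 4)) := by linarith
      _ = _ := by ring
  set c := β ^ 2 / 8 + (5 / 12 + 63 / 1024) * M + 21 / 80 with hc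
  have hc0 : 0 ≤ c := by positivity
  have p5 : c * (2 * (x ^ 2 * q) * M) ≤ c / 2 * (M * q) := by
    have i1 : 0 ≤ c * (M * q) := by positivity
    have i2 := mul_le_mul_of_nonneg_left hx2 i1
    calc _ = 2 * (c * (M * q) * x ^ 2) := by ring
      _ ≤ 2 * (c * (M * q) * (1 / 4)) := by linarith
      _ = _ := by ring
  have p6 : 2 * (3 / 64 + 137 / 6144 + 55 / 3072) * β ^ 2 + 8 / 13 + c / 2 ≤ 99 / 100 := by
    rw [hc, hM]
    nlinarith
  have i1 : 0 ≤ M * q := by positivity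
  have i2 := mul_le_mul_of_nonneg_right p6 i1
  nlinarith

theorem comp_diff {f g : ℂ → ℂ} {u g' : ℂ} (hg : HasDerivAt g g' (f u))
    (hf : DifferentiableAt ℂ f u) : DifferentiableAt ℂ (fun v => g (f v)) u :=
  hg.differentiableAt.comp u hf

/-- the integral inequality -/
theorem int_D (h : Nrm F b β) {k : ℝ} (hk : 0 < k) (hk1 : k ≤ 1) {x : ℝ} (hx0 : 0 < x)
    (hx : x ≤ 1 / 2) :
    ∫ t in (-π)..π, ‖1 - (x * ec t) * (deriv (pw b) (x * ec t) * (x * ec t))‖ ^ (2 * k) ≤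
      (∫ t in (-π)..π, ‖1 - ((x : ℂ) * ec t) ^ 2‖ ^ (2 * k)) -
        k ^ 2 * (2 * π * (1 / 100 * (1 - β ^ 2) * x ^ 4)) := by
  have hpi := Real.pi_pos
  have hβ := h.beta_le
  have h0 := h.nn
  have hM := h.del_nonneg
  have hx1 : x < 1 := by linarith
  have hx2 : x ^ 2 ≤ 1 / 4 := by nlinarith
  have hz : ∀ u : ℂ, ‖u‖ ≤ x → ‖-((β : ℂ) * u ^ 2)‖ ≤ β / 4 := by
    intro u hu
    rw [norm_neg, norm_mul, norm_pow, norm_real, Real.norm_eq_abs, abs_of_nonneg h0]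
    have i1 : ‖u‖ ^ 2 ≤ x ^ 2 := pow_le_pow_left₀ (norm_nonneg _) hu 2
    have i2 := mul_le_mul_of_nonneg_left (i1.trans hx2) h0
    linarith
  have hw : ∀ u : ℂ, ‖u‖ ≤ x → ‖-((β : ℂ) * u ^ 2) - EE b β u‖ ≤ 1 / 3 := by
    intro u hu
    have i1 := norm_sub_le (-((β : ℂ) * u ^ 2)) (EE b β u)
    have i2 := hz u hu
    have i3 := sum_third h (hu.trans hx)
    linarith
  have e0 : ∀ u : ℂ, -(u * (deriv (pw b) u * u)) = -((β : ℂ) * u ^ 2) - EE b β u := by
    intro u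
    unfold EE
    ring
  have hball : ∀ u : ℂ, ‖u‖ ≤ x → u ∈ Metric.ball (0 : ℂ) 1 := by
    intro u hu
    rw [mem_ball_zero_iff]; linarith
  have hdd : ∀ u : ℂ, ‖u‖ ≤ x → DifferentiableAt ℂ (deriv (pw b)) u := by
    intro u hu
    exact (h.sig.diffOn_pw.deriv Metric.isOpen_ball).differentiableAt
      (Metric.isOpen_ball.mem_nhds (hball u hu))
  have hf1 : ∀ u : ℂ, ‖u‖ ≤ x → DifferentiableAt ℂ (fun u => -(u * (deriv (pw b) u * u))) u := by
    intro u hu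
    have := hdd u hu
    fun_prop
  have hf2 : ∀ u : ℂ, ‖u‖ ≤ x → ‖-(u * (deriv (pw b) u * u))‖ < 1 := by
    intro u hu
    rw [e0 u]
    have := hw u hu
    linarith
  obtain ⟨c1, e1⟩ := int_pow hk (f := fun u => -(u * (deriv (pw b) u * u))) hx0 hf1 hf2 (by simp)
  obtain ⟨c2, e2⟩ := int_pow hk (f := fun u => -(u ^ 2)) hx0 (fun u _ => by fun_prop)
    (fun u hu => by
      rw [norm_neg, norm_pow]
      have i1 : ‖u‖ ^ 2 ≤ x ^ 2 := pow_le_pow_left₀ (norm_nonneg _) hu 2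
      linarith) (by simp)
  obtain ⟨c3, -⟩ := int_pow hk (f := fun u => -((β : ℂ) * u ^ 2)) hx0 (fun u _ => by fun_prop)
    (fun u hu => lt_of_le_of_lt (hz u hu) (by linarith)) (by simp)
  simp only [← sub_eq_add_neg] at e1 e2
  rw [e1, e2]
  have cE : Continuous fun t : ℝ => EE b β (x * ec t) := h.rep_EE.continuous_circle hx0.le hx1
  have cW : Continuous fun t : ℝ => (1 + -((β : ℂ) * (x * ec t) ^ 2)) ^ ((k - 1 : ℝ) : ℂ) :=
    (rep_WD k h0 hβ).continuous_circle hx0.le hx1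
  -- the remainder
  have hEd : ∀ u : ℂ, ‖u‖ ≤ x → DifferentiableAt ℂ (EE b β) u := by
    intro u hu
    have := hdd u hu
    unfold EE
    fun_prop
  have hRd : ∀ u : ℂ, ‖u‖ ≤ x →
      DifferentiableAt ℂ (fun u => Rm k (-((β : ℂ) * u ^ 2)) (EE b β u)) u := by
    intro u hu
    unfold Rm
    have i0 : DifferentiableAt ℂ (fun u : ℂ => -((β : ℂ) * u ^ 2)) u := by fun_prop
    have i1 : DifferentiableAt ℂ (fun u => Lam k (-((β : ℂ) * u ^ 2) - EE b β u)) u :=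
      comp_diff (f := fun u => -((β : ℂ) * u ^ 2) - EE b β u)
        (hasDerivAt_Lam hk (lt_of_le_of_lt (hw u hu) (by norm_num))) (i0.sub (hEd u hu))
    have i2 : DifferentiableAt ℂ (fun u => Lam k (-((β : ℂ) * u ^ 2))) u :=
      comp_diff (f := fun u => -((β : ℂ) * u ^ 2))
        (hasDerivAt_Lam hk (lt_of_le_of_lt (hz u hu) (by linarith))) i0
    have i3 : DifferentiableAt ℂ
        (fun u : ℂ => (1 + -((β : ℂ) * u ^ 2)) ^ ((k - 1 : ℝ) : ℂ)) u :=
      comp_diff (f := fun u => -((β : ℂ) * u ^ 2)) (g := fun z => (1 + z) ^ ((k - 1 : ℝ) : ℂ))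
        (hasDerivAt_cp (k - 1) (lt_of_le_of_lt (hz u hu) (by linarith))) i0
    exact (i1.sub i2).add (i3.mul (hEd u hu))
  have hRb : ∀ u : ℂ, ‖u‖ ≤ x → ‖Rm k (-((β : ℂ) * u ^ 2)) (EE b β u)‖ ≤
      7 / 2 * (1 - β ^ 2) * ‖u‖ ^ 4 := by
    intro u hu
    have i1 := Rm_le hk hk1 ((hz u hu).trans (by linarith)) (hw u hu)
    have i2 := EE_le' h (hu.trans hx)
    have i3 : ‖u‖ ^ 6 ≤ ‖u‖ ^ 4 :=
      pow_le_pow_of_le_one (norm_nonneg _) (hu.trans hx1.le) (by norm_num)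
    have i4 := mul_le_mul_of_nonneg_left i3
      (mul_nonneg (by norm_num) hM : 0 ≤ 28 / 9 * (1 - β ^ 2))
    linarith
  have cR : Continuous fun t : ℝ => Rm k (-((β : ℂ) * (x * ec t) ^ 2)) (EE b β (x * ec t)) := by
    rw [continuous_iff_continuousAt]
    intro t
    have h2 : ContinuousAt (fun t : ℝ => (x : ℂ) * ec t) t :=
      (continuous_const.mul continuous_ec).continuousAt
    exact ContinuousAt.comp (f := fun t : ℝ => (x : ℂ) * ec t)
      (hRd _ (norm_mul_ec hx0.le t).le).continuousAt h2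
  have hR0 : ∫ t in (-π)..π, conj ((x * ec t) ^ 2) *
      Rm k (-((β : ℂ) * (x * ec t) ^ 2)) (EE b β (x * ec t)) = 0 :=
    conj_mean hx0 hRd hRb
  have cz : Continuous fun t : ℝ => -((β : ℂ) * (x * ec t) ^ 2) := by
    have := continuous_ec
    fun_prop
  have cP : Continuous fun t : ℝ => conj (-Lam k (-((β : ℂ) * (x * ec t) ^ 2))) *
      ((1 + -((β : ℂ) * (x * ec t) ^ 2)) ^ ((k - 1 : ℝ) : ℂ) * EE b β (x * ec t)) :=
    (Complex.continuous_conj.comp c3.neg).mul (cW.mul cE)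
  have cQ : Continuous fun t : ℝ => conj (-((β : ℂ) * (x * ec t) ^ 2)) *
      Rm k (-((β : ℂ) * (x * ec t) ^ 2)) (EE b β (x * ec t)) :=
    (Complex.continuous_conj.comp cz).mul cR
  set c := β ^ 2 / 8 + (5 / 12 + 63 / 1024) * (1 - β ^ 2) + 21 / 80 with hc
  have i3 : ∫ t in (-π)..π, ‖Lam k (-((x * ec t) * (deriv (pw b) (x * ec t) * (x * ec t))))‖ ^ 2 ≤
      ∫ t in (-π)..π, (‖Lam k (-((β : ℂ) * (x * ec t) ^ 2))‖ ^ 2 +
        2 * (conj (-Lam k (-((β : ℂ) * (x * ec t) ^ 2))) *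
          ((1 + -((β : ℂ) * (x * ec t) ^ 2)) ^ ((k - 1 : ℝ) : ℂ) * EE b β (x * ec t))).re +
        2 * (conj (-((β : ℂ) * (x * ec t) ^ 2)) *
          Rm k (-((β : ℂ) * (x * ec t) ^ 2)) (EE b β (x * ec t))).re +
        ‖(1 + -((β : ℂ) * (x * ec t) ^ 2)) ^ ((k - 1 : ℝ) : ℂ) * EE b β (x * ec t)‖ ^ 2 +
        c * ‖EE b β (x * ec t)‖ ^ 2) := by
    refine intervalIntegral.integral_mono_on (by linarith) ?_ ?_ ?_
    · exact (c1.norm.pow 2).intervalIntegrable _ _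
    · refine Continuous.intervalIntegrable ?_ _ _
      exact ((((c3.norm.pow 2).add (continuous_const.mul (Complex.continuous_re.comp cP))).add
        (continuous_const.mul (Complex.continuous_re.comp cQ))).add ((cW.mul cE).norm.pow 2)).add
          (continuous_const.mul (cE.norm.pow 2))
    · intro t _
      have hu := (norm_mul_ec hx0.le t).le
      rw [e0]
      have j1 := pt_D hk hk1 ((hz _ hu).trans (by linarith)) (hw _ hu)
      have j2 := hz _ hu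
      have j3 := EE_half h (hu.trans hx)
      set v := ‖EE b β (x * ec t)‖
      set y := ‖-((β : ℂ) * (x * ec t) ^ 2)‖
      have j4 : 2 * y ^ 2 + 3 * v + 81 / 64 * v ^ 2 ≤ c := by
        have y0 : 0 ≤ y := norm_nonneg _
        have k1 : y ^ 2 ≤ β ^ 2 / 16 := by nlinarith
        have k2 : 3 * v ≤ 60 / 7 * v ^ 2 + 21 / 80 := by nlinarith [sq_nonneg (v - 7 / 40)]
        rw [hc]
        linarith
      have j5 := mul_le_mul_of_nonneg_right j4 (sq_nonneg v)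
      linarith
  have j1 : IntervalIntegrable (fun t : ℝ => ‖Lam k (-((β : ℂ) * (x * ec t) ^ 2))‖ ^ 2)
      volume (-π) π := (c3.norm.pow 2).intervalIntegrable _ _
  have j2 : IntervalIntegrable (fun t : ℝ => 2 * (conj (-Lam k (-((β : ℂ) * (x * ec t) ^ 2))) *
      ((1 + -((β : ℂ) * (x * ec t) ^ 2)) ^ ((k - 1 : ℝ) : ℂ) * EE b β (x * ec t))).re)
      volume (-π) π := (continuous_const.mul (Complex.continuous_re.comp cP)).intervalIntegrable _ _
  have j3 : IntervalIntegrable (fun t : ℝ => 2 * (conj (-((β : ℂ) * (x * ec t) ^ 2)) *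
      Rm k (-((β : ℂ) * (x * ec t) ^ 2)) (EE b β (x * ec t))).re)
      volume (-π) π := (continuous_const.mul (Complex.continuous_re.comp cQ)).intervalIntegrable _ _
  have j4 : IntervalIntegrable (fun t : ℝ =>
      ‖(1 + -((β : ℂ) * (x * ec t) ^ 2)) ^ ((k - 1 : ℝ) : ℂ) * EE b β (x * ec t)‖ ^ 2)
      volume (-π) π := ((cW.mul cE).norm.pow 2).intervalIntegrable _ _
  have j5 : IntervalIntegrable (fun t : ℝ => c * ‖EE b β (x * ec t)‖ ^ 2) volume (-π) π :=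
    (continuous_const.mul (cE.norm.pow 2)).intervalIntegrable _ _
  rw [intervalIntegral.integral_add (((j1.add j2).add j3).add j4) j5,
    intervalIntegral.integral_add ((j1.add j2).add j3) j4,
    intervalIntegral.integral_add (j1.add j2) j3,
    intervalIntegral.integral_add j1 j2,
    intervalIntegral.integral_const_mul, intervalIntegral.integral_const_mul,
    intervalIntegral.integral_const_mul] at i3
  have e3 : ∫ t in (-π)..π, (conj (-Lam k (-((β : ℂ) * (x * ec t) ^ 2))) *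
      ((1 + -((β : ℂ) * (x * ec t) ^ 2)) ^ ((k - 1 : ℝ) : ℂ) * EE b β (x * ec t))).re =
      (∫ t in (-π)..π, conj (-Lam k (-((β : ℂ) * (x * ec t) ^ 2))) *
      ((1 + -((β : ℂ) * (x * ec t) ^ 2)) ^ ((k - 1 : ℝ) : ℂ) * EE b β (x * ec t))).re := by
    have := Complex.reCLM.intervalIntegral_comp_comm (μ := volume)
      (cP.intervalIntegrable (-π) π)
    simpa using this
  have e4 : ∫ t in (-π)..π, (conj (-((β : ℂ) * (x * ec t) ^ 2)) *
      Rm k (-((β : ℂ) * (x * ec t) ^ 2)) (EE b β (x * ec t))).re = 0 := by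
    have k1 := Complex.reCLM.intervalIntegral_comp_comm (μ := volume)
      (cQ.intervalIntegrable (-π) π)
    have k2 : ∫ t in (-π)..π, conj (-((β : ℂ) * (x * ec t) ^ 2)) *
        Rm k (-((β : ℂ) * (x * ec t) ^ 2)) (EE b β (x * ec t)) = 0 := by
      have k3 : ∀ t : ℝ, conj (-((β : ℂ) * (x * ec t) ^ 2)) *
          Rm k (-((β : ℂ) * (x * ec t) ^ 2)) (EE b β (x * ec t)) =
          (-(β : ℂ)) * (conj ((x * ec t) ^ 2) *
          Rm k (-((β : ℂ) * (x * ec t) ^ 2)) (EE b β (x * ec t))) := by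
        intro t
        rw [map_neg, map_mul, conj_ofReal]
        ring
      simp_rw [k3]
      rw [intervalIntegral.integral_const_mul, hR0, mul_zero]
    rw [k2, map_zero] at k1
    simpa using k1
  rw [e3, e4] at i3
  have k1 := linD_le h hk hk1 hx0.le hx
  have k2 := int_We h hk.le hk1 hx0.le hx
  have k3 := int_PD hk h0 hβ hx0.le hx1
  have k4 := h.int_EE_le hx0.le (by linarith : x ^ 2 ≤ 2 / 3)
  have hc0 : 0 ≤ c := by
    rw [hc]
    have := mul_nonneg (by norm_num : (0 : ℝ) ≤ 5 / 12 + 63 / 1024) hM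
    positivity
  have k5 := mul_le_mul_of_nonneg_left k4 hc0
  have k6 := arith_D h0 hβ hx0.le hx
  rw [← hc] at k6
  have k7 := mul_le_mul_of_nonneg_left k6 (by positivity : 0 ≤ 2 * π)
  have k8 : ∫ t in (-π)..π, ‖Lam k (-((x * ec t) * (deriv (pw b) (x * ec t) * (x * ec t))))‖ ^ 2 ≤
      (∫ t in (-π)..π, ‖Lam k (-((x * ec t) ^ 2))‖ ^ 2) -
        2 * π * (1 / 100 * (1 - β ^ 2) * x ^ 4) := by
    linarith
  have k9 := mul_le_mul_of_nonneg_left k8 (sq_nonneg k)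
  linarith

/-- the integral inequality in the form of `H15/DP` -/
theorem IntD_le_one {p x : ℝ} (hp : 0 < p) (hp1 : p ≤ 1) (hx0 : 0 < x) (hx : x ≤ 1 / 2) :
    IntD p x := by
  intro F b β h
  have hpi := Real.pi_pos
  have h1 := int_D h hp hp1 hx0 hx
  have hx2 : x ^ 2 < 1 := by nlinarith
  rw [int_one_sub_sq p hx2] at h1
  have hM := h.del_nonneg
  constructor
  · have : 0 ≤ p ^ 2 * (2 * π * (1 / 100 * (1 - β ^ 2) * x ^ 4)) := by positivity
    linarith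
  · intro hb
    have h0 := h.nn
    have hM1 : 0 < 1 - β ^ 2 := by nlinarith
    have : 0 < p ^ 2 * (2 * π * (1 / 100 * (1 - β ^ 2) * x ^ 4)) := by positivity
    linarith

end Pool.Agent.H93.MR
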