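import Pool.Agent.H93.MR.Ln

/-!
# Integral means of order at most two, radii at least two

`int_F`: for `0 < k <= 1`, `0 < x <= 1/2` and `b_1 = β` real, `β >= 0`, the integral of
`|u F(1/u)|^(2k)` over `|u| = x` is at most that of `|1 + u^2|^(2k)` minus `(2/5) k^2 π (1-β) x^4`.
PROOF. `int |1+f|^(2k) = 2π + k^2 int |Lam f|^2` (mean value property, `int_pow`); pointwise
`|Lam (βu^2 + E)|^2 <= |Lam (βu^2)|^2 + 2 Re (conj (Lam (βu^2)) (1+βu^2)^(k-1) E) + (207/50) |E|^2`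
(`Lam_taylor`); `int_P`, `lin_le`, `int_E`.
-/

open Complex Set Filter Topology MeasureTheory
open scoped ComplexConjugate Real

namespace Pool.Agent.H93.MR

open Pool.Agent.H15.Sig

variable {F : ℂ → ℂ} {b : ℕ → ℂ} {β : ℝ}

theorem norm_add_sq_c (a c : ℂ) : ‖a + c‖ ^ 2 = ‖a‖ ^ 2 + 2 * (conj a * c).re + ‖c‖ ^ 2 := by
  rw [← Complex.normSq_eq_norm_sq, ← Complex.normSq_eq_norm_sq, ← Complex.normSq_eq_norm_sq,
    Complex.normSq_apply, Complex.normSq_apply, Complex.normSq_apply]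
  simp only [add_re, add_im, mul_re, conj_re, conj_im]
  ring

theorem norm_pow_eq {k : ℝ} (hk : 0 < k) (f : ℂ) :
    ‖1 + f‖ ^ (2 * k) = 1 + 2 * k * (Lam k f).re + k ^ 2 * ‖Lam k f‖ ^ 2 := by
  have hkc : (k : ℂ) ≠ 0 := by exact_mod_cast hk.ne'
  have h1 : (1 + f) ^ (k : ℂ) = 1 + k * Lam k f := by
    unfold Lam
    field_simp
    ring
  have h2 : ‖1 + f‖ ^ (2 * k) = ‖(1 + f) ^ (k : ℂ)‖ ^ 2 := by
    rw [Complex.norm_cpow_real, mul_comm, Real.rpow_mul (norm_nonneg _)]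
    norm_cast
  rw [h2, h1, norm_add_sq_c]
  simp only [map_one, one_mul, norm_one, norm_mul, norm_real, re_ofReal_mul, Real.norm_eq_abs,
    mul_pow, sq_abs]
  ring

theorem int_pow {k : ℝ} (hk : 0 < k) {f : ℂ → ℂ} {x : ℝ} (hx0 : 0 < x)
    (hd : ∀ u : ℂ, ‖u‖ ≤ x → DifferentiableAt ℂ f u) (hn : ∀ u : ℂ, ‖u‖ ≤ x → ‖f u‖ < 1)
    (h0 : f 0 = 0) :
    Continuous (fun t : ℝ => Lam k (f (x * ec t))) ∧
    ∫ t in (-π)..π, ‖1 + f (x * ec t)‖ ^ (2 * k) =
      2 * π + k ^ 2 * ∫ t in (-π)..π, ‖Lam k (f (x * ec t))‖ ^ 2 := by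
  have hdc : ∀ u : ℂ, ‖u‖ ≤ x → DifferentiableAt ℂ (fun u => Lam k (f u)) u := fun u hu =>
    (hasDerivAt_Lam hk (hn u hu)).differentiableAt.comp u (hd u hu)
  have hc : Continuous (fun t : ℝ => Lam k (f (x * ec t))) := by
    rw [continuous_iff_continuousAt]
    intro t
    have h2 : ContinuousAt (fun t : ℝ => (x : ℂ) * ec t) t :=
      (continuous_const.mul continuous_ec).continuousAt
    exact ContinuousAt.comp (f := fun t : ℝ => (x : ℂ) * ec t)
      (hdc _ (norm_mul_ec hx0.le t).le).continuousAt h2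
  refine ⟨hc, ?_⟩
  have hcl : DiffContOnCl ℂ (fun u => Lam k (f u)) (Metric.ball 0 x) := by
    apply DifferentiableOn.diffContOnCl
    rw [closure_ball _ hx0.ne']
    intro u hu
    rw [mem_closedBall_zero_iff] at hu
    exact (hdc u hu).differentiableWithinAt
  have h1 := circle_mean hx0 hcl
  rw [h0, Lam_zero, mul_zero] at h1
  have h2 : ∫ t in (-π)..π, (Lam k (f (x * ec t))).re = 0 := by
    have h3 := congrArg Complex.re h1
    rw [zero_re] at h3
    rw [← h3]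
    have := Complex.reCLM.intervalIntegral_comp_comm (μ := volume)
      (hc.intervalIntegrable (-π) π)
    simpa using this
  simp_rw [norm_pow_eq hk]
  have i1 : IntervalIntegrable (fun t : ℝ => 2 * k * (Lam k (f (x * ec t))).re) volume (-π) π :=
    (continuous_const.mul (Complex.continuous_re.comp hc)).intervalIntegrable _ _
  have i2 : IntervalIntegrable (fun t : ℝ => k ^ 2 * ‖Lam k (f (x * ec t))‖ ^ 2) volume (-π) π :=
    (continuous_const.mul (hc.norm.pow 2)).intervalIntegrable _ _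
  rw [intervalIntegral.integral_add ((continuous_const.intervalIntegrable _ _).add i1) i2,
    intervalIntegral.integral_add (continuous_const.intervalIntegrable _ _) i1,
    intervalIntegral.integral_const_mul, intervalIntegral.integral_const_mul, h2]
  simp only [intervalIntegral.integral_const, smul_eq_mul]
  ring

/-- the pointwise inequality -/
theorem pt_le {k : ℝ} (hk : 0 < k) (hk1 : k ≤ 1) {z e : ℂ} (hz : ‖z‖ ≤ 1 / 4)
    (he : ‖e‖ ≤ 103 / 1000) :
    ‖Lam k (z + e)‖ ^ 2 ≤ ‖Lam k z‖ ^ 2 +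
      2 * (conj (Lam k z) * ((1 + z) ^ ((k - 1 : ℝ) : ℂ) * e)).re + 207 / 50 * ‖e‖ ^ 2 := by
  have hze : ‖z + e‖ ≤ 9 / 25 := by
    have := norm_add_le z e
    linarith
  have h1 := Lam_taylor hk hk1 (d := 9 / 25) (by norm_num) (hz.trans (by norm_num)) hze
  rw [add_sub_cancel_left] at h1
  have h2 := norm_cp1_le hk hk1 (d := 1 / 4) (by norm_num) hz
  have h3 := Lam_le hk hk1 (d := 1 / 4) (by norm_num) hz
  set P := Lam k z
  set W := (1 + z) ^ ((k - 1 : ℝ) : ℂ)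
  set R := Lam k (z + e) - P - W * e with hR
  have e1 : Lam k (z + e) = P + (W * e + R) := by rw [hR]; ring
  have hE := norm_nonneg e
  have h4 : ‖R‖ ≤ 625 / 256 * ‖e‖ ^ 2 := by
    refine h1.trans (le_of_eq ?_)
    norm_num
  have h5 : ‖P‖ ≤ 1 / 3 := by
    norm_num at h3
    linarith
  have h6 : ‖W‖ ≤ 4 / 3 := by
    norm_num at h2
    linarith
  have h7 : ‖W * e + R‖ ≤ 15848 / 10000 * ‖e‖ := by
    have i1 := norm_add_le (W * e) R
    rw [norm_mul] at i1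
    have i2 := mul_le_mul_of_nonneg_right h6 hE
    have i3 := mul_le_mul_of_nonneg_right he hE
    nlinarith
  have h8 : ‖W * e + R‖ ^ 2 ≤ 2512 / 1000 * ‖e‖ ^ 2 := by
    have i1 := pow_le_pow_left₀ (norm_nonneg _) h7 2
    have i2 := sq_nonneg ‖e‖
    nlinarith
  have h9 : (conj P * R).re ≤ 1 / 3 * (625 / 256 * ‖e‖ ^ 2) := by
    have i1 := Complex.re_le_norm (conj P * R)
    rw [norm_mul, Complex.norm_conj] at i1
    have i2 := mul_le_mul h5 h4 (norm_nonneg _) (by norm_num)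
    linarith
  rw [e1, norm_add_sq_c, mul_add, add_re]
  have := sq_nonneg ‖e‖
  linarith

theorem int_F (h : Nrm F b β) {k : ℝ} (hk : 0 < k) (hk1 : k ≤ 1) {x : ℝ} (hx0 : 0 < x)
    (hx : x ≤ 1 / 2) :
    ∫ t in (-π)..π, ‖1 + (x * ec t) * pw b (x * ec t)‖ ^ (2 * k) ≤
      (∫ t in (-π)..π, ‖1 + (x * ec t) ^ 2‖ ^ (2 * k)) - 2 / 5 * k ^ 2 * π * (1 - β) * x ^ 4 := by
  have hpi := Real.pi_pos
  have hβ := h.beta_le
  have h0 := h.nn
  have hx1 : x < 1 := by linarith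
  have hx2 : x ^ 2 ≤ 1 / 4 := by nlinarith
  have hE : ∀ u : ℂ, ‖u‖ ≤ x → ‖Ee b β u‖ ≤ 103 / 1000 := fun u hu => norm_E h (hu.trans hx)
  have hz : ∀ u : ℂ, ‖u‖ ≤ x → ‖(β : ℂ) * u ^ 2‖ ≤ 1 / 4 := by
    intro u hu
    rw [norm_mul, norm_pow, norm_real, Real.norm_eq_abs, abs_of_nonneg h0]
    have i1 : ‖u‖ ^ 2 ≤ x ^ 2 := pow_le_pow_left₀ (norm_nonneg _) hu 2
    have i2 := sq_nonneg ‖u‖
    nlinarith
  have e0 : ∀ u : ℂ, u * pw b u = β * u ^ 2 + Ee b β u := by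
    intro u
    unfold Ee
    ring
  have hf1 : ∀ u : ℂ, ‖u‖ ≤ x → DifferentiableAt ℂ (fun u => u * pw b u) u := by
    intro u hu
    have i1 : u ∈ Metric.ball (0 : ℂ) 1 := by
      rw [mem_ball_zero_iff]; linarith
    exact differentiableAt_id.mul
      (h.sig.diffOn_pw.differentiableAt (Metric.isOpen_ball.mem_nhds i1))
  have hf2 : ∀ u : ℂ, ‖u‖ ≤ x → ‖u * pw b u‖ < 1 := by
    intro u hu
    rw [e0 u]
    have := norm_add_le ((β : ℂ) * u ^ 2) (Ee b β u)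
    have := hz u hu
    have := hE u hu
    linarith
  obtain ⟨c1, e1⟩ := int_pow hk (f := fun u => u * pw b u) hx0 hf1 hf2 (by simp)
  obtain ⟨c2, e2⟩ := int_pow hk (f := fun u => u ^ 2) hx0 (fun u _ => by fun_prop)
    (fun u hu => by
      rw [norm_pow]
      have i1 : ‖u‖ ^ 2 ≤ x ^ 2 := pow_le_pow_left₀ (norm_nonneg _) hu 2
      linarith) (by simp)
  obtain ⟨c3, -⟩ := int_pow hk (f := fun u => (β : ℂ) * u ^ 2) hx0 (fun u _ => by fun_prop)
    (fun u hu => lt_of_le_of_lt (hz u hu) (by norm_num)) (by simp)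
  rw [e1, e2]
  have cE := (rep_E h).continuous_circle hx0.le hx1
  have cW := (rep_W k h0 hβ).continuous_circle hx0.le hx1
  have i3 : ∫ t in (-π)..π, ‖Lam k ((x * ec t) * pw b (x * ec t))‖ ^ 2 ≤
      ∫ t in (-π)..π, (‖Lam k (β * (x * ec t) ^ 2)‖ ^ 2 +
        2 * (conj (Lam k (β * (x * ec t) ^ 2)) *
          ((1 + β * (x * ec t) ^ 2) ^ ((k - 1 : ℝ) : ℂ) * Ee b β (x * ec t))).re +
        207 / 50 * ‖Ee b β (x * ec t)‖ ^ 2) := by
    refine intervalIntegral.integral_mono_on (by linarith) ?_ ?_ ?_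
    · exact (c1.norm.pow 2).intervalIntegrable _ _
    · refine Continuous.intervalIntegrable ?_ _ _
      refine ((c3.norm.pow 2).add (continuous_const.mul (Complex.continuous_re.comp
        ((Complex.continuous_conj.comp c3).mul (cW.mul cE))))).add
          (continuous_const.mul (cE.norm.pow 2))
    · intro t _
      have hu := (norm_mul_ec hx0.le t).le
      rw [e0]
      exact pt_le hk hk1 (hz _ hu) (hE _ hu)
  have j1 : IntervalIntegrable (fun t : ℝ => ‖Lam k (β * (x * ec t) ^ 2)‖ ^ 2) volume (-π) π :=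
    (c3.norm.pow 2).intervalIntegrable _ _
  have cC : Continuous fun t : ℝ => conj (Lam k (β * (x * ec t) ^ 2)) *
      ((1 + β * (x * ec t) ^ 2) ^ ((k - 1 : ℝ) : ℂ) * Ee b β (x * ec t)) :=
    (Complex.continuous_conj.comp c3).mul (cW.mul cE)
  have j2 : IntervalIntegrable (fun t : ℝ => 2 * (conj (Lam k (β * (x * ec t) ^ 2)) *
      ((1 + β * (x * ec t) ^ 2) ^ ((k - 1 : ℝ) : ℂ) * Ee b β (x * ec t))).re) volume (-π) π :=
    (continuous_const.mul (Complex.continuous_re.comp cC)).intervalIntegrable _ _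
  have j3 : IntervalIntegrable (fun t : ℝ => 207 / 50 * ‖Ee b β (x * ec t)‖ ^ 2) volume (-π) π :=
    (continuous_const.mul (cE.norm.pow 2)).intervalIntegrable _ _
  rw [intervalIntegral.integral_add (j1.add j2) j3, intervalIntegral.integral_add j1 j2,
    intervalIntegral.integral_const_mul, intervalIntegral.integral_const_mul] at i3
  have e3 : ∫ t in (-π)..π, (conj (Lam k (β * (x * ec t) ^ 2)) *
      ((1 + β * (x * ec t) ^ 2) ^ ((k - 1 : ℝ) : ℂ) * Ee b β (x * ec t))).re =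
      (∫ t in (-π)..π, conj (Lam k (β * (x * ec t) ^ 2)) *
        ((1 + β * (x * ec t) ^ 2) ^ ((k - 1 : ℝ) : ℂ) * Ee b β (x * ec t))).re := by
    have := Complex.reCLM.intervalIntegral_comp_comm (μ := volume)
      (cC.intervalIntegrable (-π) π)
    simpa using this
  rw [e3] at i3
  have k1 := lin_le h hk hk1 hx0.le hx
  have k2 := int_E h hx0.le hx1
  have k3 := int_P hk h0 hβ hx0.le hx1
  simp only [ofReal_one, one_mul] at k3
  -- the final inequality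
  have hx4 : 0 ≤ x ^ 4 := by positivity
  have k4 : 24 * π * (1 - β) * β ^ 2 * x ^ 8 ≤ 3 / 2 * π * (1 - β) * β ^ 2 * x ^ 4 := by
    have i1 : x ^ 4 ≤ 1 / 16 := by nlinarith [sq_nonneg (x ^ 2)]
    have i2 : 0 ≤ π * (1 - β) * β ^ 2 * x ^ 4 := by
      have : 0 ≤ 1 - β := by linarith
      positivity
    have i3 := mul_le_mul_of_nonneg_left i1 i2
    calc 24 * π * (1 - β) * β ^ 2 * x ^ 8 = 24 * (π * (1 - β) * β ^ 2 * x ^ 4 * x ^ 4) := by ring
      _ ≤ 24 * (π * (1 - β) * β ^ 2 * x ^ 4 * (1 / 16)) := by linarith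
      _ = _ := by ring
  have k5 : π * (1 - β ^ 2) * x ^ 6 ≤ 1 / 4 * (π * (1 - β ^ 2) * x ^ 4) := by
    have i1 : 0 ≤ π * (1 - β ^ 2) * x ^ 4 := by
      have : 0 ≤ 1 - β ^ 2 := by nlinarith
      positivity
    have i2 := mul_le_mul_of_nonneg_left hx2 i1
    calc π * (1 - β ^ 2) * x ^ 6 = π * (1 - β ^ 2) * x ^ 4 * x ^ 2 := by ring
      _ ≤ _ := by linarith
  have k6 : 3 / 2 * π * (1 - β) * β ^ 2 * x ^ 4 + 207 / 200 * (π * (1 - β ^ 2) * x ^ 4) ≤
      2 * π * (1 - β ^ 2) * x ^ 4 - 2 / 5 * π * (1 - β) * x ^ 4 := by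
    have i1 : 0 ≤ π * (1 - β) * x ^ 4 := by
      have : 0 ≤ 1 - β := by linarith
      positivity
    have i2 : 0 ≤ 193 / 200 * (1 + β) - 3 / 2 * β ^ 2 - 2 / 5 := by nlinarith
    have i3 := mul_nonneg i1 i2
    nlinarith
  have k7 : ∫ t in (-π)..π, ‖Lam k ((x * ec t) * pw b (x * ec t))‖ ^ 2 ≤
      (∫ t in (-π)..π, ‖Lam k ((x * ec t) ^ 2)‖ ^ 2) - 2 / 5 * π * (1 - β) * x ^ 4 := by
    linarith
  have k8 := mul_le_mul_of_nonneg_left k7 (sq_nonneg k)
  linarith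

end Pool.Agent.H93.MR
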