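import Pool.Agent.H93.MR.Lam

/-!
# Taylor's formula with the constant `1/2`
-/

open Complex Set Filter Topology MeasureTheory
open scoped ComplexConjugate Real

namespace Pool.Agent.H93.MR

open Pool.Agent.H15.Sig

theorem Lam_taylor2 {k : ℝ} (h0 : 0 < k) (h1 : k ≤ 1) {z w : ℂ} {d : ℝ} (hd : d < 1) (h : ‖z‖ ≤ d)
    (h' : ‖w‖ ≤ d) : ‖Lam k w - Lam k z - (1 + z) ^ ((k - 1 : ℝ) : ℂ) * (w - z)‖ ≤
      1 / 2 * (((1 - d) ^ 2)⁻¹ * ‖w - z‖ ^ 2) := by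
  set c : ℂ := (1 + z) ^ ((k - 1 : ℝ) : ℂ) with hc
  set g : ℝ → ℂ := fun s => z + s * (w - z) with hg
  have hseg : ∀ s ∈ Set.Icc (0:ℝ) 1, ‖g s‖ ≤ d := by
    intro s hs
    have e : g s = (1 - s) • z + s • w := by
      simp only [hg, Complex.real_smul]
      push_cast
      ring
    rw [e]
    exact convex_cb d h h' (by linarith [hs.2]) hs.1 (by ring)
  have hgd : ∀ s : ℝ, HasDerivAt g (w - z) s := by
    intro s
    have i1 := (((hasDerivAt_id s).ofReal_comp).mul_const (w - z)).const_add z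
    simp only [id_eq, ofReal_one, one_mul] at i1
    exact i1
  have hf : ∀ s ∈ Set.Icc (0:ℝ) 1,
      HasDerivAt (fun s : ℝ => Lam k (g s) - Lam k z - s * (c * (w - z)))
        ((1 + g s) ^ ((k - 1 : ℝ) : ℂ) * (w - z) - c * (w - z)) s := by
    intro s hs
    have i1 := (hasDerivAt_Lam h0 (lt_of_le_of_lt (hseg s hs) hd)).comp s (hgd s)
    have i2 := ((hasDerivAt_id s).ofReal_comp).mul_const (c * (w - z))
    simp only [id_eq, ofReal_one, one_mul] at i2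
    exact (i1.sub_const _).sub i2
  have hB : ∀ s : ℝ, HasDerivAt (fun s : ℝ => 1 / 2 * (((1 - d) ^ 2)⁻¹ * ‖w - z‖ ^ 2) * s ^ 2)
      (((1 - d) ^ 2)⁻¹ * ‖w - z‖ ^ 2 * s) s := by
    intro s
    have i1 := (hasDerivAt_pow 2 s).const_mul (1 / 2 * (((1 - d) ^ 2)⁻¹ * ‖w - z‖ ^ 2))
    refine i1.congr_deriv ?_
    push_cast
    ring
  have key := image_norm_le_of_norm_deriv_right_le_deriv_boundary (a := 0) (b := 1)
    (f := fun s : ℝ => Lam k (g s) - Lam k z - s * (c * (w - z)))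
    (f' := fun s => (1 + g s) ^ ((k - 1 : ℝ) : ℂ) * (w - z) - c * (w - z))
    (fun s hs => (hf s hs).continuousAt.continuousWithinAt)
    (fun s hs => (hf s ⟨hs.1, hs.2.le⟩).hasDerivWithinAt)
    (B := fun s : ℝ => 1 / 2 * (((1 - d) ^ 2)⁻¹ * ‖w - z‖ ^ 2) * s ^ 2)
    (B' := fun s => ((1 - d) ^ 2)⁻¹ * ‖w - z‖ ^ 2 * s)
    (by simp [hg]) hB
    (fun s hs => by
      rw [← sub_mul, norm_mul]
      have i1 := cp_sub_le h0 h1 hd h (hseg s ⟨hs.1, hs.2.le⟩)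
      have e : g s - z = s * (w - z) := by simp only [hg]; ring
      rw [e, norm_mul, norm_real, Real.norm_eq_abs, abs_of_nonneg hs.1] at i1
      calc ‖(1 + g s) ^ ((k - 1 : ℝ) : ℂ) - c‖ * ‖w - z‖ ≤
          ((1 - d) ^ 2)⁻¹ * (s * ‖w - z‖) * ‖w - z‖ :=
            mul_le_mul_of_nonneg_right i1 (norm_nonneg _)
        _ = _ := by ring)
    (right_mem_Icc.2 zero_le_one)
  simp only [hg, ofReal_one, one_mul, one_pow, mul_one, add_sub_cancel] at key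
  exact key

/-- `|Lam z - z| <= (1/2) |z|^2 / (1-d)^2` -/
theorem Lam_sub_le {k : ℝ} (h0 : 0 < k) (h1 : k ≤ 1) {z : ℂ} {d : ℝ} (hd : d < 1) (h : ‖z‖ ≤ d) :
    ‖Lam k z - z‖ ≤ 1 / 2 * (((1 - d) ^ 2)⁻¹ * ‖z‖ ^ 2) := by
  have hd0 : 0 ≤ d := (norm_nonneg z).trans h
  have h2 := Lam_taylor2 h0 h1 (z := 0) (w := z) hd (by rwa [norm_zero]) h
  simpa [Lam_zero] using h2

end Pool.Agent.H93.MR
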