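import Pool.Agent.H93.MR.Dh
import Pool.Agent.H93.MR.Fn
import Pool.Agent.H93.MR.Lt

/-!
# The derivative, orders at most two: the nonlinear part
-/

open Complex Set Filter Topology MeasureTheory
open scoped ComplexConjugate Real

namespace Pool.Agent.H93.MR

open Pool.Agent.H15.Sig Pool.Agent.H15.DP

variable {F : ℂ → ℂ} {b : ℕ → ℂ} {β : ℝ}

/-- the mean of `conj (u^2) R` vanishes if `R = O(u^4)` -/
theorem conj_mean {R : ℂ → ℂ} {x C : ℝ} (hx0 : 0 < x)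
    (hR : ∀ u : ℂ, ‖u‖ ≤ x → DifferentiableAt ℂ R u)
    (hC : ∀ u : ℂ, ‖u‖ ≤ x → ‖R u‖ ≤ C * ‖u‖ ^ 4) :
    ∫ t in (-π)..π, conj ((x * ec t) ^ 2) * R (x * ec t) = 0 := by
  have hR0 : R 0 = 0 := by
    have := hC 0 (by rw [norm_zero]; exact hx0.le)
    simpa using this
  set G : ℂ → ℂ := fun u => R u / u ^ 2 with hG
  have hG0 : G 0 = 0 := by simp [hG]
  have hGd : ∀ u : ℂ, ‖u‖ ≤ x → DifferentiableAt ℂ G u := by
    intro u hu
    by_cases h0 : u = 0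
    · subst h0
      have hO : G =O[𝓝 0] fun v => ‖v - 0‖ ^ 2 := by
        refine Asymptotics.IsBigO.of_bound C ?_
        filter_upwards [Metric.ball_mem_nhds (0 : ℂ) hx0] with v hv
        rw [mem_ball_zero_iff] at hv
        have h1 := hC v hv.le
        rw [sub_zero, norm_pow, norm_norm]
        by_cases hv0 : v = 0
        · rw [hv0, hG0]; simp
        · have hvp : 0 < ‖v‖ := norm_pos_iff.2 hv0
          simp only [hG]
          rw [norm_div, norm_pow, div_le_iff₀ (by positivity)]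
          calc ‖R v‖ ≤ C * ‖v‖ ^ 4 := h1
            _ = _ := by ring
      exact (hO.hasFDerivAt (𝕜 := ℂ) (by norm_num)).differentiableAt
    · exact (hR u hu).div (by fun_prop) (pow_ne_zero 2 h0)
  have hcl : DiffContOnCl ℂ G (Metric.ball 0 x) := by
    apply DifferentiableOn.diffContOnCl
    rw [closure_ball _ hx0.ne']
    intro u hu
    rw [mem_closedBall_zero_iff] at hu
    exact (hGd u hu).differentiableWithinAt
  have h1 := circle_mean hx0 hcl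
  rw [hG0, mul_zero] at h1
  have h2 : ∀ t : ℝ, conj (((x : ℂ) * ec t) ^ 2) * R (x * ec t) =
      ((x ^ 4 : ℝ) : ℂ) * G (x * ec t) := by
    intro t
    have hn : ‖(x : ℂ) * ec t‖ = x := norm_mul_ec hx0.le t
    set v : ℂ := (x : ℂ) * ec t with hv
    have hv0 : v ≠ 0 := by rw [← norm_pos_iff, hn]; exact hx0
    have h3 : conj v * v = ((x ^ 2 : ℝ) : ℂ) := by
      rw [mul_comm, Complex.mul_conj, Complex.normSq_eq_norm_sq, hn]
    have h4 : conj (v ^ 2) * v ^ 2 = ((x ^ 4 : ℝ) : ℂ) := by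
      rw [map_pow, ← mul_pow, h3]
      push_cast
      ring
    simp only [hG]
    rw [← h4]
    field_simp
  simp_rw [h2]
  rw [intervalIntegral.integral_const_mul, h1, mul_zero]

/-- the remainder in Taylor's formula -/
noncomputable def Rm (k : ℝ) (z e : ℂ) : ℂ :=
  Lam k (z - e) - Lam k z + (1 + z) ^ ((k - 1 : ℝ) : ℂ) * e

theorem Rm_le {k : ℝ} (hk : 0 < k) (hk1 : k ≤ 1) {z e : ℂ} (hz : ‖z‖ ≤ 1 / 3)
    (hw : ‖z - e‖ ≤ 1 / 3) : ‖Rm k z e‖ ≤ 9 / 8 * ‖e‖ ^ 2 := by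
  have h1 := Lam_taylor2 hk hk1 (d := 1 / 3) (by norm_num) hz hw
  have e1 : z - e - z = -e := by ring
  rw [e1, norm_neg] at h1
  have e2 : Lam k (z - e) - Lam k z - (1 + z) ^ ((k - 1 : ℝ) : ℂ) * -e = Rm k z e := by
    unfold Rm; ring
  rw [e2] at h1
  refine h1.trans (le_of_eq ?_)
  norm_num
  ring

/-- the pointwise inequality -/
theorem pt_D {k : ℝ} (hk : 0 < k) (hk1 : k ≤ 1) {z e : ℂ} (hz : ‖z‖ ≤ 1 / 4)
    (hw : ‖z - e‖ ≤ 1 / 3) :
    ‖Lam k (z - e)‖ ^ 2 ≤ ‖Lam k z‖ ^ 2 +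
      2 * (conj (-Lam k z) * ((1 + z) ^ ((k - 1 : ℝ) : ℂ) * e)).re +
      2 * (conj z * Rm k z e).re +
      ‖(1 + z) ^ ((k - 1 : ℝ) : ℂ) * e‖ ^ 2 +
      (2 * ‖z‖ ^ 2 + 3 * ‖e‖ + 81 / 64 * ‖e‖ ^ 2) * ‖e‖ ^ 2 := by
  have h1 := Rm_le hk hk1 (hz.trans (by norm_num)) hw
  have h2 := norm_cp1_le hk hk1 (d := 1 / 4) (by norm_num) hz
  have h3 := Lam_sub_le hk hk1 (d := 1 / 4) (by norm_num) hz
  set P := Lam k z
  set W := (1 + z) ^ ((k - 1 : ℝ) : ℂ)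
  set R := Rm k z e with hR
  have e1 : Lam k (z - e) = P + (R - W * e) := by rw [hR]; unfold Rm; ring
  have hE := norm_nonneg e
  have hZ := norm_nonneg z
  have h5 : ‖P - z‖ ≤ 8 / 9 * ‖z‖ ^ 2 := by
    refine h3.trans (le_of_eq ?_)
    norm_num
    ring
  have h6 : ‖W‖ ≤ 4 / 3 := by
    norm_num at h2
    linarith
  have h7 : (conj (P - z) * R).re ≤ ‖z‖ ^ 2 * ‖e‖ ^ 2 := by
    have i1 := Complex.re_le_norm (conj (P - z) * R)
    rw [norm_mul, Complex.norm_conj] at i1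
    have i2 := mul_le_mul h5 h1 (norm_nonneg _) (by positivity)
    refine i1.trans (i2.trans (le_of_eq ?_))
    ring
  have h8 : ‖R - W * e‖ ^ 2 ≤ ‖W * e‖ ^ 2 + (3 * ‖e‖ + 81 / 64 * ‖e‖ ^ 2) * ‖e‖ ^ 2 := by
    have i1 := norm_sub_le R (W * e)
    have i2 := pow_le_pow_left₀ (norm_nonneg _) i1 2
    have i3 : ‖W * e‖ ≤ 4 / 3 * ‖e‖ := by
      rw [norm_mul]
      exact mul_le_mul_of_nonneg_right h6 hE
    have i4 : ‖R‖ * ‖W * e‖ ≤ 9 / 8 * ‖e‖ ^ 2 * (4 / 3 * ‖e‖) :=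
      mul_le_mul h1 i3 (norm_nonneg _) (by positivity)
    have i5 : ‖R‖ ^ 2 ≤ (9 / 8 * ‖e‖ ^ 2) ^ 2 := pow_le_pow_left₀ (norm_nonneg _) h1 2
    nlinarith
  have e2 : (conj P * (R - W * e)).re =
      (conj (-P) * (W * e)).re + (conj z * R).re + (conj (P - z) * R).re := by
    rw [← add_re, ← add_re]
    congr 1
    rw [map_neg, map_sub]
    ring
  rw [e1, norm_add_sq_c, e2]
  linarith

end Pool.Agent.H93.MR
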