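import Pool.Agent.H93.MR.Rc

/-!
# A combination of `Re b_3` and `Re b_5`

`- x Re b_3 + y Re b_5 <= (9 x - 25 y) (1 - Re b_1)` for `0 <= y`, `25 y <= 3 x`.
-/

open Complex MeasureTheory Set Filter Topology
open scoped ComplexConjugate Real

namespace Pool.Agent.H93.MR

open Pool.Agent.H36.SZ Pool.Agent.H15.Sig

theorem pair_sin {x y t : ℝ} (hy : 0 ≤ y) (hxy : 25 * y ≤ 3 * x) (h : 0 ≤ Real.sin t) :
    3 * x * Real.sin (3 * t) - 5 * y * Real.sin (5 * t) ≤ (9 * x - 25 * y) * Real.sin t := by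
  have e3 : Real.sin (3 * t) = Real.sin t * (3 - 4 * Real.sin t ^ 2) := by
    rw [Real.sin_three_mul]; ring
  have hc : Real.cos t ^ 2 = 1 - Real.sin t ^ 2 := by
    have := Real.sin_sq_add_cos_sq t
    linarith
  have e5 : Real.sin (5 * t) = Real.sin t * (5 - 20 * Real.sin t ^ 2 + 16 * Real.sin t ^ 4) := by
    rw [sin_five]
    have e : Real.cos t ^ 4 = (Real.cos t ^ 2) ^ 2 := by ring
    rw [e, hc]
    ring
  rw [e3, e5]
  have h1 : 0 ≤ Real.sin t * Real.sin t ^ 2 * (12 * x - 100 * y + 80 * y * Real.sin t ^ 2) := by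
    have : 0 ≤ 80 * y * Real.sin t ^ 2 := by positivity
    have : 0 ≤ 12 * x - 100 * y + 80 * y * Real.sin t ^ 2 := by linarith
    positivity
  nlinarith

theorem Sg_pair {F : ℂ → ℂ} {b : ℕ → ℂ} {q : ℝ} (h : Sg F b q) {x y : ℝ} (hy : 0 ≤ y)
    (hxy : 25 * y ≤ 3 * x) :
    -x * (b 3).re + y * (b 5).re ≤ (9 * x - 25 * y) * (1 - (b 1).re) := by
  have hpi := Real.pi_pos
  have h1 := h.hb_sin (m := 1) le_rfl
  have h2 := h.hb_sin (m := 5) (by omega)
  have h3 := h.hb_sin (m := 3) (by omega)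
  have hc := h.hb_cont
  rw [if_neg (by omega), zero_sub] at h2 h3
  rw [if_pos rfl] at h1
  have i3 : IntervalIntegrable (fun β : ℝ => 3 * x * (hb b β * Real.sin ((3 : ℕ) * β))) volume 0 π :=
    (continuous_const.mul (hc.mul (by fun_prop))).intervalIntegrable _ _
  have i5 : IntervalIntegrable (fun β : ℝ => 5 * y * (hb b β * Real.sin ((5 : ℕ) * β))) volume 0 π :=
    (continuous_const.mul (hc.mul (by fun_prop))).intervalIntegrable _ _
  have h4 : ∫ β in (0 : ℝ)..π, (3 * x * (hb b β * Real.sin ((3 : ℕ) * β)) -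
      5 * y * (hb b β * Real.sin ((5 : ℕ) * β))) ≤
      ∫ β in (0 : ℝ)..π, (9 * x - 25 * y) * (hb b β * Real.sin ((1 : ℕ) * β)) := by
    refine intervalIntegral.integral_mono_on hpi.le (i3.sub i5) ?_ ?_
    · exact (continuous_const.mul (hc.mul (by fun_prop))).intervalIntegrable _ _
    · intro β hβ
      have h4 := h.hb_nonneg hβ.1 hβ.2
      have h6 : 0 ≤ Real.sin β := Real.sin_nonneg_of_nonneg_of_le_pi hβ.1 hβ.2
      have h5 := mul_le_mul_of_nonneg_left (pair_sin hy hxy h6) h4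
      rw [Nat.cast_one, one_mul]
      push_cast
      linarith
  rw [intervalIntegral.integral_sub i3 i5, intervalIntegral.integral_const_mul,
    intervalIntegral.integral_const_mul, intervalIntegral.integral_const_mul, h1, h2, h3] at h4
  push_cast at h4
  have h7 : π / 2 * (-x * (b 3).re + y * (b 5).re) ≤
      π / 2 * ((9 * x - 25 * y) * (1 - (b 1).re)) := by
    linarith
  exact le_of_mul_le_mul_left h7 (by positivity)

theorem re_pair {F : ℂ → ℂ} {b : ℕ → ℂ} (h : IsSig F b) {x y : ℝ} (hy : 0 ≤ y)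
    (hxy : 25 * y ≤ 3 * x) :
    -x * (b 3).re + y * (b 5).re ≤ (9 * x - 25 * y) * (1 - (b 1).re) := by
  have hev : ∀ᶠ p : ℝ in 𝓝[>] 1, -x * (b 3 * ((p : ℂ)⁻¹) ^ (3 + 1)).re +
      y * (b 5 * ((p : ℂ)⁻¹) ^ (5 + 1)).re ≤
      (9 * x - 25 * y) * (1 - (b 1 * ((p : ℂ)⁻¹) ^ (1 + 1)).re) := by
    filter_upwards [self_mem_nhdsWithin] with p hp
    exact Sg_pair (dil h hp) hy hxy
  have hc : ∀ k : ℕ, Tendsto (fun p : ℝ => (b k * ((p : ℂ)⁻¹) ^ (k + 1)).re) (𝓝[>] 1)
      (𝓝 (b k).re) := by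
    intro k
    have h1 : ContinuousAt (fun p : ℝ => (b k * ((p : ℂ)⁻¹) ^ (k + 1)).re) 1 := by
      have h2 : ContinuousAt (fun p : ℝ => ((p : ℂ)⁻¹)) 1 :=
        (Complex.continuous_ofReal.continuousAt).inv₀ (by simp)
      exact Complex.continuous_re.continuousAt.comp (continuousAt_const.mul (h2.pow (k + 1)))
    have h3 := h1.tendsto
    simp only [ofReal_one, inv_one, one_pow, mul_one] at h3
    exact h3.mono_left nhdsWithin_le_nhds
  have h1 := ((hc 3).const_mul (-x)).add ((hc 5).const_mul y)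
  have h2 : Tendsto (fun p : ℝ => (9 * x - 25 * y) * (1 - (b 1 * ((p : ℂ)⁻¹) ^ (1 + 1)).re))
      (𝓝[>] 1) (𝓝 ((9 * x - 25 * y) * (1 - (b 1).re))) :=
    (tendsto_const_nhds.sub (hc 1)).const_mul _
  exact le_of_tendsto_of_tendsto h1 h2 hev

end Pool.Agent.H93.MR
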