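import Pool.Agent.H93.MR.Ln
import Pool.Agent.H93.MR.Gc

/-!
# The linear part for radii at least `8/5`
-/

open Complex Set Filter Topology MeasureTheory
open scoped ComplexConjugate Real

namespace Pool.Agent.H93.MR

open Pool.Agent.H15.Sig

variable {F : ℂ → ℂ} {b : ℕ → ℂ} {β : ℝ}

private noncomputable def fj (j : ℕ) : ℝ := if Even j ∧ 4 ≤ j then ((j : ℝ) - 1) ^ 2 else 0

private theorem fj_nn (j : ℕ) : 0 ≤ fj j := by
  unfold fj
  split_ifs
  · positivity
  · exact le_rfl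

/-- the sum of the odd squares from `9` to `(2m+3)^2` -/
noncomputable def qu (m : ℕ) : ℝ := ((m : ℝ) + 2) * (4 * ((m : ℝ) + 2) ^ 2 - 1) / 3 - 1

private theorem sum_fj (m : ℕ) : ∑ j ∈ Finset.range (2 * m + 5), fj j = qu m := by
  induction m with
  | zero =>
    simp only [Finset.sum_range_succ, Finset.sum_range_zero, fj, qu]
    norm_num [Nat.even_iff]
  | succ m ih =>
    rw [show 2 * (m + 1) + 5 = 2 * m + 5 + 1 + 1 by ring, Finset.sum_range_succ,
      Finset.sum_range_succ, ih]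
    have h1 : fj (2 * m + 5) = 0 := by
      unfold fj
      rw [if_neg]
      rintro ⟨h, _⟩
      rw [Nat.even_iff] at h
      omega
    have h2 : fj (2 * m + 5 + 1) = (2 * (m : ℝ) + 5) ^ 2 := by
      unfold fj
      rw [if_pos ⟨by rw [Nat.even_iff]; omega, by omega⟩]
      push_cast
      ring
    rw [h1, h2]
    unfold qu
    push_cast
    ring

/-- `(4 M^2 - 1) / 3 <= 21 (8/5)^(M-4)` -/
private theorem qv_le (m : ℕ) : (4 * ((m : ℝ) + 4) ^ 2 - 1) / 3 ≤ 21 * (8 / 5) ^ m := by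
  induction m with
  | zero => norm_num
  | succ m ih =>
    have hm : (0 : ℝ) ≤ m := by positivity
    rw [pow_succ (8 / 5 : ℝ)]
    push_cast
    nlinarith

private theorem qu_le (m : ℕ) : qu (m + 2) ≤ ((m : ℝ) + 4) * (21 * (8 / 5) ^ m) := by
  have h := qv_le m
  have hm : (0 : ℝ) < (m : ℝ) + 4 := by positivity
  have h2 := mul_le_mul_of_nonneg_left h hm.le
  unfold qu
  push_cast
  rw [show (m : ℝ) + 2 + 2 = m + 4 by ring]
  linarith

/-- the coefficients of `(1 + β u^2)^(k-1) Ee` -/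
theorem re_coeff_le2 (h : Nrm F b β) {k : ℝ} (hk : 0 ≤ k) (hk1 : k ≤ 1) (m : ℕ) :
    |(PowerSeries.coeff (2 * m + 4) (evS (sc k) β * eeS b)).re| ≤ (1 - β) * qu m := by
  have hβ := h.beta_le
  have h0 := h.nn
  rw [PowerSeries.coeff_mul, re_sum]
  have h1 : ∀ p ∈ Finset.HasAntidiagonal.antidiagonal (2 * m + 4),
      |(PowerSeries.coeff p.1 (evS (sc k) β) * PowerSeries.coeff p.2 (eeS b)).re| ≤
        (1 - β) * fj p.2 := by
    intro p hp
    rw [Finset.HasAntidiagonal.mem_antidiagonal] at hp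
    by_cases he : Even p.1
    · obtain ⟨i, hi⟩ := he
      rw [hi, ← two_mul, coeff_evS_even, re_ofReal_mul, abs_mul]
      have h2 : |sc k i * β ^ i| ≤ 1 := by
        rw [abs_mul]
        have h3 := abs_sc_le hk hk1 i
        have h4 : |β ^ i| ≤ 1 := by
          rw [abs_of_nonneg (by positivity)]
          exact pow_le_one₀ h0 hβ
        calc |sc k i| * |β ^ i| ≤ 1 * 1 := mul_le_mul h3 h4 (abs_nonneg _) (by norm_num)
          _ = 1 := one_mul 1
      by_cases hj : p.2 ≤ 2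
      · rw [eeS_small hj, zero_re, abs_zero, mul_zero]
        exact mul_nonneg (by linarith) (fj_nn _)
      · have h5 := eeS_re h (j := p.2) (by omega)
        have h6 : fj p.2 = ((p.2 : ℝ) - 1) ^ 2 := by
          unfold fj
          rw [if_pos ⟨by rw [Nat.even_iff]; omega, by omega⟩]
        rw [h6]
        calc |sc k i * β ^ i| * |(PowerSeries.coeff p.2 (eeS b)).re| ≤
            1 * (((p.2 : ℝ) - 1) ^ 2 * (1 - β)) := mul_le_mul h2 h5 (abs_nonneg _) (by norm_num)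
          _ = _ := by ring
    · rw [coeff_evS_odd _ _ he, zero_mul, zero_re, abs_zero]
      exact mul_nonneg (by linarith) (fj_nn _)
  refine (Finset.abs_sum_le_sum_abs _ _).trans ((Finset.sum_le_sum h1).trans ?_)
  rw [← Finset.mul_sum]
  have h2 : ∑ p ∈ Finset.HasAntidiagonal.antidiagonal (2 * m + 4), fj p.2 =
      ∑ j ∈ Finset.range (2 * m + 5), fj j := by
    rw [← Finset.Nat.sum_antidiagonal_swap]
    simp only [Prod.snd_swap]
    rw [Finset.Nat.sum_antidiagonal_eq_sum_range_succ_mk]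
  rw [h2, sum_fj]

theorem coefF4 (k : ℝ) : PowerSeries.coeff 4 (evS (sc k) β * eeS b) = b 3 := by
  rw [PowerSeries.coeff_mul, Finset.Nat.sum_antidiagonal_eq_sum_range_succ_mk]
  simp only [Finset.sum_range_succ, Finset.sum_range_zero]
  simp [evS, eeS, sc_zero, Nat.even_iff]

theorem coefF6 (k : ℝ) : PowerSeries.coeff 6 (evS (sc k) β * eeS b) =
    b 5 + ((sc k 1 * β : ℝ) : ℂ) * b 3 := by
  rw [PowerSeries.coeff_mul, Finset.Nat.sum_antidiagonal_eq_sum_range_succ_mk]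
  simp only [Finset.sum_range_succ, Finset.sum_range_zero]
  simp [evS, eeS, sc_zero, Nat.even_iff]

theorem sc_one (k : ℝ) : sc k 1 = k - 1 := by
  have h := sc_succ k 0
  rw [sc_zero] at h
  push_cast at h
  linarith

theorem sc_two (k : ℝ) : sc k 2 = (k - 1) * (k - 2) / 2 := by
  have h := sc_succ k 1
  rw [sc_one] at h
  push_cast at h
  have e : sc k (1 + 1) = sc k 2 := rfl
  rw [e] at h
  linarith

theorem lc_two (k : ℝ) : lc k 2 = (k - 1) / 2 := by
  have h := lc_succ k 1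
  rw [sc_one] at h
  push_cast at h
  have e : lc k (1 + 1) = lc k 2 := rfl
  rw [e] at h
  rw [h]
  ring

theorem lc_three (k : ℝ) : lc k 3 = (k - 1) * (k - 2) / 6 := by
  have h := lc_succ k 2
  rw [sc_two] at h
  push_cast at h
  have e : lc k (2 + 1) = lc k 3 := rfl
  rw [e] at h
  rw [h]
  ring

theorem abs_lc_succ_le {k : ℝ} (h0 : 0 ≤ k) (h1 : k ≤ 1) (n : ℕ) :
    |lc k (n + 1)| ≤ 1 / ((n : ℝ) + 1) := by
  rw [lc_succ, abs_div, abs_of_pos (by positivity : (0 : ℝ) < (n : ℝ) + 1)]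
  exact div_le_div_of_nonneg_right (abs_sc_le h0 h1 n) (by positivity)

/-- the first two terms -/
theorem two_terms (h : Nrm F b β) {k : ℝ} (hk : 0 ≤ k) (hk1 : k ≤ 1) {g : ℝ} (hg0 : 0 ≤ g)
    (hg : g ≤ 4 / 25) :
    lc k 2 * β ^ 2 * g ^ 2 * (b 3).re +
      lc k 3 * β ^ 3 * g ^ 3 * (b 5 + ((sc k 1 * β : ℝ) : ℂ) * b 3).re ≤
      (9 / 2 * β ^ 2 * g ^ 2 - 16 / 3 * β ^ 3 * g ^ 3) * (1 - β) := by
  have hβ := h.beta_le
  have h0 := h.nn
  rw [add_re, re_ofReal_mul, lc_two, lc_three, sc_one]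
  set s := 1 - k with hs
  have hs0 : 0 ≤ s := by rw [hs]; linarith
  have hs1 : s ≤ 1 := by rw [hs]; linarith
  have ek : k = 1 - s := by rw [hs]; ring
  rw [ek]
  set x := s / 2 * β ^ 2 * g ^ 2 + s ^ 2 * (1 + s) / 6 * β ^ 4 * g ^ 3 with hx
  set y := s * (1 + s) / 6 * β ^ 3 * g ^ 3 with hy
  have hy0 : 0 ≤ y := by rw [hy]; positivity
  have hb1 : β * g ≤ 4 / 25 := by nlinarith
  have hbg : 0 ≤ β * g := by positivity
  set w := s * β ^ 2 * g ^ 2 with hw
  have hw0 : 0 ≤ w := by rw [hw]; positivity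
  have ex : x = w / 2 + s * (1 + s) / 6 * β * (β * g) * w := by rw [hx, hw]; ring
  have ey : y = (1 + s) / 6 * (β * g) * w := by rw [hy, hw]; ring
  have hxy : 25 * y ≤ 3 * x := by
    have i1 : 0 ≤ s * (1 + s) / 6 * β * (β * g) * w := by positivity
    have i2 : (1 + s) / 6 * (β * g) ≤ 2 / 6 * (4 / 25) := by
      exact mul_le_mul (by linarith) hb1 hbg (by norm_num)
    have i3 := mul_le_mul_of_nonneg_right i2 hw0
    rw [ex, ey]
    nlinarith
  have h1 := re_pair h.sig hy0 hxy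
  rw [h.b1, ofReal_re] at h1
  have e1 : (1 - s - 1) / 2 * β ^ 2 * g ^ 2 * (b 3).re +
      (1 - s - 1) * (1 - s - 2) / 6 * β ^ 3 * g ^ 3 * ((b 5).re + (1 - s - 1) * β * (b 3).re) =
      -x * (b 3).re + y * (b 5).re := by
    rw [hx, hy]; ring
  rw [e1]
  refine h1.trans (mul_le_mul_of_nonneg_right ?_ (by linarith))
  -- `9 x - 25 y <= (9/2) β^2 g^2 - (16/3) β^3 g^3`
  have hv0 : 0 ≤ β ^ 2 * g ^ 2 := by positivity
  set v := β ^ 2 * g ^ 2 with hv
  have e2 : w = s * v := by rw [hw, hv]; ring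
  have e3 : 9 / 2 * β ^ 2 * g ^ 2 - 16 / 3 * β ^ 3 * g ^ 3 = (9 / 2 - 16 / 3 * (β * g)) * v := by
    rw [hv]; ring
  have e4 : 9 * x - 25 * y = (9 / 2 * s + 9 * (s ^ 2 * (1 + s) / 6) * β * (β * g) -
      25 * (s * (1 + s) / 6) * (β * g)) * v := by
    rw [ex, ey, e2]; ring
  rw [e3, e4]
  refine mul_le_mul_of_nonneg_right ?_ hv0
  have i1 : 9 * (s ^ 2 * (1 + s) / 6) * β * (β * g) ≤ 9 * (s ^ 2 * (1 + s) / 6) * (β * g) := by
    have : 0 ≤ 9 * (s ^ 2 * (1 + s) / 6) * (β * g) := by positivity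
    nlinarith
  -- with `t = β g <= 4/25`
  set t := β * g with ht
  have i2 : 9 / 2 * s + 9 * (s ^ 2 * (1 + s) / 6) * t - 25 * (s * (1 + s) / 6) * t ≤
      9 / 2 - 16 / 3 * t := by
    have j1 : 9 / 2 - 16 / 3 * t -
        (9 / 2 * s + 9 * (s ^ 2 * (1 + s) / 6) * t - 25 * (s * (1 + s) / 6) * t) =
        (1 - s) * (9 / 2 - t * (16 / 3 + 7 / 6 * s - 3 / 2 * s ^ 2)) := by ring
    have j2 : t * (16 / 3 + 7 / 6 * s - 3 / 2 * s ^ 2) ≤ 4 / 25 * (16 / 3 + 7 / 6) := by
      have j3 : 16 / 3 + 7 / 6 * s - 3 / 2 * s ^ 2 ≤ 16 / 3 + 7 / 6 := by nlinarith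
      have j4 : 0 ≤ 16 / 3 + 7 / 6 * s - 3 / 2 * s ^ 2 := by nlinarith
      exact mul_le_mul hb1 j3 j4 (by norm_num)
    have j5 : 0 ≤ (1 - s) * (9 / 2 - t * (16 / 3 + 7 / 6 * s - 3 / 2 * s ^ 2)) :=
      mul_nonneg (by linarith) (by linarith)
    linarith
  linarith

/-- the linear part -/
theorem lin_le2 (h : Nrm F b β) {k : ℝ} (hk : 0 < k) (hk1 : k ≤ 1) {x : ℝ} (hx0 : 0 ≤ x)
    (hx : x ≤ 5 / 8) :
    (∫ t in (-π)..π, conj (Lam k (β * (x * ec t) ^ 2)) *
      ((1 + β * (x * ec t) ^ 2) ^ ((k - 1 : ℝ) : ℂ) * Ee b β (x * ec t))).re ≤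
      2 * π * ((9 / 2 * β ^ 2 * x ^ 8 - 16 / 3 * β ^ 3 * x ^ 12 + 28 * β ^ 4 * x ^ 16) *
        (1 - β)) := by
  have hpi := Real.pi_pos
  have hβ := h.beta_le
  have h0 := h.nn
  have hx1 : x < 1 := by linarith
  have i7 : x ^ 4 ≤ 625 / 4096 := by
    calc x ^ 4 ≤ (5 / 8) ^ 4 := pow_le_pow_left₀ hx0 hx 4
      _ = 625 / 4096 := by norm_num
  have hrW := (rep_W k h0 hβ).mul (rep_E h)
  have h1 := hasSum_re ((rep_P hk h0 hβ).parseval hrW hx0 hx1)
  have hinj : Function.Injective fun m : ℕ => 2 * m + 4 := fun a b hab => by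
    simpa using hab
  rw [← hinj.hasSum_iff] at h1
  · set f : ℕ → ℝ := fun m => 2 * π * (lc k (m + 2) * β ^ (m + 2)) * x ^ (4 * (m + 2)) *
      (PowerSeries.coeff (2 * m + 4) (evS (sc k) β * eeS b)).re with hf
    have h2 : HasSum f (∫ t in (-π)..π, conj (Lam k (β * (x * ec t) ^ 2)) *
      ((1 + β * (x * ec t) ^ 2) ^ ((k - 1 : ℝ) : ℂ) * Ee b β (x * ec t))).re := by
      refine h1.congr_fun ?_ |> fun h => h
      intro m
      simp only [Function.comp, hf]
      have e0 : PowerSeries.coeff (2 * m + 4) (evS (lc k) β) =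
          ((lc k (m + 2) * β ^ (m + 2) : ℝ) : ℂ) := by
        rw [show 2 * m + 4 = 2 * (m + 2) by ring, coeff_evS_even]
      rw [e0, conj_ofReal]
      have e2 : ((2 * π : ℂ) * ((((lc k (m + 2) * β ^ (m + 2) : ℝ)) : ℂ) *
          PowerSeries.coeff (2 * m + 4) (evS (sc k) β * eeS b)) * x ^ (2 * (2 * m + 4))) =
          ((2 * π * (lc k (m + 2) * β ^ (m + 2)) * x ^ (4 * (m + 2)) : ℝ) : ℂ) *
            PowerSeries.coeff (2 * m + 4) (evS (sc k) β * eeS b) := by
        rw [show 2 * (2 * m + 4) = 4 * (m + 2) by ring]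
        push_cast
        ring
      rw [e2, re_ofReal_mul]
    have h3 := (hasSum_nat_add_iff' 2).2 h2
    have hg : HasSum (fun m : ℕ => 2 * π * 21 * β ^ 4 * x ^ 16 * (1 - β) *
        (125 / 512 : ℝ) ^ m) (2 * π * 21 * β ^ 4 * x ^ 16 * (1 - β) * (1 - 125 / 512)⁻¹) :=
      (hasSum_geometric_of_lt_one (by norm_num) (by norm_num)).mul_left _
    have h4 := hasSum_le (fun m => by
      simp only [hf]
      have i1 := re_coeff_le2 h hk.le hk1 (m + 2)
      have i2 := qu_le m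
      have i3 : |lc k (m + 2 + 2)| ≤ 1 / ((m : ℝ) + 4) := by
        have j1 := abs_lc_succ_le hk.le hk1 (m + 3)
        rw [show m + 3 + 1 = m + 2 + 2 by ring] at j1
        refine j1.trans (le_of_eq ?_)
        push_cast
        ring
      have i5 : β ^ (m + 2 + 2) ≤ β ^ 4 := pow_le_pow_of_le_one h0 hβ (by omega)
      have i6 : x ^ (4 * (m + 2 + 2)) = x ^ 16 * (x ^ 4) ^ m := by
        rw [← pow_mul, ← pow_add]; congr 1; ring
      have i8 : (x ^ 4) ^ m ≤ (625 / 4096 : ℝ) ^ m := pow_le_pow_left₀ (by positivity) i7 m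
      have hm : (0 : ℝ) < (m : ℝ) + 4 := by positivity
      have i9 : |(PowerSeries.coeff (2 * (m + 2) + 4) (evS (sc k) β * eeS b)).re| ≤
          (1 - β) * (((m : ℝ) + 4) * (21 * (8 / 5) ^ m)) :=
        i1.trans (mul_le_mul_of_nonneg_left i2 (by linarith))
      have j1 : |2 * π * (lc k (m + 2 + 2) * β ^ (m + 2 + 2)) * x ^ (4 * (m + 2 + 2))| ≤
          2 * π * (1 / ((m : ℝ) + 4) * β ^ 4) * (x ^ 16 * (625 / 4096 : ℝ) ^ m) := by
        rw [i6, abs_mul, abs_mul, abs_mul (lc k (m + 2 + 2)),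
          abs_of_pos (by positivity : 0 < 2 * π),
          abs_of_nonneg (by positivity : 0 ≤ β ^ (m + 2 + 2)),
          abs_of_nonneg (by positivity : 0 ≤ x ^ 16 * (x ^ 4) ^ m)]
        refine mul_le_mul (mul_le_mul_of_nonneg_left
          (mul_le_mul i3 i5 (by positivity) (by positivity)) (by positivity))
          (mul_le_mul_of_nonneg_left i8 (by positivity)) (by positivity) (by positivity)
      calc _ ≤ |2 * π * (lc k (m + 2 + 2) * β ^ (m + 2 + 2)) * x ^ (4 * (m + 2 + 2)) *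
            (PowerSeries.coeff (2 * (m + 2) + 4) (evS (sc k) β * eeS b)).re| := le_abs_self _
        _ = |2 * π * (lc k (m + 2 + 2) * β ^ (m + 2 + 2)) * x ^ (4 * (m + 2 + 2))| *
            |(PowerSeries.coeff (2 * (m + 2) + 4) (evS (sc k) β * eeS b)).re| := abs_mul _ _
        _ ≤ 2 * π * (1 / ((m : ℝ) + 4) * β ^ 4) * (x ^ 16 * (625 / 4096 : ℝ) ^ m) *
            ((1 - β) * (((m : ℝ) + 4) * (21 * (8 / 5) ^ m))) :=
              mul_le_mul j1 i9 (abs_nonneg _) (by positivity)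
        _ = 2 * π * 21 * β ^ 4 * x ^ 16 * (1 - β) * ((625 / 4096 : ℝ) ^ m * (8 / 5) ^ m) := by
            field_simp
        _ = 2 * π * 21 * β ^ 4 * x ^ 16 * (1 - β) * (125 / 512 : ℝ) ^ m := by
            rw [← mul_pow]; norm_num) h3 hg
    rw [Finset.sum_range_succ, Finset.sum_range_succ, Finset.sum_range_zero, zero_add] at h4
    have k0 : f 0 + f 1 ≤ 2 * π * ((9 / 2 * β ^ 2 * x ^ 8 - 16 / 3 * β ^ 3 * x ^ 12) *
        (1 - β)) := by
      have i1 := two_terms h hk.le hk1 (g := x ^ 4) (by positivity) (by linarith)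
      have e4 : PowerSeries.coeff (2 * 0 + 4) (evS (sc k) β * eeS b) = b 3 := coefF4 k
      have e6 : PowerSeries.coeff (2 * 1 + 4) (evS (sc k) β * eeS b) =
          b 5 + ((sc k 1 * β : ℝ) : ℂ) * b 3 := coefF6 k
      simp only [hf]
      rw [e4, e6]
      have i2 := mul_le_mul_of_nonneg_left i1 (by positivity : 0 ≤ 2 * π)
      have e8 : (x ^ 4) ^ 2 = x ^ 8 := by ring
      have e12 : (x ^ 4) ^ 3 = x ^ 12 := by ring
      rw [e8, e12] at i2
      refine le_trans (le_of_eq ?_) i2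
      have n1 : 4 * (0 + 2) = 8 := by norm_num
      have n2 : 4 * (1 + 2) = 12 := by norm_num
      rw [n1, n2]
      norm_num
      ring
    have k2 : 2 * π * 21 * β ^ 4 * x ^ 16 * (1 - β) * (1 - 125 / 512)⁻¹ ≤
        2 * π * (28 * β ^ 4 * x ^ 16 * (1 - β)) := by
      have j1 : 0 ≤ 2 * π * β ^ 4 * x ^ 16 * (1 - β) := mul_nonneg (by positivity) (by linarith)
      have j2 : 21 * (1 - 125 / 512 : ℝ)⁻¹ ≤ 28 := by norm_num
      have j3 := mul_le_mul_of_nonneg_left j2 j1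
      linarith
    linarith
  · intro j hj
    have hz : conj (PowerSeries.coeff j (evS (lc k) β)) *
        PowerSeries.coeff j (evS (sc k) β * eeS b) = 0 := by
      by_cases he : Even j
      · obtain ⟨m, rfl⟩ := he
        have hm : m < 2 := by
          by_contra hm
          exact hj ⟨m - 2, by simp only; omega⟩
        interval_cases m
        · have : PowerSeries.coeff (0 + 0) (evS (lc k) β) = 0 := by
            have := coeff_evS_even (lc k) β 0
            simpa [lc_zero] using this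
          rw [this, map_zero, zero_mul]
        · have : PowerSeries.coeff (1 + 1) (evS (sc k) β * eeS b) = 0 := by
            rw [PowerSeries.coeff_mul]
            refine Finset.sum_eq_zero fun p hp => ?_
            rw [Finset.HasAntidiagonal.mem_antidiagonal] at hp
            rw [eeS_small (by omega), mul_zero]
          rw [this, mul_zero]
      · rw [coeff_evS_odd _ _ he, map_zero, zero_mul]
    rw [hz, mul_zero, zero_mul]
    simp

end Pool.Agent.H93.MR
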