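import Pool.Agent.H93.MR.Dv
import Pool.Agent.H93.MR.Gl

/-!
# The nonlinear part for radii at least `8/5`
-/

open Complex Set Filter Topology MeasureTheory
open scoped ComplexConjugate Real

namespace Pool.Agent.H93.MR

open Pool.Agent.H15.Sig

variable {F : ℂ → ℂ} {b : ℕ → ℂ} {β : ℝ}

/-- the mean of `conj (u^j) R` vanishes if `R = O(u^(j+2))` -/
theorem conj_mean_j {R : ℂ → ℂ} {x C : ℝ} (hx0 : 0 < x) (j : ℕ)
    (hR : ∀ u : ℂ, ‖u‖ ≤ x → DifferentiableAt ℂ R u)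
    (hC : ∀ u : ℂ, ‖u‖ ≤ x → ‖R u‖ ≤ C * ‖u‖ ^ (j + 2)) :
    ∫ t in (-π)..π, conj ((x * ec t) ^ j) * R (x * ec t) = 0 := by
  have hR0 : R 0 = 0 := by
    have := hC 0 (by rw [norm_zero]; exact hx0.le)
    simpa using this
  set G : ℂ → ℂ := fun u => R u / u ^ j with hG
  have hG0 : G 0 = 0 := by simp only [hG]; rw [hR0, zero_div]
  have hGd : ∀ u : ℂ, ‖u‖ ≤ x → DifferentiableAt ℂ G u := by
    intro u hu
    by_cases h0 : u = 0
    · subst h0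
      have hO : G =O[𝓝 0] fun v => ‖v - 0‖ ^ 2 := by
        refine Asymptotics.IsBigO.of_bound C ?_
        filter_upwards [Metric.ball_mem_nhds (0 : ℂ) hx0] with v hv
        rw [mem_ball_zero_iff] at hv
        have h1 := hC v hv.le
        rw [sub_zero, norm_pow, norm_norm]
        by_cases hv0 : v = 0
        · rw [hv0, hG0]; simp
        · have hvp : 0 < ‖v‖ := norm_pos_iff.2 hv0
          simp only [hG]
          rw [norm_div, norm_pow, div_le_iff₀ (by positivity)]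
          calc ‖R v‖ ≤ C * ‖v‖ ^ (j + 2) := h1
            _ = _ := by ring
      exact (hO.hasFDerivAt (𝕜 := ℂ) (by norm_num)).differentiableAt
    · exact (hR u hu).div (by fun_prop) (pow_ne_zero j h0)
  have hcl : DiffContOnCl ℂ G (Metric.ball 0 x) := by
    apply DifferentiableOn.diffContOnCl
    rw [closure_ball _ hx0.ne']
    intro u hu
    rw [mem_closedBall_zero_iff] at hu
    exact (hGd u hu).differentiableWithinAt
  have h1 := circle_mean hx0 hcl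
  rw [hG0, mul_zero] at h1
  have h2 : ∀ t : ℝ, conj (((x : ℂ) * ec t) ^ j) * R (x * ec t) =
      (((x ^ 2) ^ j : ℝ) : ℂ) * G (x * ec t) := by
    intro t
    have hn : ‖(x : ℂ) * ec t‖ = x := norm_mul_ec hx0.le t
    set v : ℂ := (x : ℂ) * ec t with hv
    have hv0 : v ≠ 0 := by rw [← norm_pos_iff, hn]; exact hx0
    have h3 : conj v * v = ((x ^ 2 : ℝ) : ℂ) := by
      rw [mul_comm, Complex.mul_conj, Complex.normSq_eq_norm_sq, hn]
    have h4 : conj (v ^ j) * v ^ j = (((x ^ 2) ^ j : ℝ) : ℂ) := by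
      rw [map_pow, ← mul_pow, h3]
      push_cast
      ring
    simp only [hG]
    rw [← h4]
    field_simp
  simp_rw [h2]
  rw [intervalIntegral.integral_const_mul, h1, mul_zero]

/-- the third order remainder of `Lam k` -/
theorem Lam_three {k : ℝ} (h0 : 0 < k) (h1 : k ≤ 1) {z : ℂ} (hz : ‖z‖ ≤ 25 / 64) :
    ‖Lam k z - (z + ((lc k 2 : ℝ) : ℂ) * z ^ 2)‖ ≤ 64 / 117 * ‖z‖ ^ 3 := by
  have hs := (hasSum_nat_add_iff' 3).2 (hasSum_Lam h0 (z := z) (lt_of_le_of_lt hz (by norm_num)))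
  have e : Lam k z - ∑ i ∈ Finset.range 3, ((lc k i : ℝ) : ℂ) * z ^ i =
      Lam k z - (z + ((lc k 2 : ℝ) : ℂ) * z ^ 2) := by
    simp only [Finset.sum_range_succ, Finset.sum_range_zero, lc_zero, lc_one]
    push_cast
    ring
  rw [e] at hs
  have hg : HasSum (fun m : ℕ => 1 / 3 * ‖z‖ ^ 3 * (25 / 64 : ℝ) ^ m)
      (1 / 3 * ‖z‖ ^ 3 * (1 - 25 / 64)⁻¹) :=
    (hasSum_geometric_of_lt_one (by norm_num) (by norm_num)).mul_left _
  have h2 := hs.norm_le_of_bounded hg (fun m => by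
    rw [norm_mul, norm_pow, norm_real, Real.norm_eq_abs]
    have h3 : |lc k (m + 3)| ≤ 1 / 3 := by
      have h4 := abs_lc_succ_le h0.le h1 (m + 2)
      refine h4.trans ?_
      refine one_div_le_one_div_of_le (by norm_num) ?_
      push_cast
      have : (0 : ℝ) ≤ m := by positivity
      linarith
    have h4 : ‖z‖ ^ m ≤ (25 / 64 : ℝ) ^ m := pow_le_pow_left₀ (norm_nonneg _) hz m
    calc |lc k (m + 3)| * ‖z‖ ^ (m + 3) = |lc k (m + 3)| * (‖z‖ ^ 3 * ‖z‖ ^ m) := by ring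
      _ ≤ 1 / 3 * (‖z‖ ^ 3 * (25 / 64 : ℝ) ^ m) :=
          mul_le_mul h3 (mul_le_mul_of_nonneg_left h4 (by positivity)) (by positivity)
            (by norm_num)
      _ = _ := by ring)
  refine h2.trans (le_of_eq ?_)
  norm_num
  ring

/-- the remainder in Taylor's formula -/
noncomputable def Rp (k : ℝ) (z e : ℂ) : ℂ :=
  Lam k (z + e) - Lam k z - (1 + z) ^ ((k - 1 : ℝ) : ℂ) * e

theorem Rp_le {k : ℝ} (hk : 0 < k) (hk1 : k ≤ 1) {z e : ℂ} (hz : ‖z‖ ≤ 4409 / 10000)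
    (hw : ‖z + e‖ ≤ 4409 / 10000) : ‖Rp k z e‖ ≤ 8 / 5 * ‖e‖ ^ 2 := by
  have h1 := Lam_taylor2 hk hk1 (d := 4409 / 10000) (by norm_num) hz hw
  have e1 : z + e - z = e := by ring
  rw [e1] at h1
  unfold Rp
  refine h1.trans ?_
  have h2 : 1 / 2 * (((1 - 4409 / 10000 : ℝ) ^ 2)⁻¹) ≤ 8 / 5 := by norm_num
  have h3 := mul_le_mul_of_nonneg_right h2 (sq_nonneg ‖e‖)
  linarith

/-- the pointwise inequality -/
theorem pt_G {k : ℝ} (hk : 0 < k) (hk1 : k ≤ 1) {z e : ℂ} (hz : ‖z‖ ≤ 25 / 64)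
    (hw : ‖z + e‖ ≤ 4409 / 10000) :
    ‖Lam k (z + e)‖ ^ 2 ≤ ‖Lam k z‖ ^ 2 +
      2 * (conj (Lam k z) * ((1 + z) ^ ((k - 1 : ℝ) : ℂ) * e)).re +
      2 * (conj (z + ((lc k 2 : ℝ) : ℂ) * z ^ 2) * Rp k z e).re +
      ‖(1 + z) ^ ((k - 1 : ℝ) : ℂ) * e‖ ^ 2 +
      (1024 / 585 * ‖z‖ ^ 3 + 1024 / 195 * ‖e‖ + 64 / 25 * ‖e‖ ^ 2) * ‖e‖ ^ 2 := by
  have h1 := Rp_le hk hk1 (hz.trans (by norm_num)) hw
  have h2 := norm_cp1_le hk hk1 (d := 25 / 64) (by norm_num) hz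
  have h5 := Lam_three hk hk1 hz
  set P := Lam k z
  set W := (1 + z) ^ ((k - 1 : ℝ) : ℂ)
  set Q := z + ((lc k 2 : ℝ) : ℂ) * z ^ 2
  set R := Rp k z e with hR
  have e1 : Lam k (z + e) = P + (R + W * e) := by rw [hR]; unfold Rp; ring
  have hE := norm_nonneg e
  have hZ := norm_nonneg z
  have h6 : ‖W‖ ≤ 64 / 39 := by
    norm_num at h2
    linarith
  have h7 : (conj (P - Q) * R).re ≤ 512 / 585 * ‖z‖ ^ 3 * ‖e‖ ^ 2 := by
    have i1 := Complex.re_le_norm (conj (P - Q) * R)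
    rw [norm_mul, Complex.norm_conj] at i1
    have i2 := mul_le_mul h5 h1 (norm_nonneg _) (by positivity)
    refine i1.trans (i2.trans (le_of_eq ?_))
    ring
  have h8 : ‖R + W * e‖ ^ 2 ≤ ‖W * e‖ ^ 2 + (1024 / 195 * ‖e‖ + 64 / 25 * ‖e‖ ^ 2) * ‖e‖ ^ 2 := by
    have i1 := norm_add_le R (W * e)
    have i2 := pow_le_pow_left₀ (norm_nonneg _) i1 2
    have i3 : ‖W * e‖ ≤ 64 / 39 * ‖e‖ := by
      rw [norm_mul]
      exact mul_le_mul_of_nonneg_right h6 hE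
    have i4 : ‖R‖ * ‖W * e‖ ≤ 8 / 5 * ‖e‖ ^ 2 * (64 / 39 * ‖e‖) :=
      mul_le_mul h1 i3 (norm_nonneg _) (by positivity)
    have i5 : ‖R‖ ^ 2 ≤ (8 / 5 * ‖e‖ ^ 2) ^ 2 := pow_le_pow_left₀ (norm_nonneg _) h1 2
    nlinarith
  have e2 : (conj P * (R + W * e)).re =
      (conj P * (W * e)).re + (conj Q * R).re + (conj (P - Q) * R).re := by
    rw [← add_re, ← add_re]
    congr 1
    rw [map_sub]
    ring
  rw [e1, norm_add_sq_c, e2]
  linarith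

/-- `β |u|^2 + |Ee| <= 0.4409` -/
theorem sumF (h : Nrm F b β) {u : ℂ} (hu : ‖u‖ ≤ 5 / 8)
    (hE : ‖Ee b β u‖ ^ 2 ≤ 693 / 1000 * (1 - β ^ 2) * ‖u‖ ^ 6) :
    25 / 64 * β + ‖Ee b β u‖ ≤ 4409 / 10000 ∧ ‖Ee b β u‖ ^ 2 ≤ 413062 / 10000000 * (1 - β ^ 2) := by
  have hβ := h.beta_le
  have h0 := h.nn
  have h2 : ‖u‖ ^ 6 ≤ (5 / 8) ^ 6 := pow_le_pow_left₀ (norm_nonneg _) hu 6
  have h3 : 693 / 1000 * (1 - β ^ 2) * ‖u‖ ^ 6 ≤ 693 / 1000 * (1 - β ^ 2) * (5 / 8) ^ 6 :=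
    mul_le_mul_of_nonneg_left h2 (mul_nonneg (by norm_num) h.del_nonneg)
  have h4 : ‖Ee b β u‖ ^ 2 ≤ 413062 / 10000000 * (1 - β ^ 2) := by
    have := h.del_nonneg
    norm_num at h3
    linarith
  refine ⟨?_, h4⟩
  have h5 : ‖Ee b β u‖ ^ 2 ≤ (4409 / 10000 - 25 / 64 * β) ^ 2 := by
    nlinarith [sq_nonneg (β - 88825 / 100000)]
  have h6 := abs_le_of_sq_le_sq h5 (by linarith)
  rw [abs_of_nonneg (norm_nonneg _)] at h6
  linarith

end Pool.Agent.H93.MR
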