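import Pool.Agent.H93.MR.Fn

/-!
# The first supremum for orders at most two and radii at least two
-/

open Complex Set Filter Topology MeasureTheory
open scoped ComplexConjugate Real

namespace Pool.Agent.H93.MR

open Pool.Agent.H15.Sig

variable {F : ℂ → ℂ} {b : ℕ → ℂ}

theorem J_int {lam r : ℝ} (hr : 1 < r) :
    ∫ t in (-π)..π, ‖(fun z : ℂ => z + z⁻¹) (r * exp (t * I))‖ ^ lam =
      r ^ lam * ∫ t in (-π)..π, ‖1 + ((r⁻¹ : ℝ) * ec t) ^ 2‖ ^ lam := by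
  have hr0 : 0 < r := by linarith
  have hx0 : 0 < r⁻¹ := inv_pos.2 hr0
  rw [← intervalIntegral.integral_const_mul]
  apply intervalIntegral.integral_congr
  intro t _
  simp only
  have hz : (r : ℂ) * exp (t * I) = ((r⁻¹ : ℝ) * ec t)⁻¹ := by
    rw [inv_ec, inv_inv]
  set u : ℂ := (r⁻¹ : ℝ) * ec t with hu
  have hun : ‖u‖ = r⁻¹ := norm_mul_ec hx0.le t
  have hu0 : u ≠ 0 := by rw [← norm_pos_iff, hun]; exact hx0
  rw [hz, inv_inv]
  have e : u⁻¹ + u = u⁻¹ * (1 + u ^ 2) := by field_simp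
  rw [e, norm_mul, norm_inv, hun, inv_inv, Real.mul_rpow hr0.le (norm_nonneg _)]

/-- the moments of `F` -/
theorem le_J2 (h : IsSig F b) {lam r : ℝ} (hl : 0 < lam) (hl2 : lam ≤ 2) (hr : 2 ≤ r) :
    ∫ t in (-π)..π, ‖F (r * exp (t * I))‖ ^ lam ≤
      ∫ t in (-π)..π, ‖(fun z : ℂ => z + z⁻¹) (r * exp (t * I))‖ ^ lam ∧ (‖b 1‖ < 1 →
    ∫ t in (-π)..π, ‖F (r * exp (t * I))‖ ^ lam <
      ∫ t in (-π)..π, ‖(fun z : ℂ => z + z⁻¹) (r * exp (t * I))‖ ^ lam) := by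
  have hpi := Real.pi_pos
  obtain ⟨φ, hN⟩ := exists_rot h
  have hr0 : 0 < r := by linarith
  have hx0 : 0 < r⁻¹ := inv_pos.2 hr0
  have hx : r⁻¹ ≤ 1 / 2 := by
    rw [one_div]; exact inv_anti₀ (by norm_num) hr
  have h1 := int_F hN (k := lam / 2) (by positivity) (by linarith) hx0 hx
  rw [show 2 * (lam / 2) = lam by ring] at h1
  have h2 : ∀ t : ℝ, ‖F (exp (φ * I) * (r * exp (t * I)))‖ ^ lam = r ^ lam *
      ‖1 + ((r⁻¹ : ℝ) * ec t) * pw (fun n => b n * ((exp (φ * I))⁻¹) ^ (n + 1))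
        ((r⁻¹ : ℝ) * ec t)‖ ^ lam := by
    intro t
    have h3 := hN.sig.norm_circle hx0 (by linarith : r⁻¹ < 1) t
    rw [inv_inv] at h3
    have h4 : ‖(exp (φ * I))⁻¹ * F (exp (φ * I) * (r * exp (t * I)))‖ =
        ‖F (exp (φ * I) * (r * exp (t * I)))‖ := by
      rw [norm_mul, norm_inv, norm_exp_ofReal_mul_I]; simp
    rw [← h4, h3, Real.mul_rpow hr0.le (norm_nonneg _)]
  rw [← integral_rot (g := F) φ, J_int (by linarith)]
  simp_rw [h2]
  rw [intervalIntegral.integral_const_mul]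
  have hrl : 0 < r ^ lam := Real.rpow_pos_of_pos hr0 _
  have hb : ‖b 1‖ ≤ 1 := hN.beta_le
  constructor
  · refine mul_le_mul_of_nonneg_left (h1.trans ?_) hrl.le
    have : 0 ≤ 2 / 5 * (lam / 2) ^ 2 * π * (1 - ‖b 1‖) * r⁻¹ ^ 4 := by
      have : 0 ≤ 1 - ‖b 1‖ := by linarith
      positivity
    linarith
  · intro hb1
    refine mul_lt_mul_of_pos_left (lt_of_le_of_lt h1 ?_) hrl
    have : 0 < 2 / 5 * (lam / 2) ^ 2 * π * (1 - ‖b 1‖) * r⁻¹ ^ 4 := by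
      have : 0 < 1 - ‖b 1‖ := by linarith
      positivity
    linarith

/-- orders at most two, radii at least two: inequality and case of equality -/
theorem sigma_two {lam r : ℝ} (hl : 0 < lam) (hl2 : lam ≤ 2) (hr : 2 ≤ r) :
    IsGreatest {x : ℝ | ∃ F : ℂ → ℂ, ClassSigma F ∧ x = integralMean lam r F}
      (integralMean lam r (fun z => z + z⁻¹)) ∧
    ∀ F : ℂ → ℂ, ClassSigma F →
      (integralMean lam r F = integralMean lam r (fun z => z + z⁻¹) ↔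
        ∃ c : ℂ, ‖c‖ = 1 ∧ ∀ z : ℂ, 1 < ‖z‖ → F z = z + c / z) := by
  have hr1 : 1 < r := by linarith
  have hJ : integralMean lam r (fun z => z + z⁻¹) =
      ((2 * π)⁻¹ * ∫ t in (-π)..π, ‖(fun z : ℂ => z + z⁻¹) (r * exp (t * I))‖ ^ lam) ^
        (1 / lam) := integralMean_eq _ _ _
  refine ⟨⟨⟨_, classSigma_J, rfl⟩, ?_⟩, ?_⟩
  · rintro x ⟨F, hF, rfl⟩
    obtain ⟨b, hb⟩ := hF.isSig
    rw [hJ]
    exact (integralMean_mono hl).1 (le_J2 hb hl hl2 hr).1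
  · intro F hF
    obtain ⟨b, hb⟩ := hF.isSig
    constructor
    · intro he
      by_cases h1 : ‖b 1‖ < 1
      · exfalso
        have := (integralMean_mono hl).2 ((le_J2 hb hl hl2 hr).2 h1)
        rw [← hJ, he] at this
        exact lt_irrefl _ this
      · exact ⟨b 1, hb.eq_of_norm_one h1⟩
    · rintro ⟨c, hc, hFc⟩
      exact integralMean_rotJ hc hFc hr1

end Pool.Agent.H93.MR
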