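import Pool.Agent.H93.MR.Dn
import Pool.Agent.H93.MR.Fin

/-!
# Both integral inequalities for `0 < p <= 1`, `0 < x <= 1/2`
-/

open Complex Set Filter Topology MeasureTheory
open scoped ComplexConjugate Real

namespace Pool.Agent.H93.MR

open Pool.Agent.H15.Sig Pool.Agent.H15.DP

theorem int_one_add_sq {p x : ℝ} (hx0 : 0 < x) (hx1 : x < 1) :
    ∫ t in (-π)..π, ‖1 + ((x : ℂ) * ec t) ^ 2‖ ^ (2 * p) = Mo p (x ^ 2) := by
  have hr : 1 < x⁻¹ := (one_lt_inv₀ hx0).2 hx1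
  have h1 := J_int (lam := 2 * p) hr
  have h2 := J_moment (lam := 2 * p) hr
  rw [h2, inv_inv, show 2 * p / 2 = p by ring] at h1
  have h3 : 0 < (x⁻¹) ^ (2 * p) := Real.rpow_pos_of_pos (by positivity) _
  exact (mul_left_cancel₀ h3.ne' h1).symm

theorem IntF_le_one {p x : ℝ} (hp : 0 < p) (hp1 : p ≤ 1) (hx0 : 0 < x) (hx : x ≤ 1 / 2) :
    IntF p x := by
  intro F b β h
  have hpi := Real.pi_pos
  have h1 := int_F h hp hp1 hx0 hx
  rw [int_one_add_sq hx0 (by linarith)] at h1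
  have hM : 0 ≤ 1 - β := by linarith [h.beta_le]
  constructor
  · have : 0 ≤ 2 / 5 * p ^ 2 * π * (1 - β) * x ^ 4 := by positivity
    linarith
  · intro hb
    have hM1 : 0 < 1 - β := by linarith
    have : 0 < 2 / 5 * p ^ 2 * π * (1 - β) * x ^ 4 := by positivity
    linarith

/-- the derivative: orders at most two, radii at least two -/
theorem sigma_deriv_two {lam r : ℝ} (hl : 0 < lam) (hl2 : lam ≤ 2) (hr : 2 ≤ r) :
    IsGreatest {x : ℝ | ∃ F : ℂ → ℂ, ClassSigma F ∧ x = integralMean lam r (deriv F)}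
      (integralMean lam r (fun z => 1 - (z ^ 2)⁻¹)) ∧
    ∀ F : ℂ → ℂ, ClassSigma F →
      (integralMean lam r (deriv F) = integralMean lam r (fun z => 1 - (z ^ 2)⁻¹) ↔
        ∃ c : ℂ, ‖c‖ = 1 ∧ ∀ z : ℂ, 1 < ‖z‖ → F z = z + c / z) := by
  have hr0 : 0 < r := by linarith
  refine sigma_deriv_of hl (by linarith) (IntD_le_one (by positivity) (by linarith)
    (inv_pos.2 hr0) ?_)
  rw [one_div]
  exact inv_anti₀ (by norm_num) hr

end Pool.Agent.H93.MR
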