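import Pool.Agent.H93.MR.Gh
import Pool.Agent.H93.MR.Gp
import Pool.Agent.H93.MR.IfD

/-!
# The function itself, orders at most two, radii at least `8/5`
-/

open Complex Set Filter Topology MeasureTheory
open scoped ComplexConjugate Real

namespace Pool.Agent.H93.MR

open Pool.Agent.H15.Sig Pool.Agent.H15.DP

variable {F : ℂ → ℂ} {b : ℕ → ℂ} {β : ℝ}

/-- the arithmetic of the last step -/
theorem arith_G {β x : ℝ} (h0 : 0 ≤ β) (h1 : β ≤ 1) (hx0 : 0 ≤ x) (hx : x ≤ 5 / 8) :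
    2 * ((9 / 2 * β ^ 2 * x ^ 8 - 16 / 3 * β ^ 3 * x ^ 12 + 28 * β ^ 4 * x ^ 16) * (1 - β)) +
      4096 / 6317 * x ^ 6 * (1 - β ^ 2) +
      (105 / 1000 * β ^ 3 + 2818 / 1000 * (1 - β ^ 2) + 1051 / 10000) *
        (1 / 2 * x ^ 6 * (1 - β ^ 2)) ≤ 99 / 100 * (1 - β ^ 2) * x ^ 4 := by
  have ha : 0 ≤ 1 - β := by linarith
  set M := 1 - β ^ 2 with hM
  have hM0 : 0 ≤ M := by rw [hM]; nlinarith
  set g := x ^ 4 with hg
  have hg0 : 0 ≤ g := by positivity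
  have hx2 : x ^ 2 ≤ 25 / 64 := by nlinarith
  have hx20 : 0 ≤ x ^ 2 := by positivity
  have hg1 : g ≤ 625 / 4096 := by
    have : g = x ^ 2 * x ^ 2 := by rw [hg]; ring
    rw [this]
    nlinarith
  have e8 : x ^ 8 = g * g := by rw [hg]; ring
  have e12 : x ^ 12 = g * g ^ 2 := by rw [hg]; ring
  have e16 : x ^ 16 = g * g ^ 3 := by rw [hg]; ring
  have e6 : x ^ 6 = x ^ 2 * g := by rw [hg]; ring
  rw [e8, e12, e16, e6]
  -- monotonicity in `g`
  have p1 : 9 / 2 * β ^ 2 * g - 16 / 3 * β ^ 3 * g ^ 2 + 28 * β ^ 4 * g ^ 3 ≤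
      9 / 2 * β ^ 2 * (625 / 4096) - 16 / 3 * β ^ 3 * (625 / 4096) ^ 2 +
        28 * β ^ 4 * (625 / 4096) ^ 3 := by
    have i1 : 9 / 2 * β ^ 2 * (625 / 4096) - 16 / 3 * β ^ 3 * (625 / 4096) ^ 2 +
        28 * β ^ 4 * (625 / 4096) ^ 3 -
        (9 / 2 * β ^ 2 * g - 16 / 3 * β ^ 3 * g ^ 2 + 28 * β ^ 4 * g ^ 3) =
        (625 / 4096 - g) * (β ^ 2 * (9 / 2 - 16 / 3 * (β * (625 / 4096 + g)) +
          28 * (β ^ 2 * ((625 / 4096) ^ 2 + 625 / 4096 * g + g ^ 2)))) := by ring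
    have i2 : β * (625 / 4096 + g) ≤ 1 / 2 := by nlinarith
    have i3 : 0 ≤ 28 * (β ^ 2 * ((625 / 4096) ^ 2 + 625 / 4096 * g + g ^ 2)) := by positivity
    have i4 : 0 ≤ (625 / 4096 - g) * (β ^ 2 * (9 / 2 - 16 / 3 * (β * (625 / 4096 + g)) +
          28 * (β ^ 2 * ((625 / 4096) ^ 2 + 625 / 4096 * g + g ^ 2)))) := by
      refine mul_nonneg (by linarith) (mul_nonneg (by positivity) (by linarith))
    linarith
  set c := 105 / 1000 * β ^ 3 + 2818 / 1000 * M + 1051 / 10000 with hc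
  have hc0 : 0 ≤ c := by positivity
  have p2 : (4096 / 6317 + c / 2) * (x ^ 2 * M) ≤ (4096 / 6317 + c / 2) * (25 / 64 * M) := by
    exact mul_le_mul_of_nonneg_left (mul_le_mul_of_nonneg_right hx2 hM0) (by positivity)
  have p3 := mul_le_mul_of_nonneg_right p1 ha
  -- the polynomial inequality
  have p4 : 2 * ((9 / 2 * β ^ 2 * (625 / 4096) - 16 / 3 * β ^ 3 * (625 / 4096) ^ 2 +
        28 * β ^ 4 * (625 / 4096) ^ 3) * (1 - β)) + (4096 / 6317 + c / 2) * (25 / 64 * M) ≤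
      99 / 100 * M := by
    have i0 : M = (1 - β) * (1 + β) := by rw [hM]; ring
    have i1 : 0 ≤ (1 + β) * (99 / 100 - 25 / 64 * (4096 / 6317 + c / 2)) -
        2 * (9 / 2 * β ^ 2 * (625 / 4096) - 16 / 3 * β ^ 3 * (625 / 4096) ^ 2 +
        28 * β ^ 4 * (625 / 4096) ^ 3) := by
      have b4 : β ^ 4 ≤ β ^ 3 := by
        have : 0 ≤ β ^ 3 := by positivity
        nlinarith
      have j1 := mul_nonneg h0 (sq_nonneg (β - 868 / 1000))
      have j2 := sq_nonneg (β - 867 / 1000)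
      rw [hc, hM]
      nlinarith
    have i2 := mul_nonneg ha i1
    nlinarith
  have p5 : 2 * ((9 / 2 * β ^ 2 * g - 16 / 3 * β ^ 3 * g ^ 2 + 28 * β ^ 4 * g ^ 3) * (1 - β)) +
      (4096 / 6317 + c / 2) * (x ^ 2 * M) ≤ 99 / 100 * M := by linarith
  have p6 := mul_le_mul_of_nonneg_right p5 hg0
  linarith

/-- the integral inequality -/
theorem int_G (h : Nrm F b β) {k : ℝ} (hk : 0 < k) (hk1 : k ≤ 1) {x : ℝ} (hx0 : 0 < x)
    (hx : x ≤ 5 / 8) :
    ∫ t in (-π)..π, ‖1 + (x * ec t) * pw b (x * ec t)‖ ^ (2 * k) ≤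
      (∫ t in (-π)..π, ‖1 + ((x : ℂ) * ec t) ^ 2‖ ^ (2 * k)) -
        k ^ 2 * (2 * π * (1 / 100 * (1 - β ^ 2) * x ^ 4)) := by
  have hpi := Real.pi_pos
  have hβ := h.beta_le
  have h0 := h.nn
  have hM := h.del_nonneg
  have hx1 : x < 1 := by linarith
  have hx2 : x ^ 2 ≤ 25 / 64 := by nlinarith
  have hz : ∀ u : ℂ, ‖u‖ ≤ x → ‖(β : ℂ) * u ^ 2‖ ≤ 25 / 64 * β := by
    intro u hu
    rw [norm_mul, norm_pow, norm_real, Real.norm_eq_abs, abs_of_nonneg h0]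
    have i1 : ‖u‖ ^ 2 ≤ x ^ 2 := pow_le_pow_left₀ (norm_nonneg _) hu 2
    have i2 := mul_le_mul_of_nonneg_left (i1.trans hx2) h0
    linarith
  have hw : ∀ u : ℂ, ‖u‖ ≤ x → ‖(β : ℂ) * u ^ 2 + Ee b β u‖ ≤ 4409 / 10000 := by
    intro u hu
    have i1 := norm_add_le ((β : ℂ) * u ^ 2) (Ee b β u)
    have i2 := hz u hu
    have i3 := (sumF h (hu.trans hx) (Ee_sq_le h (hu.trans hx))).1
    linarith
  have e0 : ∀ u : ℂ, u * pw b u = (β : ℂ) * u ^ 2 + Ee b β u := by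
    intro u
    unfold Ee
    ring
  have hball : ∀ u : ℂ, ‖u‖ ≤ x → u ∈ Metric.ball (0 : ℂ) 1 := by
    intro u hu
    rw [mem_ball_zero_iff]; linarith
  have hdd : ∀ u : ℂ, ‖u‖ ≤ x → DifferentiableAt ℂ (pw b) u := by
    intro u hu
    exact h.sig.diffOn_pw.differentiableAt (Metric.isOpen_ball.mem_nhds (hball u hu))
  have hf1 : ∀ u : ℂ, ‖u‖ ≤ x → DifferentiableAt ℂ (fun u => u * pw b u) u := by
    intro u hu
    have := hdd u hu
    fun_prop
  have hf2 : ∀ u : ℂ, ‖u‖ ≤ x → ‖u * pw b u‖ < 1 := by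
    intro u hu
    rw [e0 u]
    have := hw u hu
    linarith
  obtain ⟨c1, e1⟩ := int_pow hk (f := fun u => u * pw b u) hx0 hf1 hf2 (by simp)
  obtain ⟨c2, e2⟩ := int_pow hk (f := fun u => u ^ 2) hx0 (fun u _ => by fun_prop)
    (fun u hu => by
      rw [norm_pow]
      have i1 : ‖u‖ ^ 2 ≤ x ^ 2 := pow_le_pow_left₀ (norm_nonneg _) hu 2
      linarith) (by simp)
  obtain ⟨c3, -⟩ := int_pow hk (f := fun u => (β : ℂ) * u ^ 2) hx0 (fun u _ => by fun_prop)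
    (fun u hu => lt_of_le_of_lt (hz u hu) (by linarith)) (by simp)
  rw [e1, e2]
  have cE : Continuous fun t : ℝ => Ee b β (x * ec t) := (rep_E h).continuous_circle hx0.le hx1
  have cW : Continuous fun t : ℝ => (1 + (β : ℂ) * (x * ec t) ^ 2) ^ ((k - 1 : ℝ) : ℂ) :=
    (rep_W k h0 hβ).continuous_circle hx0.le hx1
  -- the remainder
  have hEd : ∀ u : ℂ, ‖u‖ ≤ x → DifferentiableAt ℂ (Ee b β) u := by
    intro u hu
    have := hdd u hu
    unfold Ee
    fun_prop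
  have hRd : ∀ u : ℂ, ‖u‖ ≤ x →
      DifferentiableAt ℂ (fun u => Rp k ((β : ℂ) * u ^ 2) (Ee b β u)) u := by
    intro u hu
    unfold Rp
    have i0 : DifferentiableAt ℂ (fun u : ℂ => (β : ℂ) * u ^ 2) u := by fun_prop
    have i1 : DifferentiableAt ℂ (fun u => Lam k ((β : ℂ) * u ^ 2 + Ee b β u)) u :=
      comp_diff (f := fun u => (β : ℂ) * u ^ 2 + Ee b β u)
        (hasDerivAt_Lam hk (lt_of_le_of_lt (hw u hu) (by norm_num))) (i0.add (hEd u hu))
    have i2 : DifferentiableAt ℂ (fun u => Lam k ((β : ℂ) * u ^ 2)) u :=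
      comp_diff (f := fun u => (β : ℂ) * u ^ 2)
        (hasDerivAt_Lam hk (lt_of_le_of_lt (hz u hu) (by linarith))) i0
    have i3 : DifferentiableAt ℂ
        (fun u : ℂ => (1 + (β : ℂ) * u ^ 2) ^ ((k - 1 : ℝ) : ℂ)) u :=
      comp_diff (f := fun u => (β : ℂ) * u ^ 2) (g := fun z => (1 + z) ^ ((k - 1 : ℝ) : ℂ))
        (hasDerivAt_cp (k - 1) (lt_of_le_of_lt (hz u hu) (by linarith))) i0
    exact (i1.sub i2).sub (i3.mul (hEd u hu))
  have hRb : ∀ u : ℂ, ‖u‖ ≤ x → ‖Rp k ((β : ℂ) * u ^ 2) (Ee b β u)‖ ≤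
      2 * (1 - β ^ 2) * ‖u‖ ^ 6 := by
    intro u hu
    have i1 := Rp_le hk hk1 ((hz u hu).trans (by linarith)) (hw u hu)
    have i2 := Ee_sq_le h (hu.trans hx)
    have i3 : 0 ≤ (1 - β ^ 2) * ‖u‖ ^ 6 := by positivity
    linarith
  have hRb2 : ∀ u : ℂ, ‖u‖ ≤ x → ‖Rp k ((β : ℂ) * u ^ 2) (Ee b β u)‖ ≤
      2 * (1 - β ^ 2) * ‖u‖ ^ (2 + 2) := by
    intro u hu
    have i1 := hRb u hu
    have i3 : ‖u‖ ^ 6 ≤ ‖u‖ ^ (2 + 2) :=
      pow_le_pow_of_le_one (norm_nonneg _) (hu.trans hx1.le) (by norm_num)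
    have i4 := mul_le_mul_of_nonneg_left i3 (mul_nonneg (by norm_num) hM : 0 ≤ 2 * (1 - β ^ 2))
    linarith
  have cR : Continuous fun t : ℝ => Rp k ((β : ℂ) * (x * ec t) ^ 2) (Ee b β (x * ec t)) := by
    rw [continuous_iff_continuousAt]
    intro t
    have h2 : ContinuousAt (fun t : ℝ => (x : ℂ) * ec t) t :=
      (continuous_const.mul continuous_ec).continuousAt
    exact ContinuousAt.comp (f := fun t : ℝ => (x : ℂ) * ec t)
      (hRd _ (norm_mul_ec hx0.le t).le).continuousAt h2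
  have hR0 : ∫ t in (-π)..π, conj ((x * ec t) ^ 2) *
      Rp k ((β : ℂ) * (x * ec t) ^ 2) (Ee b β (x * ec t)) = 0 :=
    conj_mean_j hx0 2 hRd hRb2
  have hR1 : ∫ t in (-π)..π, conj ((x * ec t) ^ 4) *
      Rp k ((β : ℂ) * (x * ec t) ^ 2) (Ee b β (x * ec t)) = 0 :=
    conj_mean_j hx0 4 hRd hRb
  have cz : Continuous fun t : ℝ => (β : ℂ) * (x * ec t) ^ 2 +
      ((lc k 2 : ℝ) : ℂ) * ((β : ℂ) * (x * ec t) ^ 2) ^ 2 := by
    have := continuous_ec
    fun_prop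
  have cP : Continuous fun t : ℝ => conj (Lam k ((β : ℂ) * (x * ec t) ^ 2)) *
      ((1 + (β : ℂ) * (x * ec t) ^ 2) ^ ((k - 1 : ℝ) : ℂ) * Ee b β (x * ec t)) :=
    (Complex.continuous_conj.comp c3).mul (cW.mul cE)
  have cQ : Continuous fun t : ℝ => conj ((β : ℂ) * (x * ec t) ^ 2 +
      ((lc k 2 : ℝ) : ℂ) * ((β : ℂ) * (x * ec t) ^ 2) ^ 2) *
      Rp k ((β : ℂ) * (x * ec t) ^ 2) (Ee b β (x * ec t)) :=
    (Complex.continuous_conj.comp cz).mul cR
  set c := 105 / 1000 * β ^ 3 + 2818 / 1000 * (1 - β ^ 2) + 1051 / 10000 with hc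
  have i3 : ∫ t in (-π)..π, ‖Lam k ((x * ec t) * pw b (x * ec t))‖ ^ 2 ≤
      ∫ t in (-π)..π, (‖Lam k ((β : ℂ) * (x * ec t) ^ 2)‖ ^ 2 +
        2 * (conj (Lam k ((β : ℂ) * (x * ec t) ^ 2)) *
          ((1 + (β : ℂ) * (x * ec t) ^ 2) ^ ((k - 1 : ℝ) : ℂ) * Ee b β (x * ec t))).re +
        2 * (conj ((β : ℂ) * (x * ec t) ^ 2 +
          ((lc k 2 : ℝ) : ℂ) * ((β : ℂ) * (x * ec t) ^ 2) ^ 2) *
          Rp k ((β : ℂ) * (x * ec t) ^ 2) (Ee b β (x * ec t))).re +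
        ‖(1 + (β : ℂ) * (x * ec t) ^ 2) ^ ((k - 1 : ℝ) : ℂ) * Ee b β (x * ec t)‖ ^ 2 +
        c * ‖Ee b β (x * ec t)‖ ^ 2) := by
    refine intervalIntegral.integral_mono_on (by linarith) ?_ ?_ ?_
    · exact (c1.norm.pow 2).intervalIntegrable _ _
    · refine Continuous.intervalIntegrable ?_ _ _
      exact ((((c3.norm.pow 2).add (continuous_const.mul (Complex.continuous_re.comp cP))).add
        (continuous_const.mul (Complex.continuous_re.comp cQ))).add ((cW.mul cE).norm.pow 2)).add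
          (continuous_const.mul (cE.norm.pow 2))
    · intro t _
      have hu := (norm_mul_ec hx0.le t).le
      rw [e0]
      have j1 := pt_G hk hk1 ((hz _ hu).trans (by linarith)) (hw _ hu)
      have j2 := hz _ hu
      have j3 := (sumF h (hu.trans hx) (Ee_sq_le h (hu.trans hx))).2
      set v := ‖Ee b β (x * ec t)‖
      set y := ‖(β : ℂ) * (x * ec t) ^ 2‖
      have j4 : 1024 / 585 * y ^ 3 + 1024 / 195 * v + 64 / 25 * v ^ 2 ≤ c := by
        have y0 : 0 ≤ y := norm_nonneg _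
        have k1 : y ^ 3 ≤ (25 / 64 * β) ^ 3 := pow_le_pow_left₀ y0 j2 3
        have k2 : v ≤ 25 / 2 * v ^ 2 + 1 / 50 := by nlinarith [sq_nonneg (v - 1 / 25)]
        have k3 : 0 ≤ β ^ 3 := by positivity
        rw [hc]
        have k4 : (25 / 64 * β) ^ 3 = (25 / 64) ^ 3 * β ^ 3 := by ring
        rw [k4] at k1
        nlinarith
      have j5 := mul_le_mul_of_nonneg_right j4 (sq_nonneg v)
      linarith
  have j1 : IntervalIntegrable (fun t : ℝ => ‖Lam k ((β : ℂ) * (x * ec t) ^ 2)‖ ^ 2)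
      volume (-π) π := (c3.norm.pow 2).intervalIntegrable _ _
  have j2 : IntervalIntegrable (fun t : ℝ => 2 * (conj (Lam k ((β : ℂ) * (x * ec t) ^ 2)) *
      ((1 + (β : ℂ) * (x * ec t) ^ 2) ^ ((k - 1 : ℝ) : ℂ) * Ee b β (x * ec t))).re)
      volume (-π) π := (continuous_const.mul (Complex.continuous_re.comp cP)).intervalIntegrable _ _
  have j3 : IntervalIntegrable (fun t : ℝ => 2 * (conj ((β : ℂ) * (x * ec t) ^ 2 +
      ((lc k 2 : ℝ) : ℂ) * ((β : ℂ) * (x * ec t) ^ 2) ^ 2) *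
      Rp k ((β : ℂ) * (x * ec t) ^ 2) (Ee b β (x * ec t))).re)
      volume (-π) π := (continuous_const.mul (Complex.continuous_re.comp cQ)).intervalIntegrable _ _
  have j4 : IntervalIntegrable (fun t : ℝ =>
      ‖(1 + (β : ℂ) * (x * ec t) ^ 2) ^ ((k - 1 : ℝ) : ℂ) * Ee b β (x * ec t)‖ ^ 2)
      volume (-π) π := ((cW.mul cE).norm.pow 2).intervalIntegrable _ _
  have j5 : IntervalIntegrable (fun t : ℝ => c * ‖Ee b β (x * ec t)‖ ^ 2) volume (-π) π :=
    (continuous_const.mul (cE.norm.pow 2)).intervalIntegrable _ _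
  rw [intervalIntegral.integral_add (((j1.add j2).add j3).add j4) j5,
    intervalIntegral.integral_add ((j1.add j2).add j3) j4,
    intervalIntegral.integral_add (j1.add j2) j3,
    intervalIntegral.integral_add j1 j2,
    intervalIntegral.integral_const_mul, intervalIntegral.integral_const_mul,
    intervalIntegral.integral_const_mul] at i3
  have e3 : ∫ t in (-π)..π, (conj (Lam k ((β : ℂ) * (x * ec t) ^ 2)) *
      ((1 + (β : ℂ) * (x * ec t) ^ 2) ^ ((k - 1 : ℝ) : ℂ) * Ee b β (x * ec t))).re =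
      (∫ t in (-π)..π, conj (Lam k ((β : ℂ) * (x * ec t) ^ 2)) *
      ((1 + (β : ℂ) * (x * ec t) ^ 2) ^ ((k - 1 : ℝ) : ℂ) * Ee b β (x * ec t))).re := by
    have := Complex.reCLM.intervalIntegral_comp_comm (μ := volume)
      (cP.intervalIntegrable (-π) π)
    simpa using this
  have e4 : ∫ t in (-π)..π, (conj ((β : ℂ) * (x * ec t) ^ 2 +
      ((lc k 2 : ℝ) : ℂ) * ((β : ℂ) * (x * ec t) ^ 2) ^ 2) *
      Rp k ((β : ℂ) * (x * ec t) ^ 2) (Ee b β (x * ec t))).re = 0 := by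
    have k1 := Complex.reCLM.intervalIntegral_comp_comm (μ := volume)
      (cQ.intervalIntegrable (-π) π)
    have k2 : ∫ t in (-π)..π, conj ((β : ℂ) * (x * ec t) ^ 2 +
        ((lc k 2 : ℝ) : ℂ) * ((β : ℂ) * (x * ec t) ^ 2) ^ 2) *
        Rp k ((β : ℂ) * (x * ec t) ^ 2) (Ee b β (x * ec t)) = 0 := by
      have k3 : ∀ t : ℝ, conj ((β : ℂ) * (x * ec t) ^ 2 +
          ((lc k 2 : ℝ) : ℂ) * ((β : ℂ) * (x * ec t) ^ 2) ^ 2) *
          Rp k ((β : ℂ) * (x * ec t) ^ 2) (Ee b β (x * ec t)) =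
          (β : ℂ) * (conj ((x * ec t) ^ 2) *
            Rp k ((β : ℂ) * (x * ec t) ^ 2) (Ee b β (x * ec t))) +
          (((lc k 2 : ℝ) : ℂ) * (β : ℂ) ^ 2) * (conj ((x * ec t) ^ 4) *
            Rp k ((β : ℂ) * (x * ec t) ^ 2) (Ee b β (x * ec t))) := by
        intro t
        rw [map_add, map_mul, map_mul, map_pow ((starRingEnd ℂ)) ((β : ℂ) * (x * ec t) ^ 2),
          map_mul, conj_ofReal, conj_ofReal, map_pow, map_pow ((starRingEnd ℂ)) _ 4]
        ring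
      have cA : Continuous fun t : ℝ => (β : ℂ) * (conj ((x * ec t) ^ 2) *
            Rp k ((β : ℂ) * (x * ec t) ^ 2) (Ee b β (x * ec t))) := by
        have := continuous_ec
        exact continuous_const.mul ((Complex.continuous_conj.comp (by fun_prop)).mul cR)
      have cB : Continuous fun t : ℝ => (((lc k 2 : ℝ) : ℂ) * (β : ℂ) ^ 2) *
          (conj ((x * ec t) ^ 4) *
            Rp k ((β : ℂ) * (x * ec t) ^ 2) (Ee b β (x * ec t))) := by
        have := continuous_ec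
        exact continuous_const.mul ((Complex.continuous_conj.comp (by fun_prop)).mul cR)
      simp_rw [k3]
      rw [intervalIntegral.integral_add (cA.intervalIntegrable _ _) (cB.intervalIntegrable _ _),
        intervalIntegral.integral_const_mul, intervalIntegral.integral_const_mul, hR0, hR1,
        mul_zero, mul_zero, add_zero]
    rw [k2, map_zero] at k1
    simpa using k1
  rw [e3, e4] at i3
  have k1 := lin_le2 h hk hk1 hx0.le hx
  have k2 := int_WeF h hk.le hk1 hx0.le hx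
  have k3 := int_P hk h0 hβ hx0.le hx1
  simp only [ofReal_one, one_mul] at k3
  have k4 := int_E h hx0.le hx1
  have hc0 : 0 ≤ c := by
    rw [hc]
    have := mul_nonneg (by norm_num : (0 : ℝ) ≤ 2818 / 1000) hM
    positivity
  have k5 := mul_le_mul_of_nonneg_left k4 hc0
  have k6 := arith_G h0 hβ hx0.le hx
  rw [← hc] at k6
  have k7 := mul_le_mul_of_nonneg_left k6 (by positivity : 0 ≤ 2 * π)
  have k8 : ∫ t in (-π)..π, ‖Lam k ((x * ec t) * pw b (x * ec t))‖ ^ 2 ≤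
      (∫ t in (-π)..π, ‖Lam k ((x * ec t) ^ 2)‖ ^ 2) -
        2 * π * (1 / 100 * (1 - β ^ 2) * x ^ 4) := by
    linarith
  have k9 := mul_le_mul_of_nonneg_left k8 (sq_nonneg k)
  linarith

/-- the integral inequality in the form of `H15/DP` -/
theorem IntF_five_eighth {p x : ℝ} (hp : 0 < p) (hp1 : p ≤ 1) (hx0 : 0 < x) (hx : x ≤ 5 / 8) :
    IntF p x := by
  intro F b β h
  have hpi := Real.pi_pos
  have h1 := int_G h hp hp1 hx0 hx
  rw [int_one_add_sq hx0 (by linarith)] at h1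
  have hM := h.del_nonneg
  constructor
  · have : 0 ≤ p ^ 2 * (2 * π * (1 / 100 * (1 - β ^ 2) * x ^ 4)) := by positivity
    linarith
  · intro hb
    have h0 := h.nn
    have hM1 : 0 < 1 - β ^ 2 := by nlinarith
    have : 0 < p ^ 2 * (2 * π * (1 / 100 * (1 - β ^ 2) * x ^ 4)) := by positivity
    linarith

/-- the function itself: orders at most two, radii at least `8/5` -/
theorem sigma_two' {lam r : ℝ} (hl : 0 < lam) (hl2 : lam ≤ 2) (hr : 8 / 5 ≤ r) :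
    IsGreatest {x : ℝ | ∃ F : ℂ → ℂ, ClassSigma F ∧ x = integralMean lam r F}
      (integralMean lam r (fun z => z + z⁻¹)) ∧
    ∀ F : ℂ → ℂ, ClassSigma F →
      (integralMean lam r F = integralMean lam r (fun z => z + z⁻¹) ↔
        ∃ c : ℂ, ‖c‖ = 1 ∧ ∀ z : ℂ, 1 < ‖z‖ → F z = z + c / z) := by
  have hr0 : 0 < r := by linarith
  refine sigma_of hl (by linarith) (IntF_five_eighth (by positivity) (by linarith)
    (inv_pos.2 hr0) ?_)
  have h1 : r⁻¹ ≤ (8 / 5)⁻¹ := inv_anti₀ (by norm_num) hr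
  norm_num at h1
  linarith

end Pool.Agent.H93.MR
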