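import Pool.Agent.H36.SZ.Fin
import Pool.Agent.H46.RD.Rs
import Pool.Agent.H93.MR.Gn

/-!
# The first supremum: all cases together
-/

open Complex Set Filter Topology MeasureTheory
open scoped ComplexConjugate Real

namespace Pool.Agent.H93.MR

open Pool.Agent.H15.Sig

theorem first_sup {lam r : ℝ} (hl : 0 < lam) (hr : 1 < r)
    (h : 7 / 4 ≤ lam ∨ 8 / 5 ≤ r ∨ (3 / 2 ≤ lam ∧ 4 / 3 ≤ r)) :
    IsGreatest {x : ℝ | ∃ F : ℂ → ℂ, ClassSigma F ∧ x = integralMean lam r F}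
      (integralMean lam r (fun z => z + z⁻¹)) ∧
    ∀ F : ℂ → ℂ, ClassSigma F →
      (integralMean lam r F = integralMean lam r (fun z => z + z⁻¹) ↔
        ∃ c : ℂ, ‖c‖ = 1 ∧ ∀ z : ℂ, 1 < ‖z‖ → F z = z + c / z) := by
  by_cases h2 : 2 ≤ lam
  · exact Pool.Agent.H36.SZ.fin_two h2 hr
  · have h2' : lam < 2 := lt_of_not_ge h2
    rcases h with h | h | h
    · exact Pool.Agent.H46.RD.ext_low h2' hr (Or.inl h)
    · exact sigma_two' hl h2'.le h
    · exact Pool.Agent.H46.RD.ext_low h2' hr (Or.inr h)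

end Pool.Agent.H93.MR
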