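import Pool.Agent.H93.MR.Gl
import Pool.Agent.H93.MR.Dh

/-!
# The quadratic part for radii at least `8/5`
-/

open Complex Set Filter Topology MeasureTheory
open scoped ComplexConjugate Real

namespace Pool.Agent.H93.MR

open Pool.Agent.H15.Sig

variable {F : ℂ → ℂ} {b : ℕ → ℂ} {β : ℝ}

/-- the weights -/
noncomputable def wv (j : ℕ) : ℝ := if 3 ≤ j then 1 / ((j : ℝ) - 1) else 0

theorem wv_nn (j : ℕ) : 0 ≤ wv j := by
  unfold wv
  split_ifs with h
  · have : (3 : ℝ) ≤ j := by exact_mod_cast h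
    exact div_nonneg zero_le_one (by linarith)
  · exact le_rfl

theorem quarter_le (m : ℕ) : 1 / (2 * (m : ℝ) + 4) ≤ 1 / 4 * (3 / 2) ^ m := by
  have h1 : 1 + (m : ℝ) * (1 / 2) ≤ (1 + 1 / 2 : ℝ) ^ m :=
    one_add_mul_le_pow (by norm_num) m
  have h2 : (1 + 1 / 2 : ℝ) = 3 / 2 := by norm_num
  rw [h2] at h1
  have hm : (0 : ℝ) ≤ m := by positivity
  rw [div_le_iff₀ (by positivity)]
  nlinarith

theorem Pa_wv_odd (m : ℕ) : Pa wv (2 * m + 3) ≤ 1 / 2 * (3 / 2) ^ m := by
  induction m with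
  | zero =>
    unfold Pa
    rw [Finset.Nat.sum_antidiagonal_eq_sum_range_succ_mk]
    simp only [Finset.sum_range_succ, Finset.sum_range_zero, wv]
    norm_num [Nat.even_iff]
  | succ m ih =>
    rw [show 2 * (m + 1) + 3 = 2 * m + 3 + 2 by ring, Pa_succ, pow_succ (3 / 2 : ℝ)]
    have h1 : wv (2 * m + 3 + 2) = 1 / (2 * (m : ℝ) + 4) := by
      unfold wv
      rw [if_pos (by omega)]
      push_cast
      ring_nf
    rw [h1]
    have := quarter_le m
    linarith

theorem Pa_wv_even (m : ℕ) : Pa wv (2 * m + 4) ≤ 1 / 2 * (3 / 2) ^ m := by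
  induction m with
  | zero =>
    unfold Pa
    rw [Finset.Nat.sum_antidiagonal_eq_sum_range_succ_mk]
    simp only [Finset.sum_range_succ, Finset.sum_range_zero, wv]
    norm_num [Nat.even_iff]
  | succ m ih =>
    rw [show 2 * (m + 1) + 4 = 2 * m + 4 + 2 by ring, Pa_succ, pow_succ (3 / 2 : ℝ)]
    have h1 : wv (2 * m + 4 + 2) = 1 / (2 * (m : ℝ) + 5) := by
      unfold wv
      rw [if_pos (by omega)]
      push_cast
      ring_nf
    rw [h1]
    have h2 := quarter_le m
    have h3 : 1 / (2 * (m : ℝ) + 5) ≤ 1 / (2 * (m : ℝ) + 4) :=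
      one_div_le_one_div_of_le (by positivity) (by linarith)
    linarith

/-- Cauchy's inequality for one coefficient -/
theorem coefF_sq_le (h : Nrm F b β) {k : ℝ} (hk : 0 ≤ k) (hk1 : k ≤ 1) (n : ℕ) :
    ‖PowerSeries.coeff n (evS (sc k) β * eeS b)‖ ^ 2 ≤ Pa wv n * Pa (tt b) n := by
  have hβ := h.beta_le
  have h0 := h.nn
  have h1 : ‖PowerSeries.coeff n (evS (sc k) β * eeS b)‖ ≤
      ∑ p ∈ Finset.HasAntidiagonal.antidiagonal n,
        if Even p.1 then ‖PowerSeries.coeff p.2 (eeS b)‖ else 0 := by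
    rw [PowerSeries.coeff_mul]
    refine (norm_sum_le _ _).trans (Finset.sum_le_sum fun p _ => ?_)
    rw [norm_mul]
    by_cases he : Even p.1
    · rw [if_pos he]
      obtain ⟨i, hi⟩ := he
      rw [hi, ← two_mul, coeff_evS_even, norm_real, Real.norm_eq_abs, abs_mul]
      have h2 : |sc k i| * |β ^ i| ≤ 1 := by
        have h3 := abs_sc_le hk hk1 i
        have h4 : |β ^ i| ≤ 1 := by
          rw [abs_of_nonneg (by positivity)]
          exact pow_le_one₀ h0 hβ
        calc |sc k i| * |β ^ i| ≤ 1 * 1 := mul_le_mul h3 h4 (abs_nonneg _) (by norm_num)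
          _ = 1 := one_mul 1
      calc |sc k i| * |β ^ i| * ‖PowerSeries.coeff p.2 (eeS b)‖ ≤
          1 * ‖PowerSeries.coeff p.2 (eeS b)‖ := mul_le_mul_of_nonneg_right h2 (norm_nonneg _)
        _ = _ := one_mul _
    · rw [if_neg he, coeff_evS_odd _ _ he, norm_zero, zero_mul]
  have h2 := pow_le_pow_left₀ (norm_nonneg _) h1 2
  refine h2.trans ?_
  unfold Pa
  refine Finset.sum_sq_le_sum_mul_sum_of_sq_le_mul _ (fun p _ => ?_) (fun p _ => ?_)
    (fun p _ => ?_)
  · split_ifs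
    · exact wv_nn _
    · exact le_rfl
  · split_ifs
    · exact tt_nn _
    · exact le_rfl
  · by_cases he : Even p.1
    · rw [if_pos he, if_pos he, if_pos he]
      by_cases hj : 3 ≤ p.2
      · have e : PowerSeries.coeff p.2 (eeS b) = b (p.2 - 1) := by
          simp only [eeS, PowerSeries.coeff_mk]
          rw [if_neg (by omega)]
        rw [e]
        unfold tt wv wt
        rw [if_pos hj, if_pos hj]
        have h3 : (3 : ℝ) ≤ p.2 := by exact_mod_cast hj
        have h4 : ((p.2 : ℝ) - 1) ≠ 0 := by linarith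
        field_simp
        exact le_rfl
      · rw [eeS_small (by omega), norm_zero]
        unfold tt wv wt
        rw [if_neg hj, if_neg hj]
        simp
    · rw [if_neg he, if_neg he, if_neg he]
      simp

/-- the quadratic part -/
theorem int_WeF (h : Nrm F b β) {k : ℝ} (hk : 0 ≤ k) (hk1 : k ≤ 1) {x : ℝ} (hx0 : 0 ≤ x)
    (hx : x ≤ 5 / 8) :
    ∫ t in (-π)..π, ‖(1 + β * (x * ec t) ^ 2) ^ ((k - 1 : ℝ) : ℂ) * Ee b β (x * ec t)‖ ^ 2 ≤
      2 * π * (4096 / 6317 * x ^ 6 * (1 - β ^ 2)) := by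
  have hpi := Real.pi_pos
  have hβ := h.beta_le
  have h0 := h.nn
  have hx1 : x < 1 := by linarith
  have i8 : x ^ 4 ≤ 625 / 4096 := by
    calc x ^ 4 ≤ (5 / 8) ^ 4 := pow_le_pow_left₀ hx0 hx 4
      _ = 625 / 4096 := by norm_num
  have hrW := (rep_W k h0 hβ).mul (rep_E h)
  have h1 := hrW.parseval_self hx0 hx1
  set I := ∫ t in (-π)..π,
    ‖(1 + β * (x * ec t) ^ 2) ^ ((k - 1 : ℝ) : ℂ) * Ee b β (x * ec t)‖ ^ 2 with hI
  set f : ℕ → ℝ := fun j => 2 * π *
    ‖PowerSeries.coeff j (evS (sc k) β * eeS b)‖ ^ 2 * x ^ (2 * j) with hf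
  have h1' : HasSum f I := h1
  have hf0 : ∀ j : ℕ, j < 3 → f j = 0 := by
    intro j hj
    have : PowerSeries.coeff j (evS (sc k) β * eeS b) = 0 := by
      rw [PowerSeries.coeff_mul]
      refine Finset.sum_eq_zero fun p hp => ?_
      rw [Finset.HasAntidiagonal.mem_antidiagonal] at hp
      rw [eeS_small (by omega), mul_zero]
    simp only [hf, this]
    simp
  have h2 := (hasSum_nat_add_iff' 3).2 h1'
  rw [Finset.sum_range_succ, Finset.sum_range_succ, Finset.sum_range_succ, Finset.sum_range_zero,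
    hf0 0 (by norm_num), hf0 1 (by norm_num), hf0 2 (by norm_num)] at h2
  simp only [add_zero, sub_zero] at h2
  have he : Summable fun m : ℕ => f (2 * m + 3) :=
    h2.summable.comp_injective (i := fun m : ℕ => 2 * m) (fun a b hab => by simpa using hab)
  have ho : Summable fun m : ℕ => f (2 * m + 1 + 3) :=
    h2.summable.comp_injective (i := fun m : ℕ => 2 * m + 1) (fun a b hab => by simpa using hab)
  have hs := HasSum.even_add_odd (f := fun j => f (j + 3)) he.hasSum ho.hasSum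
  have hE := h2.unique hs
  have hpair := he.hasSum.add ho.hasSum
  rw [← hE] at hpair
  have hg : HasSum (fun m : ℕ => π * x ^ 6 * (1 - β ^ 2) * (1875 / 8192 : ℝ) ^ m)
      (π * x ^ 6 * (1 - β ^ 2) * (1 - 1875 / 8192)⁻¹) :=
    (hasSum_geometric_of_lt_one (by norm_num) (by norm_num)).mul_left _
  have h3 := hasSum_le (fun m => by
    simp only [hf]
    have c1 := coefF_sq_le h hk hk1 (2 * m + 3)
    have c2 := coefF_sq_le h hk hk1 (2 * m + 4)
    have w1 := Pa_wv_odd m
    have w2 := Pa_wv_even m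
    have t1 : 0 ≤ Pa (tt b) (2 * m + 3) := Pa_nn tt_nn _
    have t2 : 0 ≤ Pa (tt b) (2 * m + 4) := Pa_nn tt_nn _
    have t3 := Pa_tt (b := b) m
    have t4 := sum2 h (2 * m + 2)
    set A := 1 / 2 * (3 / 2 : ℝ) ^ m with hA
    have hA0 : 0 ≤ A := by positivity
    have i6 : x ^ (2 * (2 * m + 3)) = x ^ 6 * (x ^ 4) ^ m := by
      rw [← pow_mul, ← pow_add]; congr 1; ring
    have i7 : x ^ (2 * (2 * m + 1 + 3)) = x ^ 2 * (x ^ 6 * (x ^ 4) ^ m) := by
      rw [← pow_mul, ← pow_add, ← pow_add]; congr 1; ring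
    have i9 : (x ^ 4) ^ m ≤ (625 / 4096 : ℝ) ^ m := pow_le_pow_left₀ (by positivity) i8 m
    have i10 : x ^ 2 ≤ 1 := by nlinarith
    set X := x ^ 6 * (x ^ 4) ^ m with hX
    have hX0 : 0 ≤ X := by positivity
    have hX1 : X ≤ x ^ 6 * (625 / 4096 : ℝ) ^ m := mul_le_mul_of_nonneg_left i9 (by positivity)
    have c1' : ‖PowerSeries.coeff (2 * m + 3) (evS (sc k) β * eeS b)‖ ^ 2 ≤
        A * Pa (tt b) (2 * m + 3) := c1.trans (mul_le_mul_of_nonneg_right w1 t1)
    have c3 : ‖PowerSeries.coeff (2 * m + 1 + 3) (evS (sc k) β * eeS b)‖ ^ 2 ≤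
        A * Pa (tt b) (2 * m + 4) := by
      rw [show 2 * m + 1 + 3 = 2 * m + 4 by ring]
      exact c2.trans (mul_le_mul_of_nonneg_right w2 t2)
    rw [i6, i7]
    have d1 : 2 * π * ‖PowerSeries.coeff (2 * m + 3) (evS (sc k) β * eeS b)‖ ^ 2 * X ≤
        2 * π * (A * Pa (tt b) (2 * m + 3)) * X :=
      mul_le_mul_of_nonneg_right (mul_le_mul_of_nonneg_left c1' (by positivity)) hX0
    have d2 : 2 * π * ‖PowerSeries.coeff (2 * m + 1 + 3) (evS (sc k) β * eeS b)‖ ^ 2 *
        (x ^ 2 * X) ≤ 2 * π * (A * Pa (tt b) (2 * m + 4)) * (1 * X) :=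
      mul_le_mul (mul_le_mul_of_nonneg_left c3 (by positivity))
        (mul_le_mul_of_nonneg_right i10 hX0) (by positivity) (by positivity)
    have d3 : 2 * π * A * (Pa (tt b) (2 * m + 3) + Pa (tt b) (2 * m + 4)) * X ≤
        2 * π * A * (1 - β ^ 2) * (x ^ 6 * (625 / 4096 : ℝ) ^ m) := by
      rw [t3]
      have e0 : 0 ≤ ∑ k ∈ Finset.range (2 * m + 2), ((k : ℝ) + 2) * ‖b (k + 2)‖ ^ 2 :=
        Finset.sum_nonneg fun k _ => by positivity
      refine mul_le_mul (mul_le_mul_of_nonneg_left t4 (by positivity)) hX1 hX0 ?_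
      exact mul_nonneg (by positivity) h.del_nonneg
    calc _ ≤ 2 * π * (A * Pa (tt b) (2 * m + 3)) * X +
          2 * π * (A * Pa (tt b) (2 * m + 4)) * (1 * X) := add_le_add d1 d2
      _ = 2 * π * A * (Pa (tt b) (2 * m + 3) + Pa (tt b) (2 * m + 4)) * X := by ring
      _ ≤ _ := d3
      _ = π * x ^ 6 * (1 - β ^ 2) * ((3 / 2) ^ m * (625 / 4096 : ℝ) ^ m) := by rw [hA]; ring
      _ = π * x ^ 6 * (1 - β ^ 2) * (1875 / 8192 : ℝ) ^ m := by
          rw [← mul_pow]; norm_num) hpair hg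
  refine h3.trans (le_of_eq ?_)
  norm_num
  ring

/-- pointwise bound for the remainder -/
theorem Ee_sq_le (h : Nrm F b β) {u : ℂ} (hu : ‖u‖ ≤ 5 / 8) :
    ‖Ee b β u‖ ^ 2 ≤ 693 / 1000 * (1 - β ^ 2) * ‖u‖ ^ 6 := by
  set x := ‖u‖ with hx
  have hx0 : 0 ≤ x := norm_nonneg u
  have hx1 : x < 1 := by linarith
  have hρ : x ^ 2 ≤ 25 / 64 := by nlinarith
  have hser := (hasSum_E h (by rw [← hx]; exact hx1 : ‖u‖ < 1)).tendsto_sum_nat
  have hT := (hser.norm.pow 2)
  refine le_of_tendsto' hT fun n => ?_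
  have h1 : ‖∑ k ∈ Finset.range n, b (k + 2) * u ^ (k + 3)‖ ≤
      ∑ k ∈ Finset.range n, ‖b (k + 2)‖ * x ^ (k + 3) := by
    refine (norm_sum_le _ _).trans (le_of_eq ?_)
    refine Finset.sum_congr rfl fun k _ => ?_
    rw [norm_mul, norm_pow]
  have h2 := pow_le_pow_left₀ (norm_nonneg _) h1 2
  refine h2.trans ?_
  have h3 := Finset.sum_sq_le_sum_mul_sum_of_sq_le_mul (Finset.range n)
    (f := fun k : ℕ => ((k : ℝ) + 2) * ‖b (k + 2)‖ ^ 2)
    (g := fun k : ℕ => 1 / ((k : ℝ) + 2) * (x ^ 2) ^ k * x ^ 6)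
    (r := fun k : ℕ => ‖b (k + 2)‖ * x ^ (k + 3))
    (fun k _ => by positivity) (fun k _ => by positivity) (fun k _ => by
      have hk : ((k : ℝ) + 2) ≠ 0 := by positivity
      refine le_of_eq ?_
      field_simp
      ring)
  refine h3.trans ?_
  have h4 := sum2 h n
  have h5 : ∑ k ∈ Finset.range n, 1 / ((k : ℝ) + 2) * (x ^ 2) ^ k * x ^ 6 ≤
      693 / 1000 * x ^ 6 := by
    rw [← Finset.sum_mul]
    refine mul_le_mul_of_nonneg_right ?_ (by positivity)
    -- geometric bound from the third term on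
    have h6 : ∀ n : ℕ, ∑ k ∈ Finset.range n, 1 / ((k : ℝ) + 2) * (x ^ 2) ^ k ≤
        1 / 2 + 25 / 192 + 1 / 4 * ∑ k ∈ Finset.range n, (25 / 64 : ℝ) ^ (k + 2) := by
      intro n
      induction n with
      | zero => norm_num
      | succ n ih =>
        by_cases hn : n < 2
        · have h7 : ∑ k ∈ Finset.range (n + 1), 1 / ((k : ℝ) + 2) * (x ^ 2) ^ k ≤
              1 / 2 + 25 / 192 := by
            interval_cases n
            · simp only [Finset.sum_range_succ, Finset.sum_range_zero]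
              norm_num
            · simp only [Finset.sum_range_succ, Finset.sum_range_zero]
              norm_num
              linarith
          have h8 : 0 ≤ 1 / 4 * ∑ k ∈ Finset.range (n + 1), (25 / 64 : ℝ) ^ (k + 2) := by
            positivity
          linarith
        · obtain ⟨j, rfl⟩ : ∃ j, n = j + 2 := ⟨n - 2, by omega⟩
          have h9 : ∀ n : ℕ, ∑ k ∈ Finset.range (n + 2), 1 / ((k : ℝ) + 2) * (x ^ 2) ^ k ≤
              1 / 2 + 25 / 192 + 1 / 4 * ∑ k ∈ Finset.range n, (25 / 64 : ℝ) ^ (k + 2) := by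
            intro n
            induction n with
            | zero =>
              simp only [Finset.sum_range_succ, Finset.sum_range_zero]
              norm_num
              linarith
            | succ n ih2 =>
              rw [show n + 1 + 2 = n + 2 + 1 by ring, Finset.sum_range_succ,
                Finset.sum_range_succ _ n]
              have h10 : 1 / (((n + 2 : ℕ) : ℝ) + 2) ≤ 1 / 4 := by
                refine one_div_le_one_div_of_le (by norm_num) ?_
                push_cast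
                have : (0 : ℝ) ≤ n := by positivity
                linarith
              have h11 : (x ^ 2) ^ (n + 2) ≤ (25 / 64 : ℝ) ^ (n + 2) :=
                pow_le_pow_left₀ (by positivity) hρ _
              have h12 : 1 / (((n + 2 : ℕ) : ℝ) + 2) * (x ^ 2) ^ (n + 2) ≤
                  1 / 4 * (25 / 64 : ℝ) ^ (n + 2) :=
                mul_le_mul h10 h11 (by positivity) (by norm_num)
              linarith
          have h13 := h9 (j + 1)
          have h14 : ∑ k ∈ Finset.range (j + 1), (25 / 64 : ℝ) ^ (k + 2) ≤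
              ∑ k ∈ Finset.range (j + 2 + 1), (25 / 64 : ℝ) ^ (k + 2) :=
            Finset.sum_le_sum_of_subset_of_nonneg
              (Finset.range_subset_range.2 (by omega)) (fun _ _ _ => by positivity)
          rw [show j + 2 + 1 = j + 1 + 2 by ring] at h14 ⊢
          linarith
    have h7 : ∑ k ∈ Finset.range n, (25 / 64 : ℝ) ^ (k + 2) ≤ (25 / 64) ^ 2 * (1 - 25 / 64)⁻¹ := by
      have h8 := (hasSum_geometric_of_lt_one (r := (25 / 64 : ℝ)) (by norm_num)
        (by norm_num)).mul_left ((25 / 64) ^ 2)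
      refine le_trans (le_of_eq ?_) (sum_le_hasSum (Finset.range n) (fun k _ => by positivity) h8)
      refine Finset.sum_congr rfl fun k _ => ?_
      rw [pow_add]
      ring
    refine (h6 n).trans ?_
    norm_num at h7 ⊢
    linarith
  have h0 : 0 ≤ ∑ k ∈ Finset.range n, 1 / ((k : ℝ) + 2) * (x ^ 2) ^ k * x ^ 6 :=
    Finset.sum_nonneg fun k _ => by positivity
  calc _ ≤ (1 - β ^ 2) * (693 / 1000 * x ^ 6) := mul_le_mul h4 h5 h0 h.del_nonneg
    _ = _ := by ring

end Pool.Agent.H93.MR
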