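import Pool.Agent.H15.Sig.Parseval

/-!
# The function `((1 + z)^k - 1) / k`, `0 < k <= 1`

`sc k n` is the `n`-th coefficient of `(1 + z)^(k-1)`, `|sc k n| <= 1`;
`lc k n` is the `n`-th coefficient of `Lam k`: `lc k 0 = 0`, `lc k (n+1) = sc k n / (n+1)`.
-/

open Complex Set Filter Topology MeasureTheory
open scoped ComplexConjugate Real

namespace Pool.Agent.H93.MR

open Pool.Agent.H15.Sig

noncomputable def Lam (k : ℝ) (z : ℂ) : ℂ := ((1 + z) ^ (k : ℂ) - 1) / k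

noncomputable def sc (k : ℝ) (n : ℕ) : ℝ := Ring.choose (k - 1) n

noncomputable def lc (k : ℝ) (n : ℕ) : ℝ := if n = 0 then 0 else sc k (n - 1) / n

theorem sc_zero (k : ℝ) : sc k 0 = 1 := by
  unfold sc
  exact Ring.choose_zero_right _

theorem sc_succ (k : ℝ) (n : ℕ) : (n + 1) * sc k (n + 1) = sc k n * (k - 1 - n) := by
  unfold sc
  have h := Ring.choose_smul_choose (k - 1) (n := n + 1) (k := n) (Nat.le_succ n)
  rw [Nat.choose_succ_self_right, show n + 1 - n = 1 by omega, Ring.choose_one_right] at h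
  rw [nsmul_eq_mul] at h
  push_cast at h
  exact h

theorem abs_sc_le {k : ℝ} (h0 : 0 ≤ k) (h1 : k ≤ 1) (n : ℕ) : |sc k n| ≤ 1 := by
  induction n with
  | zero => rw [sc_zero]; norm_num
  | succ n ih =>
    have h := sc_succ k n
    have hn : (0 : ℝ) < (n : ℝ) + 1 := by positivity
    have h2 : |k - 1 - n| ≤ n + 1 := by
      rw [abs_le]
      constructor
      · linarith
      · have : (0 : ℝ) ≤ n := by positivity
        linarith
    have h3 : ((n : ℝ) + 1) * |sc k (n + 1)| = |sc k n| * |k - 1 - n| := by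
      rw [← abs_mul, ← h, abs_mul, abs_of_pos hn]
    have h4 : |sc k n| * |k - 1 - n| ≤ 1 * (n + 1) :=
      mul_le_mul ih h2 (abs_nonneg _) (by norm_num)
    have h5 : ((n : ℝ) + 1) * |sc k (n + 1)| ≤ ((n : ℝ) + 1) * 1 := by
      rw [h3]
      linarith
    exact le_of_mul_le_mul_left h5 hn

theorem choose_succ_k {k : ℝ} (n : ℕ) : (Ring.choose k (n + 1) : ℝ) = k * sc k n / (n + 1) := by
  have h := Ring.choose_smul_choose k (n := n + 1) (k := 1) (by omega)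
  rw [Nat.choose_one_right, Ring.choose_one_right, nsmul_eq_mul,
    show n + 1 - 1 = n by omega] at h
  have hn : (n : ℝ) + 1 ≠ 0 := by positivity
  rw [eq_div_iff hn]
  push_cast at h
  unfold sc
  linarith

theorem hasSum_cpow (a : ℝ) {z : ℂ} (hz : ‖z‖ < 1) :
    HasSum (fun n : ℕ => ((Ring.choose a n : ℝ) : ℂ) * z ^ n) ((1 + z) ^ (a : ℂ)) := by
  have h := (Complex.one_add_cpow_hasFPowerSeriesOnBall_zero (a := (a : ℂ))).hasSum
    (y := z) (by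
      rw [← ENNReal.ofReal_one, Metric.eball_ofReal]
      simpa using hz)
  rw [zero_add] at h
  convert! h using 1
  funext n
  rw [binomialSeries_apply]
  have e : (Ring.choose (a : ℂ) n) = ((Ring.choose a n : ℝ) : ℂ) := by
    have := Ring.map_choose Complex.ofRealHom a n
    simpa using this.symm
  simp [e, List.ofFn_const, List.prod_replicate]

theorem lc_zero (k : ℝ) : lc k 0 = 0 := by simp [lc]

theorem lc_succ (k : ℝ) (n : ℕ) : lc k (n + 1) = sc k n / (n + 1) := by simp [lc]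

theorem lc_one (k : ℝ) : lc k 1 = 1 := by
  rw [lc_succ k 0, sc_zero]; norm_num

theorem abs_lc_le {k : ℝ} (h0 : 0 ≤ k) (h1 : k ≤ 1) {n : ℕ} (hn : 2 ≤ n) : |lc k n| ≤ 1 / 2 := by
  obtain ⟨m, rfl⟩ : ∃ m, n = m + 1 := ⟨n - 1, by omega⟩
  rw [lc_succ, abs_div]
  have h2 := abs_sc_le h0 h1 m
  have h3 : (2 : ℝ) ≤ |(m : ℝ) + 1| := by
    rw [abs_of_nonneg (by positivity)]
    exact_mod_cast hn
  rw [div_le_div_iff₀ (by linarith) (by norm_num)]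
  linarith

theorem hasSum_Lam {k : ℝ} (h0 : 0 < k) {z : ℂ} (hz : ‖z‖ < 1) :
    HasSum (fun n : ℕ => ((lc k n : ℝ) : ℂ) * z ^ n) (Lam k z) := by
  have hk : (k : ℂ) ≠ 0 := by exact_mod_cast h0.ne'
  have h := hasSum_cpow k hz
  rw [← hasSum_nat_add_iff' 1] at h ⊢
  simp only [Finset.range_one, Finset.sum_singleton, pow_zero, mul_one, Ring.choose_zero_right,
    ofReal_one, lc_zero, ofReal_zero, sub_zero] at h ⊢
  have h2 := h.div_const (k : ℂ)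
  unfold Lam
  refine h2.congr_fun ?_ |> fun h => h
  intro n
  rw [choose_succ_k, lc_succ]
  push_cast
  field_simp

theorem slit {z : ℂ} (hz : ‖z‖ < 1) : 1 + z ∈ slitPlane := mem_slitPlane_of_norm_lt_one hz

theorem hasDerivAt_Lam {k : ℝ} (h0 : 0 < k) {z : ℂ} (hz : ‖z‖ < 1) :
    HasDerivAt (Lam k) ((1 + z) ^ ((k - 1 : ℝ) : ℂ)) z := by
  have hk : (k : ℂ) ≠ 0 := by exact_mod_cast h0.ne'
  have h1 : HasDerivAt (fun z : ℂ => 1 + z) 1 z := (hasDerivAt_id z).const_add 1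
  have h2 := ((h1.cpow_const (c := (k : ℂ)) (slit hz)).sub_const 1).div_const (k : ℂ)
  refine h2.congr_deriv ?_
  rw [mul_one]
  push_cast
  field_simp

theorem hasDerivAt_cp (a : ℝ) {z : ℂ} (hz : ‖z‖ < 1) :
    HasDerivAt (fun z : ℂ => (1 + z) ^ (a : ℂ)) (a * (1 + z) ^ ((a - 1 : ℝ) : ℂ)) z := by
  have h1 : HasDerivAt (fun z : ℂ => 1 + z) 1 z := (hasDerivAt_id z).const_add 1
  have h2 := h1.cpow_const (c := (a : ℂ)) (slit hz)
  refine h2.congr_deriv ?_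
  rw [mul_one]
  push_cast
  ring

theorem norm_cp (a : ℝ) (z : ℂ) : ‖(1 + z) ^ (a : ℂ)‖ = ‖1 + z‖ ^ a :=
  Complex.norm_cpow_real _ _

/-- `x^a <= d^(-m)` for `x >= d`, `d <= 1`, `-m <= a <= 0` -/
theorem rpow_le_inv {x d a : ℝ} {m : ℕ} (hd : 0 < d) (hd1 : d ≤ 1) (hx : d ≤ x) (ha : a ≤ 0)
    (ha1 : -(m : ℝ) ≤ a) : x ^ a ≤ (d ^ m)⁻¹ := by
  calc x ^ a ≤ d ^ a := Real.rpow_le_rpow_of_nonpos hd hx ha
    _ ≤ d ^ (-(m : ℝ)) := Real.rpow_le_rpow_of_exponent_ge hd hd1 ha1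
    _ = (d ^ m)⁻¹ := by rw [Real.rpow_neg hd.le, Real.rpow_natCast]

theorem one_add_ge {z : ℂ} {d : ℝ} (h : ‖z‖ ≤ d) : 1 - d ≤ ‖1 + z‖ := by
  have h1 := norm_sub_norm_le (1 : ℂ) (-z)
  rw [norm_neg, norm_one, sub_neg_eq_add] at h1
  linarith

theorem norm_cp1_le {k : ℝ} (h0 : 0 < k) (h1 : k ≤ 1) {z : ℂ} {d : ℝ} (hd : d < 1) (h : ‖z‖ ≤ d) :
    ‖(1 + z) ^ ((k - 1 : ℝ) : ℂ)‖ ≤ (1 - d)⁻¹ := by
  have hd0 : 0 ≤ d := (norm_nonneg z).trans h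
  rw [norm_cp]
  have := rpow_le_inv (m := 1) (a := k - 1) (by linarith : 0 < 1 - d) (by linarith)
    (one_add_ge h) (by linarith) (by push_cast; linarith)
  rwa [pow_one] at this

theorem norm_cp2_le {k : ℝ} (h0 : 0 < k) (h1 : k ≤ 1) {z : ℂ} {d : ℝ} (hd : d < 1) (h : ‖z‖ ≤ d) :
    ‖(1 + z) ^ ((k - 1 - 1 : ℝ) : ℂ)‖ ≤ ((1 - d) ^ 2)⁻¹ := by
  have hd0 : 0 ≤ d := (norm_nonneg z).trans h
  rw [norm_cp]
  exact rpow_le_inv (m := 2) (a := k - 1 - 1) (by linarith : 0 < 1 - d) (by linarith)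
    (one_add_ge h) (by linarith) (by push_cast; linarith)

theorem Lam_zero {k : ℝ} : Lam k 0 = 0 := by simp [Lam]

theorem convex_cb (d : ℝ) : Convex ℝ {z : ℂ | ‖z‖ ≤ d} := by
  have : {z : ℂ | ‖z‖ ≤ d} = Metric.closedBall 0 d := by ext z; simp
  rw [this]
  exact convex_closedBall _ _

theorem Lam_le {k : ℝ} (h0 : 0 < k) (h1 : k ≤ 1) {z : ℂ} {d : ℝ} (hd : d < 1) (h : ‖z‖ ≤ d) :
    ‖Lam k z‖ ≤ (1 - d)⁻¹ * ‖z‖ := by
  have hd0 : 0 ≤ d := (norm_nonneg z).trans h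
  have h2 := (convex_cb d).norm_image_sub_le_of_norm_hasDerivWithin_le (f := Lam k)
    (f' := fun w => (1 + w) ^ ((k - 1 : ℝ) : ℂ)) (C := (1 - d)⁻¹) (x := 0) (y := z)
    (fun w hw => (hasDerivAt_Lam h0 (lt_of_le_of_lt hw hd)).hasDerivWithinAt)
    (fun w hw => norm_cp1_le h0 h1 hd hw)
    (show ‖(0 : ℂ)‖ ≤ d by rw [norm_zero]; exact hd0) h
  rwa [Lam_zero, sub_zero, sub_zero] at h2

theorem cp_sub_le {k : ℝ} (h0 : 0 < k) (h1 : k ≤ 1) {z w : ℂ} {d : ℝ} (hd : d < 1) (h : ‖z‖ ≤ d)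
    (h' : ‖w‖ ≤ d) : ‖(1 + w) ^ ((k - 1 : ℝ) : ℂ) - (1 + z) ^ ((k - 1 : ℝ) : ℂ)‖ ≤
      ((1 - d) ^ 2)⁻¹ * ‖w - z‖ := by
  refine (convex_cb d).norm_image_sub_le_of_norm_hasDerivWithin_le
    (f := fun w : ℂ => (1 + w) ^ ((k - 1 : ℝ) : ℂ))
    (f' := fun w => ((k - 1 : ℝ) : ℂ) * (1 + w) ^ ((k - 1 - 1 : ℝ) : ℂ))
    (fun w hw => (hasDerivAt_cp _ (lt_of_le_of_lt hw hd)).hasDerivWithinAt)
    (fun w hw => ?_) h h'
  rw [norm_mul, norm_real, Real.norm_eq_abs]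
  have h2 : |k - 1| ≤ 1 := by rw [abs_le]; constructor <;> linarith
  have h3 := norm_cp2_le h0 h1 hd hw
  calc |k - 1| * ‖(1 + w) ^ ((k - 1 - 1 : ℝ) : ℂ)‖ ≤ 1 * ((1 - d) ^ 2)⁻¹ :=
        mul_le_mul h2 h3 (norm_nonneg _) (by norm_num)
    _ = _ := one_mul _

/-- Taylor's formula -/
theorem Lam_taylor {k : ℝ} (h0 : 0 < k) (h1 : k ≤ 1) {z w : ℂ} {d : ℝ} (hd : d < 1) (h : ‖z‖ ≤ d)
    (h' : ‖w‖ ≤ d) : ‖Lam k w - Lam k z - (1 + z) ^ ((k - 1 : ℝ) : ℂ) * (w - z)‖ ≤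
      ((1 - d) ^ 2)⁻¹ * ‖w - z‖ ^ 2 := by
  set c : ℂ := (1 + z) ^ ((k - 1 : ℝ) : ℂ) with hc
  have hseg : segment ℝ z w ⊆ {z : ℂ | ‖z‖ ≤ d} := (convex_cb d).segment_subset h h'
  have h2 := (convex_segment z w).norm_image_sub_le_of_norm_hasDerivWithin_le
    (f := fun v => Lam k v - c * v) (f' := fun v => (1 + v) ^ ((k - 1 : ℝ) : ℂ) - c)
    (C := ((1 - d) ^ 2)⁻¹ * ‖w - z‖) (x := z) (y := w)
    (fun v hv => by
      have h3 := hasDerivAt_Lam h0 (lt_of_le_of_lt (hseg hv) hd)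
      have h4 := h3.sub ((hasDerivAt_id v).const_mul c)
      rw [mul_one] at h4
      exact h4.hasDerivWithinAt)
    (fun v hv => by
      refine (cp_sub_le h0 h1 hd h (hseg hv)).trans ?_
      refine mul_le_mul_of_nonneg_left ?_ (by positivity)
      rw [segment_eq_image'] at hv
      obtain ⟨s, hs, rfl⟩ := hv
      rw [add_sub_cancel_left, norm_smul, Real.norm_eq_abs, abs_of_nonneg hs.1]
      calc s * ‖w - z‖ ≤ 1 * ‖w - z‖ := mul_le_mul_of_nonneg_right hs.2 (norm_nonneg _)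
        _ = _ := one_mul _)
    (left_mem_segment ℝ z w) (right_mem_segment ℝ z w)
  have e : Lam k w - Lam k z - c * (w - z) = Lam k w - c * w - (Lam k z - c * z) := by ring
  rw [e]
  refine h2.trans (le_of_eq ?_)
  ring

end Pool.Agent.H93.MR
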