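import Pool.Agent.H93.MR.Mn

/-!
# The linear part

Only the real parts of the coefficients with odd index enter, and `|Re b_n| <= n^2 (1 - b_1)`.
-/

open Complex Set Filter Topology MeasureTheory
open scoped ComplexConjugate Real

namespace Pool.Agent.H93.MR

open Pool.Agent.H15.Sig

variable {F : ℂ → ℂ} {b : ℕ → ℂ} {β : ℝ}

private noncomputable def fi (j : ℕ) : ℝ := if Even j ∧ 4 ≤ j then ((j : ℝ) - 1) ^ 2 else 0

private theorem fi_nn (j : ℕ) : 0 ≤ fi j := by
  unfold fi
  split_ifs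
  · positivity
  · exact le_rfl

private theorem aux_pow (m : ℕ) : (2 * (m : ℝ) + 5) ^ 2 ≤ 27 * 4 ^ m := by
  induction m with
  | zero => norm_num
  | succ m ih =>
    push_cast
    rw [pow_succ (4 : ℝ)]
    have : (0 : ℝ) ≤ m := by positivity
    nlinarith

private theorem sum_fi (m : ℕ) : ∑ j ∈ Finset.range (2 * m + 5), fi j ≤ 9 * 4 ^ m := by
  induction m with
  | zero =>
    simp only [Finset.sum_range_succ, Finset.sum_range_zero, fi]
    norm_num [Nat.even_iff]
  | succ m ih =>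
    rw [show 2 * (m + 1) + 5 = 2 * m + 5 + 1 + 1 by ring, Finset.sum_range_succ,
      Finset.sum_range_succ]
    have h1 : fi (2 * m + 5) = 0 := by
      unfold fi
      rw [if_neg]
      rintro ⟨h, _⟩
      rw [Nat.even_iff] at h
      omega
    have h2 : fi (2 * m + 5 + 1) = (2 * (m : ℝ) + 5) ^ 2 := by
      unfold fi
      rw [if_pos ⟨by rw [Nat.even_iff]; omega, by omega⟩]
      push_cast
      ring
    rw [h1, h2]
    have h3 := aux_pow m
    rw [pow_succ (4 : ℝ)]
    linarith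

theorem eeS_small {j : ℕ} (hj : j ≤ 2) : PowerSeries.coeff j (eeS b) = 0 := by
  simp [eeS, hj]

theorem eeS_re (h : Nrm F b β) {j : ℕ} (hj : 3 ≤ j) :
    |(PowerSeries.coeff j (eeS b)).re| ≤ ((j : ℝ) - 1) ^ 2 * (1 - β) := by
  have e : PowerSeries.coeff j (eeS b) = b (j - 1) := by
    simp only [eeS, PowerSeries.coeff_mk]
    rw [if_neg (by omega)]
  rw [e]
  have h1 := re_le h.sig (n := j - 1) (by omega)
  rw [h.b1, ofReal_re, Nat.cast_sub (by omega), Nat.cast_one] at h1
  exact h1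

/-- the coefficients of `(1 + β u^2)^(k-1) Ee` -/
theorem re_coeff_le (h : Nrm F b β) {k : ℝ} (hk : 0 ≤ k) (hk1 : k ≤ 1) (m : ℕ) :
    |(PowerSeries.coeff (2 * m + 4) (evS (sc k) β * eeS b)).re| ≤ 9 * (1 - β) * 4 ^ m := by
  have hβ := h.beta_le
  have h0 := h.nn
  rw [PowerSeries.coeff_mul, re_sum]
  have h1 : ∀ p ∈ Finset.HasAntidiagonal.antidiagonal (2 * m + 4),
      |(PowerSeries.coeff p.1 (evS (sc k) β) * PowerSeries.coeff p.2 (eeS b)).re| ≤
        (1 - β) * fi p.2 := by
    intro p hp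
    rw [Finset.HasAntidiagonal.mem_antidiagonal] at hp
    by_cases he : Even p.1
    · obtain ⟨i, hi⟩ := he
      rw [hi, ← two_mul, coeff_evS_even, re_ofReal_mul, abs_mul]
      have h2 : |sc k i * β ^ i| ≤ 1 := by
        rw [abs_mul]
        have h3 := abs_sc_le hk hk1 i
        have h4 : |β ^ i| ≤ 1 := by
          rw [abs_of_nonneg (by positivity)]
          exact pow_le_one₀ h0 hβ
        calc |sc k i| * |β ^ i| ≤ 1 * 1 := mul_le_mul h3 h4 (abs_nonneg _) (by norm_num)
          _ = 1 := one_mul 1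
      by_cases hj : p.2 ≤ 2
      · rw [eeS_small hj, zero_re, abs_zero, mul_zero]
        exact mul_nonneg (by linarith) (fi_nn _)
      · have h5 := eeS_re h (j := p.2) (by omega)
        have h6 : fi p.2 = ((p.2 : ℝ) - 1) ^ 2 := by
          unfold fi
          rw [if_pos ⟨by rw [Nat.even_iff]; omega, by omega⟩]
        rw [h6]
        calc |sc k i * β ^ i| * |(PowerSeries.coeff p.2 (eeS b)).re| ≤
            1 * (((p.2 : ℝ) - 1) ^ 2 * (1 - β)) := mul_le_mul h2 h5 (abs_nonneg _) (by norm_num)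
          _ = _ := by ring
    · rw [coeff_evS_odd _ _ he, zero_mul, zero_re, abs_zero]
      exact mul_nonneg (by linarith) (fi_nn _)
  refine (Finset.abs_sum_le_sum_abs _ _).trans ((Finset.sum_le_sum h1).trans ?_)
  rw [← Finset.mul_sum]
  have h2 : ∑ p ∈ Finset.HasAntidiagonal.antidiagonal (2 * m + 4), fi p.2 =
      ∑ j ∈ Finset.range (2 * m + 5), fi j := by
    rw [← Finset.Nat.sum_antidiagonal_swap]
    simp only [Prod.snd_swap]
    rw [Finset.Nat.sum_antidiagonal_eq_sum_range_succ_mk]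
  rw [h2]
  have := mul_le_mul_of_nonneg_left (sum_fi m) (by linarith : 0 ≤ 1 - β)
  linarith

/-- the linear part -/
theorem lin_le (h : Nrm F b β) {k : ℝ} (hk : 0 < k) (hk1 : k ≤ 1) {x : ℝ} (hx0 : 0 ≤ x)
    (hx : x ≤ 1 / 2) :
    (∫ t in (-π)..π, conj (Lam k (β * (x * ec t) ^ 2)) *
      ((1 + β * (x * ec t) ^ 2) ^ ((k - 1 : ℝ) : ℂ) * Ee b β (x * ec t))).re ≤
      12 * π * (1 - β) * β ^ 2 * x ^ 8 := by
  have hpi := Real.pi_pos
  have hβ := h.beta_le
  have h0 := h.nn
  have hx1 : x < 1 := by linarith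
  have hrW := (rep_W k h0 hβ).mul (rep_E h)
  have h1 := hasSum_re ((rep_P hk h0 hβ).parseval hrW hx0 hx1)
  have hinj : Function.Injective fun m : ℕ => 2 * m + 4 := fun a b hab => by
    simpa using hab
  rw [← hinj.hasSum_iff] at h1
  · have hg : HasSum (fun m : ℕ => 9 * π * (1 - β) * β ^ 2 * x ^ 8 * (1 / 4 : ℝ) ^ m)
        (9 * π * (1 - β) * β ^ 2 * x ^ 8 * (1 - 1 / 4)⁻¹) :=
      (hasSum_geometric_of_lt_one (by norm_num) (by norm_num)).mul_left _
    have h2 := hasSum_le (fun m => by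
      simp only [Function.comp]
      rw [show 2 * m + 4 = 2 * (m + 2) by ring, coeff_evS_even, conj_ofReal]
      have e1 : ((2 * π : ℂ) * ((((lc k (m + 2) * β ^ (m + 2) : ℝ)) : ℂ) *
          PowerSeries.coeff (2 * (m + 2)) (evS (sc k) β * eeS b)) * x ^ (2 * (2 * (m + 2)))).re =
          2 * π * (lc k (m + 2) * β ^ (m + 2)) * x ^ (2 * (2 * (m + 2))) *
            (PowerSeries.coeff (2 * (m + 2)) (evS (sc k) β * eeS b)).re := by
        have e2 : ((2 * π : ℂ) * ((((lc k (m + 2) * β ^ (m + 2) : ℝ)) : ℂ) *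
            PowerSeries.coeff (2 * (m + 2)) (evS (sc k) β * eeS b)) * x ^ (2 * (2 * (m + 2)))) =
            ((2 * π * (lc k (m + 2) * β ^ (m + 2)) * x ^ (2 * (2 * (m + 2))) : ℝ) : ℂ) *
              PowerSeries.coeff (2 * (m + 2)) (evS (sc k) β * eeS b) := by
          push_cast
          ring
        rw [e2, re_ofReal_mul]
      rw [e1]
      have h3 := re_coeff_le h hk.le hk1 m
      rw [show 2 * m + 4 = 2 * (m + 2) by ring] at h3
      have h4 := abs_lc_le hk.le hk1 (n := m + 2) (by omega)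
      have h5 : β ^ (m + 2) ≤ β ^ 2 := pow_le_pow_of_le_one h0 hβ (by omega)
      have h6 : x ^ (2 * (2 * (m + 2))) = x ^ 8 * (x ^ 4) ^ m := by
        rw [← pow_mul, ← pow_add]; congr 1; ring
      have h7 : x ^ 4 ≤ 1 / 16 := by
        calc x ^ 4 ≤ (1 / 2) ^ 4 := pow_le_pow_left₀ hx0 hx 4
          _ = 1 / 16 := by norm_num
      have h8 : (x ^ 4) ^ m ≤ (1 / 16 : ℝ) ^ m := pow_le_pow_left₀ (by positivity) h7 m
      set R := (PowerSeries.coeff (2 * (m + 2)) (evS (sc k) β * eeS b)).re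
      have h9 : |2 * π * (lc k (m + 2) * β ^ (m + 2)) * x ^ (2 * (2 * (m + 2)))| ≤
          π * β ^ 2 * (x ^ 8 * (1 / 16 : ℝ) ^ m) := by
        rw [h6, abs_mul, abs_mul, abs_mul (lc k (m + 2)), abs_of_pos (by positivity : 0 < 2 * π),
          abs_of_nonneg (by positivity : 0 ≤ β ^ (m + 2)),
          abs_of_nonneg (by positivity : 0 ≤ x ^ 8 * (x ^ 4) ^ m)]
        have i1 : |lc k (m + 2)| * β ^ (m + 2) ≤ 1 / 2 * β ^ 2 :=
          mul_le_mul h4 h5 (by positivity) (by norm_num)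
        have i2 : x ^ 8 * (x ^ 4) ^ m ≤ x ^ 8 * (1 / 16 : ℝ) ^ m :=
          mul_le_mul_of_nonneg_left h8 (by positivity)
        calc 2 * π * (|lc k (m + 2)| * β ^ (m + 2)) * (x ^ 8 * (x ^ 4) ^ m) ≤
            2 * π * (1 / 2 * β ^ 2) * (x ^ 8 * (1 / 16 : ℝ) ^ m) :=
              mul_le_mul (mul_le_mul_of_nonneg_left i1 (by positivity)) i2 (by positivity)
                (by positivity)
          _ = _ := by ring
      calc _ ≤ |2 * π * (lc k (m + 2) * β ^ (m + 2)) * x ^ (2 * (2 * (m + 2))) * R| := le_abs_self _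
        _ = |2 * π * (lc k (m + 2) * β ^ (m + 2)) * x ^ (2 * (2 * (m + 2)))| * |R| := abs_mul _ _
        _ ≤ π * β ^ 2 * (x ^ 8 * (1 / 16 : ℝ) ^ m) * (9 * (1 - β) * 4 ^ m) :=
            mul_le_mul h9 h3 (abs_nonneg _) (by positivity)
        _ = 9 * π * (1 - β) * β ^ 2 * x ^ 8 * ((1 / 16 : ℝ) ^ m * 4 ^ m) := by ring
        _ = 9 * π * (1 - β) * β ^ 2 * x ^ 8 * (1 / 4 : ℝ) ^ m := by
            rw [← mul_pow]; norm_num) h1 hg
    refine h2.trans (le_of_eq ?_)
    norm_num
    ring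
  · intro j hj
    have hz : conj (PowerSeries.coeff j (evS (lc k) β)) *
        PowerSeries.coeff j (evS (sc k) β * eeS b) = 0 := by
      by_cases he : Even j
      · obtain ⟨m, rfl⟩ := he
        have hm : m < 2 := by
          by_contra hm
          exact hj ⟨m - 2, by simp only; omega⟩
        interval_cases m
        · have : PowerSeries.coeff (0 + 0) (evS (lc k) β) = 0 := by
            have := coeff_evS_even (lc k) β 0
            simpa [lc_zero] using this
          rw [this, map_zero, zero_mul]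
        · have : PowerSeries.coeff (1 + 1) (evS (sc k) β * eeS b) = 0 := by
            rw [PowerSeries.coeff_mul]
            refine Finset.sum_eq_zero fun p hp => ?_
            rw [Finset.HasAntidiagonal.mem_antidiagonal] at hp
            rw [eeS_small (by omega), mul_zero]
          rw [this, mul_zero]
      · rw [coeff_evS_odd _ _ he, map_zero, zero_mul]
    rw [hz, mul_zero, zero_mul]
    simp

end Pool.Agent.H93.MR
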