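import Pool.Agent.H36.SZ.LoH

/-!
# The real parts of the coefficients

`|Re b_n| <= n^2 (1 - Re b_1)` for every `F` in the class Sigma and `n >= 2`.
PROOF. For `Sg`: `hb >= 0` on `[0, π]` has the sine coefficients `1 - Re b_1` and `- Re b_n / n`,
and `|sin n β| <= n sin β`. In general: dilation (`dil`) and `p -> 1`.
-/

open Complex MeasureTheory Set Filter Topology
open scoped ComplexConjugate Real

namespace Pool.Agent.H93.MR

open Pool.Agent.H36.SZ Pool.Agent.H15.Sig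

theorem abs_sin_nat (n : ℕ) (x : ℝ) : |Real.sin (n * x)| ≤ n * |Real.sin x| := by
  induction n with
  | zero => simp
  | succ n ih =>
    have e : ((n + 1 : ℕ) : ℝ) * x = n * x + x := by push_cast; ring
    rw [e, Real.sin_add]
    have h1 := abs_add_le (Real.sin (n * x) * Real.cos x) (Real.cos (n * x) * Real.sin x)
    rw [abs_mul, abs_mul] at h1
    have h2 := Real.abs_cos_le_one x
    have h3 := Real.abs_cos_le_one (n * x)
    have h4 := mul_le_mul_of_nonneg_left h2 (abs_nonneg (Real.sin (n * x)))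
    have h5 := mul_le_mul_of_nonneg_right h3 (abs_nonneg (Real.sin x))
    push_cast
    linarith

theorem Sg_re_le {F : ℂ → ℂ} {b : ℕ → ℂ} {q : ℝ} (h : Sg F b q) {n : ℕ} (hn : 2 ≤ n) :
    |(b n).re| ≤ (n : ℝ) ^ 2 * (1 - (b 1).re) := by
  have hpi := Real.pi_pos
  have hn0 : (0 : ℝ) < n := by exact_mod_cast (by omega : 0 < n)
  have h1 := h.hb_sin (m := 1) le_rfl
  have h2 := h.hb_sin (m := n) (by omega)
  have hc := h.hb_cont
  rw [if_neg (by omega), zero_sub] at h2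
  rw [if_pos rfl] at h1
  have h3 : |∫ β in (0 : ℝ)..π, hb b β * Real.sin (n * β)| ≤
      ∫ β in (0 : ℝ)..π, n * (hb b β * Real.sin ((1 : ℕ) * β)) := by
    refine (intervalIntegral.abs_integral_le_integral_abs hpi.le).trans ?_
    refine intervalIntegral.integral_mono_on hpi.le ?_ ?_ ?_
    · exact (hc.mul (by fun_prop)).abs.intervalIntegrable _ _
    · exact (continuous_const.mul (hc.mul (by fun_prop))).intervalIntegrable _ _
    · intro β hβ
      have h4 := h.hb_nonneg hβ.1 hβ.2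
      have h5 := abs_sin_nat n β
      have h6 : 0 ≤ Real.sin β := Real.sin_nonneg_of_nonneg_of_le_pi hβ.1 hβ.2
      rw [abs_of_nonneg h6] at h5
      rw [abs_mul, abs_of_nonneg h4, Nat.cast_one, one_mul]
      have := mul_le_mul_of_nonneg_left h5 h4
      linarith
  rw [intervalIntegral.integral_const_mul, h1, h2] at h3
  rw [abs_mul, abs_of_pos (by positivity : 0 < π / 2), abs_neg, abs_div, abs_of_pos hn0] at h3
  have h7 : π / 2 * (|(b n).re| / n) ≤ π / 2 * (n * (1 - (b 1).re)) := by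
    refine h3.trans (le_of_eq ?_)
    rw [Nat.cast_one, div_one]
    ring
  have h8 := le_of_mul_le_mul_left h7 (by positivity)
  rw [div_le_iff₀ hn0] at h8
  calc |(b n).re| ≤ n * (1 - (b 1).re) * n := h8
    _ = _ := by ring

theorem re_le {F : ℂ → ℂ} {b : ℕ → ℂ} (h : IsSig F b) {n : ℕ} (hn : 2 ≤ n) :
    |(b n).re| ≤ (n : ℝ) ^ 2 * (1 - (b 1).re) := by
  have hev : ∀ᶠ p : ℝ in 𝓝[>] 1, |(b n * ((p : ℂ)⁻¹) ^ (n + 1)).re| ≤
      (n : ℝ) ^ 2 * (1 - (b 1 * ((p : ℂ)⁻¹) ^ (1 + 1)).re) := by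
    filter_upwards [self_mem_nhdsWithin] with p hp
    exact Sg_re_le (dil h hp) hn
  have hc : ∀ k : ℕ, Tendsto (fun p : ℝ => (b k * ((p : ℂ)⁻¹) ^ (k + 1)).re) (𝓝[>] 1)
      (𝓝 (b k).re) := by
    intro k
    have h1 : ContinuousAt (fun p : ℝ => (b k * ((p : ℂ)⁻¹) ^ (k + 1)).re) 1 := by
      have h2 : ContinuousAt (fun p : ℝ => ((p : ℂ)⁻¹)) 1 :=
        (Complex.continuous_ofReal.continuousAt).inv₀ (by simp)
      exact Complex.continuous_re.continuousAt.comp (continuousAt_const.mul (h2.pow (k + 1)))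
    have h3 := h1.tendsto
    simp only [ofReal_one, inv_one, one_pow, mul_one] at h3
    exact h3.mono_left nhdsWithin_le_nhds
  have h1 : Tendsto (fun p : ℝ => |(b n * ((p : ℂ)⁻¹) ^ (n + 1)).re|) (𝓝[>] 1)
      (𝓝 |(b n).re|) := (hc n).abs
  have h2 : Tendsto (fun p : ℝ => (n : ℝ) ^ 2 * (1 - (b 1 * ((p : ℂ)⁻¹) ^ (1 + 1)).re)) (𝓝[>] 1)
      (𝓝 ((n : ℝ) ^ 2 * (1 - (b 1).re))) := (tendsto_const_nhds.sub (hc 1)).const_mul _
  exact le_of_tendsto_of_tendsto h1 h2 hev

end Pool.Agent.H93.MR
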