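import Pool.Agent.H93.MR.Lam
import Pool.Agent.H93.MR.Rb
import Pool.Agent.H15.Sig.Final

/-!
# Integral means of order at most two, radii at least two: the pieces

`x = 1/r <= 1/2`, `u = x exp (-it)`, `b_1 = β >= 0`; `u F(1/u) = 1 + β u^2 + Ee u`.
-/

open Complex Set Filter Topology MeasureTheory
open scoped ComplexConjugate Real

namespace Pool.Agent.H93.MR

open Pool.Agent.H15.Sig

/-- mean value property on the circle -/
theorem circle_mean {f : ℂ → ℂ} {x : ℝ} (hx0 : 0 < x) (hf : DiffContOnCl ℂ f (Metric.ball 0 x)) :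
    ∫ t in (-π)..π, f (x * ec t) = 2 * π * f 0 := by
  have h1 := DiffContOnCl.circleAverage (f := f) (c := 0) (R := x) (by rwa [abs_of_pos hx0])
  rw [Real.circleAverage_def] at h1
  have h2 : ∫ θ in (0:ℝ)..(2 * π), f (circleMap 0 x θ) = 2 * π * f 0 := by
    rw [← h1]
    have : (π : ℂ) ≠ 0 := by exact_mod_cast Real.pi_ne_zero
    rw [Complex.real_smul]
    push_cast
    field_simp
  have hper : Function.Periodic (fun θ : ℝ => f (circleMap 0 x θ)) (2 * π) := by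
    intro θ
    simp only
    rw [periodic_circleMap]
  have h3 := hper.intervalIntegral_add_eq 0 (-π)
  rw [zero_add, show -π + 2 * π = π by ring, h2] at h3
  have h4 : ∫ t in (-π)..π, f (x * ec t) =
      ∫ t in (-π)..π, (fun θ : ℝ => f (circleMap 0 x θ)) (-t) := by
    apply intervalIntegral.integral_congr
    intro t _
    simp only
    have : (x : ℂ) * ec t = circleMap 0 x (-t) := by
      unfold ec circleMap; push_cast; rw [zero_add, neg_mul]
    rw [this]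
  rw [h4, intervalIntegral.integral_comp_neg (fun θ : ℝ => f (circleMap 0 x θ)), neg_neg]
  exact h3.symm

/-- the remainder -/
noncomputable def Ee (b : ℕ → ℂ) (β : ℝ) (u : ℂ) : ℂ := u * pw b u - β * u ^ 2

variable {F : ℂ → ℂ} {b : ℕ → ℂ} {β : ℝ}

theorem hasSum_E (h : Nrm F b β) {u : ℂ} (hu : ‖u‖ < 1) :
    HasSum (fun k : ℕ => b (k + 2) * u ^ (k + 3)) (Ee b β u) := by
  have h1 := (hasSum_nat_add_iff' 2).2 (h.sig.hasSum_pw hu)
  have h2 := h1.mul_left u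
  have e : u * (pw b u - ∑ i ∈ Finset.range 2, b i * u ^ i) = Ee b β u := by
    unfold Ee
    simp only [Finset.sum_range_succ, Finset.sum_range_zero, h.sig.b0, h.b1]
    ring
  rw [e] at h2
  refine h2.congr_fun ?_ |> fun h => h
  intro k
  ring

theorem sum2 (h : Nrm F b β) (M : ℕ) :
    ∑ k ∈ Finset.range M, ((k : ℝ) + 2) * ‖b (k + 2)‖ ^ 2 ≤ 1 - β ^ 2 := by
  have h1 := h.sig.area (M + 2)
  rw [Finset.sum_range_succ', Finset.sum_range_succ'] at h1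
  have e : ‖b (0 + 1)‖ = β := by
    rw [zero_add, h.b1, norm_real, Real.norm_eq_abs, abs_of_nonneg h.nn]
  rw [e] at h1
  push_cast at h1
  have e2 : ∑ k ∈ Finset.range M, ((k : ℝ) + 2) * ‖b (k + 2)‖ ^ 2 =
      ∑ k ∈ Finset.range M, ((k : ℝ) + 1 + 1) * ‖b (k + 1 + 1)‖ ^ 2 := by
    refine Finset.sum_congr rfl fun k _ => ?_
    rw [show (k : ℝ) + 1 + 1 = k + 2 by ring]
  rw [e2]
  norm_num at h1
  linarith

theorem summ2 (h : Nrm F b β) : Summable fun k : ℕ => ((k : ℝ) + 2) * ‖b (k + 2)‖ ^ 2 :=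
  summable_of_sum_range_le (fun k => by positivity) (sum2 h)

theorem tsum2 (h : Nrm F b β) : ∑' k : ℕ, ((k : ℝ) + 2) * ‖b (k + 2)‖ ^ 2 ≤ 1 - β ^ 2 :=
  Real.tsum_le_of_sum_range_le (fun k => by positivity) (sum2 h)

theorem norm_E (h : Nrm F b β) {u : ℂ} (hu : ‖u‖ ≤ 1 / 2) : ‖Ee b β u‖ ≤ 103 / 1000 := by
  have h1 := hasSum_E h (lt_of_le_of_lt hu (by norm_num))
  have hg : HasSum (fun k : ℕ => 1 / 20 * (((k : ℝ) + 2) * ‖b (k + 2)‖ ^ 2) +
      5 / 128 * (1 / 4 : ℝ) ^ k)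
      (1 / 20 * (∑' k : ℕ, ((k : ℝ) + 2) * ‖b (k + 2)‖ ^ 2) + 5 / 128 * (1 - 1 / 4)⁻¹) :=
    ((summ2 h).hasSum.mul_left _).add
      ((hasSum_geometric_of_lt_one (by norm_num) (by norm_num)).mul_left _)
  have h2 := h1.norm_le_of_bounded hg (fun k => by
    rw [norm_mul, norm_pow]
    have hk : (0 : ℝ) < (k : ℝ) + 2 := by positivity
    set B := ‖b (k + 2)‖
    have hB : 0 ≤ B := norm_nonneg _
    have h3 : ‖u‖ ^ (k + 3) ≤ (1 / 2 : ℝ) ^ (k + 3) := pow_le_pow_left₀ (norm_nonneg _) hu _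
    set X : ℝ := (1 / 2 : ℝ) ^ (k + 3) with hX
    have hX0 : 0 ≤ X := by positivity
    have hX2 : X ^ 2 = 1 / 64 * (1 / 4 : ℝ) ^ k := by
      rw [hX, ← pow_mul, show (k + 3) * 2 = 2 * k + 6 by ring, pow_add, pow_mul]
      norm_num
      ring
    have h4 : B * X ≤ 1 / 20 * ((k + 2) * B ^ 2) + 5 / 2 * X ^ 2 := by
      have hk2 : (2 : ℝ) ≤ (k : ℝ) + 2 := by linarith [(Nat.cast_nonneg k : (0 : ℝ) ≤ k)]
      have : 1 / 20 * (2 * B ^ 2) ≤ 1 / 20 * ((k + 2) * B ^ 2) := by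
        have := mul_le_mul_of_nonneg_right hk2 (sq_nonneg B)
        linarith
      nlinarith [sq_nonneg (B - 5 * X)]
    calc B * ‖u‖ ^ (k + 3) ≤ B * X := mul_le_mul_of_nonneg_left h3 hB
      _ ≤ _ := h4
      _ = _ := by rw [hX2]; ring)
  have h3 := tsum2 h
  have h4 := sq_nonneg β
  refine h2.trans ?_
  norm_num
  linarith

noncomputable def eeS (b : ℕ → ℂ) : PowerSeries ℂ :=
  PowerSeries.mk fun k => if k ≤ 2 then 0 else b (k - 1)

theorem rep_E (h : Nrm F b β) : Rep (eeS b) (Ee b β) := by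
  intro u hu
  rw [← hasSum_nat_add_iff' 3]
  have h1 := hasSum_E h hu
  have e : Ee b β u - ∑ i ∈ Finset.range 3, PowerSeries.coeff i (eeS b) * u ^ i = Ee b β u := by
    simp [Finset.sum_range_succ, eeS]
  rw [e]
  refine h1.congr_fun ?_ |> fun h => h
  intro k
  simp [eeS]

/-- the mean square of the remainder -/
theorem int_E (h : Nrm F b β) {x : ℝ} (hx0 : 0 ≤ x) (hx : x < 1) :
    ∫ t in (-π)..π, ‖Ee b β (x * ec t)‖ ^ 2 ≤ π * (1 - β ^ 2) * x ^ 6 := by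
  have hpi := Real.pi_pos
  have h1 := (rep_E h).parseval_self hx0 hx
  rw [← hasSum_nat_add_iff' 3] at h1
  have e : (∫ t in (-π)..π, ‖Ee b β (x * ec t)‖ ^ 2) - ∑ i ∈ Finset.range 3,
      2 * π * ‖PowerSeries.coeff i (eeS b)‖ ^ 2 * x ^ (2 * i) =
      ∫ t in (-π)..π, ‖Ee b β (x * ec t)‖ ^ 2 := by
    simp [Finset.sum_range_succ, eeS]
  rw [e] at h1
  have h2 := (summ2 h).hasSum.mul_left (π * x ^ 6)
  have h3 := hasSum_le (fun k => by
    have e3 : PowerSeries.coeff (k + 3) (eeS b) = b (k + 2) := by simp [eeS]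
    rw [e3]
    have hk2 : (2 : ℝ) ≤ (k : ℝ) + 2 := by linarith [(Nat.cast_nonneg k : (0 : ℝ) ≤ k)]
    have hxk : x ^ (2 * (k + 3)) ≤ x ^ 6 := by
      rw [show 2 * (k + 3) = 6 + 2 * k by ring, pow_add]
      have := pow_le_one₀ (n := 2 * k) hx0 hx.le
      have h6 : 0 ≤ x ^ 6 := by positivity
      nlinarith
    have hx6 : 0 ≤ x ^ 6 := by positivity
    have hB := sq_nonneg ‖b (k + 2)‖
    calc 2 * π * ‖b (k + 2)‖ ^ 2 * x ^ (2 * (k + 3)) ≤ 2 * π * ‖b (k + 2)‖ ^ 2 * x ^ 6 :=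
          mul_le_mul_of_nonneg_left hxk (by positivity)
      _ = π * x ^ 6 * (2 * ‖b (k + 2)‖ ^ 2) := by ring
      _ ≤ π * x ^ 6 * (((k : ℝ) + 2) * ‖b (k + 2)‖ ^ 2) :=
          mul_le_mul_of_nonneg_left (mul_le_mul_of_nonneg_right hk2 hB) (by positivity)) h1 h2
  refine h3.trans ?_
  have := mul_le_mul_of_nonneg_left (tsum2 h) (by positivity : 0 ≤ π * x ^ 6)
  linarith

/-- the power series of `G (β u^2)` -/
noncomputable def evS (c : ℕ → ℝ) (β : ℝ) : PowerSeries ℂ :=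
  PowerSeries.mk fun k => if Even k then ((c (k / 2) * β ^ (k / 2) : ℝ) : ℂ) else 0

theorem coeff_evS_even (c : ℕ → ℝ) (β : ℝ) (m : ℕ) :
    PowerSeries.coeff (2 * m) (evS c β) = ((c m * β ^ m : ℝ) : ℂ) := by
  simp [evS]

theorem coeff_evS_odd (c : ℕ → ℝ) (β : ℝ) {k : ℕ} (hk : ¬ Even k) :
    PowerSeries.coeff k (evS c β) = 0 := by
  simp only [evS, PowerSeries.coeff_mk, if_neg hk]

theorem rep_evS {c : ℕ → ℝ} {G : ℂ → ℂ}
    (hG : ∀ z : ℂ, ‖z‖ < 1 → HasSum (fun n : ℕ => ((c n : ℝ) : ℂ) * z ^ n) (G z))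
    (h0 : 0 ≤ β) (h1 : β ≤ 1) : Rep (evS c β) (fun u => G (β * u ^ 2)) := by
  intro u hu
  have hz : ‖(β : ℂ) * u ^ 2‖ < 1 := by
    rw [norm_mul, norm_pow, norm_real, Real.norm_eq_abs, abs_of_nonneg h0]
    have : ‖u‖ ^ 2 < 1 := pow_lt_one₀ (norm_nonneg _) hu (by norm_num)
    nlinarith [sq_nonneg ‖u‖]
  have h2 := hG _ hz
  have hinj : Function.Injective fun m : ℕ => 2 * m := fun a b hab => by
    simpa using hab
  rw [← hinj.hasSum_iff]
  · refine h2.congr_fun ?_ |> fun h => h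
    intro m
    simp only [Function.comp]
    rw [coeff_evS_even, mul_pow, ← pow_mul]
    push_cast
    ring
  · intro k hk
    rw [coeff_evS_odd, zero_mul]
    intro he
    obtain ⟨m, rfl⟩ := he
    exact hk ⟨m, by simp only; ring⟩

theorem rep_P {k : ℝ} (hk : 0 < k) (h0 : 0 ≤ β) (h1 : β ≤ 1) :
    Rep (evS (lc k) β) (fun u => Lam k (β * u ^ 2)) :=
  rep_evS (fun _ hz => hasSum_Lam hk hz) h0 h1

theorem rep_W (k : ℝ) (h0 : 0 ≤ β) (h1 : β ≤ 1) :
    Rep (evS (sc k) β) (fun u => (1 + β * u ^ 2) ^ ((k - 1 : ℝ) : ℂ)) :=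
  rep_evS (G := fun z => (1 + z) ^ ((k - 1 : ℝ) : ℂ)) (fun _ hz => hasSum_cpow (k - 1) hz) h0 h1

/-- the leading part -/
theorem int_P {k : ℝ} (hk : 0 < k) (h0 : 0 ≤ β) (h1 : β ≤ 1) {x : ℝ} (hx0 : 0 ≤ x) (hx : x < 1) :
    ∫ t in (-π)..π, ‖Lam k (β * (x * ec t) ^ 2)‖ ^ 2 ≤
      (∫ t in (-π)..π, ‖Lam k ((1 : ℝ) * (x * ec t) ^ 2)‖ ^ 2) - 2 * π * (1 - β ^ 2) * x ^ 4 := by
  have hpi := Real.pi_pos
  have e1 := (rep_P hk h0 h1).parseval_self hx0 hx
  have e2 := (rep_P hk (zero_le_one (α := ℝ)) le_rfl).parseval_self hx0 hx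
  have e3 := e2.sub e1
  have e4 := le_hasSum e3 2 (fun j _ => by
    rw [sub_nonneg]
    refine mul_le_mul_of_nonneg_right ?_ (by positivity)
    refine mul_le_mul_of_nonneg_left ?_ (by positivity)
    refine pow_le_pow_left₀ (norm_nonneg _) ?_ 2
    by_cases hj : Even j
    · obtain ⟨m, rfl⟩ := hj
      rw [← two_mul, coeff_evS_even, coeff_evS_even, norm_real, norm_real, Real.norm_eq_abs,
        Real.norm_eq_abs, abs_mul, abs_mul]
      refine mul_le_mul_of_nonneg_left ?_ (abs_nonneg _)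
      rw [one_pow, abs_one, abs_of_nonneg (by positivity)]
      exact pow_le_one₀ h0 h1
    · rw [coeff_evS_odd _ _ hj, coeff_evS_odd _ _ hj])
  have e5 : PowerSeries.coeff 2 (evS (lc k) β) = (β : ℂ) := by
    have := coeff_evS_even (lc k) β 1
    rw [lc_one, one_mul, pow_one] at this
    exact this
  have e6 : PowerSeries.coeff 2 (evS (lc k) 1) = ((1 : ℝ) : ℂ) := by
    have := coeff_evS_even (lc k) 1 1
    rw [lc_one, one_mul, pow_one] at this
    exact this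
  rw [e5, e6, norm_real, norm_real, Real.norm_eq_abs, Real.norm_eq_abs, sq_abs, sq_abs] at e4
  norm_num at e4
  simp only [ofReal_one, one_mul] at e4 ⊢
  linarith

end Pool.Agent.H93.MR
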